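import Pool.Agent.Y468.SR.Reide

/-! Every movie without moves of type III ending in the empty diagram yields a matching of the
crossings with the planarity condition. -/

namespace Pool.Agent.Y468.SR

theorem matching_congr {P P' : List Pass} {m : ℕ → ℕ} (h : ∀ r, r ∈ P ↔ r ∈ P')
    (hm : Matching P m) : Matching P' m := by
  intro p hp
  obtain ⟨q, hq, h1⟩ := hm p ((h p).2 hp)
  exact ⟨q, (h q).1 hq, h1⟩

theorem valid_congr {G : Type} [Group G] {P P' : List Pass} {m : ℕ → ℕ} {o u : ℕ → G}
    (h : ∀ r, r ∈ P ↔ r ∈ P') (hm : Valid P m o u) : Valid P' m o u :=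
  fun p hp => hm p ((h p).2 hp)

/-- the labels of the components -/
def vals {G : Type} [Group G] (o u : ℕ → G) (D : Code) : List (G × ℕ) :=
  D.map fun C => (wval o u C.1, C.2)

theorem null_iff (D : Code) (m : ℕ → ℕ) : NullE (enc D) m ↔
    ∀ (G : Type) [Group G] (o u : ℕ → G), Valid (passes D) m o u → ∀ b, CN (bv (vals o u D) b) := by
  unfold NullE vals
  simp only [pl_enc, ev_enc]

theorem inv_def (D : Code) : Inv D ↔ ∃ m, Matching (passes D) m ∧
    ∀ (G : Type) [Group G] (o u : ℕ → G), Valid (passes D) m o u → ∀ b,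
      CN (bv (vals o u D) b) := by
  unfold Inv
  simp only [null_iff]

theorem nodup_keys {p : Pass} {P' : List Pass}
    (h : ((p :: p.mate :: P').map fun p => (p.crossing, p.isOver)).Nodup) :
    ∀ q ∈ P', q.crossing ≠ p.crossing := by
  intro q hq hc
  simp only [List.map_cons, List.nodup_cons, List.mem_cons, List.mem_map] at h
  obtain ⟨h1, h2, -⟩ := h
  push Not at h1
  by_cases ho : q.isOver = p.isOver
  · exact h1.2 q hq (by simp [hc, ho])
  · apply h2
    refine ⟨q, hq, ?_⟩
    simp only [Pass.mate, hc]
    cases h3 : q.isOver <;> cases h4 : p.isOver <;> simp_all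

theorem val_mate {G : Type} [Group G] {o u : ℕ → G} (p : Pass)
    (h : u p.crossing = (o p.crossing)⁻¹) : val o u p * val o u p.mate = 1 := by
  unfold val
  cases hp : p.isOver <;> simp [Pass.mate, hp, h]

theorem val_pair {G : Type} [Group G] {o u : ℕ → G} (p q : Pass) (ho : p.isOver = q.isOver)
    (h1 : o q.crossing = (o p.crossing)⁻¹) (h2 : u q.crossing = (u p.crossing)⁻¹) :
    val o u p * val o u q = 1 ∧ val o u q * val o u p = 1 := by
  unfold val
  rw [← ho]
  cases hp : p.isOver <;> simp [h1, h2]

@[simp] theorem mate_crossing (p : Pass) : p.mate.crossing = p.crossing := rfl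
@[simp] theorem mate_isPos (p : Pass) : p.mate.isPos = p.isPos := rfl
@[simp] theorem mate_isOver (p : Pass) : p.mate.isOver = !p.isOver := rfl
@[simp] theorem mate_mate (p : Pass) : p.mate.mate = p := by
  cases p; simp [Pass.mate]

theorem reid_inv {D D' : Code} (hD : WellFormed D) (h : Reid false (enc D) (enc D')) :
    (Inv D ↔ Inv D') := by
  rw [inv_iff, inv_iff]
  have hP := hD.2
  have hcons : ∀ r ∈ pl (enc D), ∀ s ∈ pl (enc D), r.crossing = s.crossing → r.isPos = s.isPos := by
    rw [pl_enc]
    intro r hr s hs hc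
    exact (hD.sign_eq hs hr hc)
  rw [← pl_enc] at hP
  generalize enc D = E at h hP hcons
  generalize enc D' = E' at h
  cases h with
  | one A B p =>
    have hperm : (pl (A ++ two p p.mate ++ B)).Perm (p :: p.mate :: (pl A ++ pl B)) := by
      rw [List.perm_iff_count]
      intro a
      simp only [pl_append, pl_two, List.count_append, List.count_cons, List.count_nil]
      omega
    have hfr := nodup_keys ((hperm.map _).nodup_iff.1 hP)
    have hE : ∀ r, r ∈ pl (A ++ two p p.mate ++ B) → r.crossing = p.crossing ∨ r ∈ pl (A ++ B) := by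
      intro r hr
      rw [hperm.mem_iff] at hr
      simp only [List.mem_cons] at hr
      rcases hr with rfl | rfl | hr
      · exact Or.inl rfl
      · exact Or.inl rfl
      · exact Or.inr (by simpa using hr)
    have hsub : ∀ r ∈ pl (A ++ B), r ∈ pl (A ++ two p p.mate ++ B) := by
      intro r hr
      rw [hperm.mem_iff]
      simp only [List.mem_cons]
      exact Or.inr (Or.inr (by simpa using hr))
    have hfr' : ∀ r ∈ pl (A ++ B), r.crossing ≠ p.crossing := by
      intro r hr
      exact hfr r (by simpa using hr)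
    have hev : ∀ (G : Type) [Group G] (o u : ℕ → G), u p.crossing = (o p.crossing)⁻¹ →
        ev o u (A ++ two p p.mate ++ B) 1 = ev o u (A ++ B) 1 :=
      fun G _ o u h => ev_insert o u A B p p.mate (val_mate p h) 1
    have hex : ∃ r ∈ pl (A ++ two p p.mate ++ B), r.crossing = p.crossing :=
      ⟨p, by rw [hperm.mem_iff]; simp, rfl⟩
    exact ⟨inv_one_down hE hsub hfr' hev hex, inv_one_up hE hsub hfr' hev hex⟩
  | twoSame A B C p q h ho hs =>
    have hperm : (pl (A ++ two p q ++ B ++ two p.mate q.mate ++ C)).Perm
        (p :: p.mate :: (q :: q.mate :: (pl A ++ pl B ++ pl C))) := by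
      rw [List.perm_iff_count]
      intro a
      simp only [pl_append, pl_two, List.count_append, List.count_cons, List.count_nil]
      omega
    have hperm' : (pl (A ++ two p q ++ B ++ two p.mate q.mate ++ C)).Perm
        (q :: q.mate :: (p :: p.mate :: (pl A ++ pl B ++ pl C))) := by
      rw [List.perm_iff_count]
      intro a
      simp only [pl_append, pl_two, List.count_append, List.count_cons, List.count_nil]
      omega
    have hfr := nodup_keys ((hperm.map _).nodup_iff.1 hP)
    have hfr' := nodup_keys ((hperm'.map _).nodup_iff.1 hP)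
    have hE : ∀ r, r ∈ pl (A ++ two p q ++ B ++ two p.mate q.mate ++ C) →
        r.crossing = p.crossing ∨ r.crossing = q.crossing ∨ r ∈ pl (A ++ B ++ C) := by
      intro r hr
      rw [hperm.mem_iff] at hr
      simp only [List.mem_cons] at hr
      rcases hr with rfl | rfl | rfl | rfl | hr
      · exact Or.inl rfl
      · exact Or.inl rfl
      · exact Or.inr (Or.inl rfl)
      · exact Or.inr (Or.inl rfl)
      · exact Or.inr (Or.inr (by simpa using hr))
    have hsub : ∀ r ∈ pl (A ++ B ++ C), r ∈ pl (A ++ two p q ++ B ++ two p.mate q.mate ++ C) := by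
      intro r hr
      rw [hperm.mem_iff]
      simp only [List.mem_cons]
      exact Or.inr (Or.inr (Or.inr (Or.inr (by simpa using hr))))
    have hfc : ∀ r ∈ pl (A ++ B ++ C), r.crossing ≠ p.crossing := by
      intro r hr
      refine hfr r ?_
      simp only [List.mem_cons]
      exact Or.inr (Or.inr (by simpa using hr))
    have hfd : ∀ r ∈ pl (A ++ B ++ C), r.crossing ≠ q.crossing := by
      intro r hr
      refine hfr' r ?_
      simp only [List.mem_cons]
      exact Or.inr (Or.inr (by simpa using hr))
    have hev : ∀ (G : Type) [Group G] (o u : ℕ → G), o q.crossing = (o p.crossing)⁻¹ →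
        u q.crossing = (u p.crossing)⁻¹ →
        ev o u (A ++ two p q ++ B ++ two p.mate q.mate ++ C) 1 = ev o u (A ++ B ++ C) 1 := by
      intro G _ o u h1 h2
      rw [ev_insert o u (A ++ two p q ++ B) C _ _ (val_pair p.mate q.mate (by simp [ho]) h1 h2).1 1]
      have := ev_insert o u A (B ++ C) p q (val_pair p q ho h1 h2).1 1
      simpa [List.append_assoc] using this
    have hsg : ∀ r ∈ pl (A ++ two p q ++ B ++ two p.mate q.mate ++ C),
        ∀ s ∈ pl (A ++ two p q ++ B ++ two p.mate q.mate ++ C),
        r.crossing = p.crossing → s.crossing = q.crossing → s.isPos = !r.isPos := by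
      intro r hr s hs' h1 h2
      rw [hcons r hr p (by rw [hperm.mem_iff]; simp) h1,
        hcons s hs' q (by rw [hperm.mem_iff]; simp) h2, hs]
    exact ⟨inv_two_down h hE hsub hfc hfd hev hsg hcons
        ⟨p, by rw [hperm.mem_iff]; simp, rfl⟩ ⟨q, by rw [hperm.mem_iff]; simp, rfl⟩,
      inv_two_up h hE hsub hfc hfd hev hsg
        ⟨p, by rw [hperm.mem_iff]; simp, rfl⟩ ⟨q, by rw [hperm.mem_iff]; simp, rfl⟩⟩
  | twoOpp A B C p q h ho hs =>
    have hperm : (pl (A ++ two p q ++ B ++ two q.mate p.mate ++ C)).Perm
        (p :: p.mate :: (q :: q.mate :: (pl A ++ pl B ++ pl C))) := by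
      rw [List.perm_iff_count]
      intro a
      simp only [pl_append, pl_two, List.count_append, List.count_cons, List.count_nil]
      omega
    have hperm' : (pl (A ++ two p q ++ B ++ two q.mate p.mate ++ C)).Perm
        (q :: q.mate :: (p :: p.mate :: (pl A ++ pl B ++ pl C))) := by
      rw [List.perm_iff_count]
      intro a
      simp only [pl_append, pl_two, List.count_append, List.count_cons, List.count_nil]
      omega
    have hfr := nodup_keys ((hperm.map _).nodup_iff.1 hP)
    have hfr' := nodup_keys ((hperm'.map _).nodup_iff.1 hP)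
    have hE : ∀ r, r ∈ pl (A ++ two p q ++ B ++ two q.mate p.mate ++ C) →
        r.crossing = p.crossing ∨ r.crossing = q.crossing ∨ r ∈ pl (A ++ B ++ C) := by
      intro r hr
      rw [hperm.mem_iff] at hr
      simp only [List.mem_cons] at hr
      rcases hr with rfl | rfl | rfl | rfl | hr
      · exact Or.inl rfl
      · exact Or.inl rfl
      · exact Or.inr (Or.inl rfl)
      · exact Or.inr (Or.inl rfl)
      · exact Or.inr (Or.inr (by simpa using hr))
    have hsub : ∀ r ∈ pl (A ++ B ++ C), r ∈ pl (A ++ two p q ++ B ++ two q.mate p.mate ++ C) := by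
      intro r hr
      rw [hperm.mem_iff]
      simp only [List.mem_cons]
      exact Or.inr (Or.inr (Or.inr (Or.inr (by simpa using hr))))
    have hfc : ∀ r ∈ pl (A ++ B ++ C), r.crossing ≠ p.crossing := by
      intro r hr
      refine hfr r ?_
      simp only [List.mem_cons]
      exact Or.inr (Or.inr (by simpa using hr))
    have hfd : ∀ r ∈ pl (A ++ B ++ C), r.crossing ≠ q.crossing := by
      intro r hr
      refine hfr' r ?_
      simp only [List.mem_cons]
      exact Or.inr (Or.inr (by simpa using hr))
    have hev : ∀ (G : Type) [Group G] (o u : ℕ → G), o q.crossing = (o p.crossing)⁻¹ →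
        u q.crossing = (u p.crossing)⁻¹ →
        ev o u (A ++ two p q ++ B ++ two q.mate p.mate ++ C) 1 = ev o u (A ++ B ++ C) 1 := by
      intro G _ o u h1 h2
      rw [ev_insert o u (A ++ two p q ++ B) C _ _ (val_pair p.mate q.mate (by simp [ho]) h1 h2).2 1]
      have := ev_insert o u A (B ++ C) p q (val_pair p q ho h1 h2).1 1
      simpa [List.append_assoc] using this
    have hsg : ∀ r ∈ pl (A ++ two p q ++ B ++ two q.mate p.mate ++ C),
        ∀ s ∈ pl (A ++ two p q ++ B ++ two q.mate p.mate ++ C),
        r.crossing = p.crossing → s.crossing = q.crossing → s.isPos = !r.isPos := by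
      intro r hr s hs' h1 h2
      rw [hcons r hr p (by rw [hperm.mem_iff]; simp) h1,
        hcons s hs' q (by rw [hperm.mem_iff]; simp) h2, hs]
    exact ⟨inv_two_down h hE hsub hfc hfd hev hsg hcons
        ⟨p, by rw [hperm.mem_iff]; simp, rfl⟩ ⟨q, by rw [hperm.mem_iff]; simp, rfl⟩,
      inv_two_up h hE hsub hfc hfd hev hsg
        ⟨p, by rw [hperm.mem_iff]; simp, rfl⟩ ⟨q, by rw [hperm.mem_iff]; simp, rfl⟩⟩
  | three h => exact absurd h (by simp)

theorem inv_of {D D' : Code} (hP : ∀ r, r ∈ passes D' ↔ r ∈ passes D)
    (hC : ∀ (G : Type) [Group G] (o u : ℕ → G), (∀ b, CN (bv (vals o u D') b)) →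
      ∀ b, CN (bv (vals o u D) b)) (h : Inv D') : Inv D := by
  rw [inv_def] at h ⊢
  obtain ⟨m, hm, hn⟩ := h
  exact ⟨m, matching_congr hP hm, fun G _ o u hv =>
    hC G o u (hn G o u (valid_congr (fun r => (hP r).symm) hv))⟩

theorem mem_passes {D : Code} {r : Pass} : r ∈ passes D ↔ ∃ C ∈ D, r ∈ C.1 := by
  simp [passes, List.mem_flatMap]

theorem passes_relabel (D : Code) (f : ℕ → ℕ) :
    passes (D.map fun C => (C.1, f C.2)) = passes D := by
  induction D with
  | nil => rfl
  | cons C D ih => simp [ih]

theorem bv_relabel {G : Type} (L : List (G × ℕ)) (b b' : ℕ) (hb : b ≠ b') :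
    (bv (L.map fun C => (C.1, if C.2 = b' then b else C.2)) b).Perm (bv L b ++ bv L b') := by
  induction L with
  | nil => simp
  | cons x L ih =>
    rw [List.map_cons, bv_cons, bv_cons, bv_cons]
    by_cases h1 : x.2 = b'
    · simp only [h1, if_true, Ne.symm hb, if_false]
      exact (ih.cons _).trans List.perm_middle.symm
    · by_cases h2 : x.2 = b
      · simp only [h1, h2, if_true, if_false, hb]
        exact ih.cons _
      · simp only [h1, h2, if_false]
        exact ih

theorem bv_relabel_self {G : Type} (L : List (G × ℕ)) (b b' : ℕ) (hb : b ≠ b') :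
    bv (L.map fun C => (C.1, if C.2 = b' then b else C.2)) b' = [] := by
  induction L with
  | nil => simp
  | cons x L ih =>
    rw [List.map_cons, bv_cons, ih]
    by_cases h1 : x.2 = b'
    · rw [if_neg (by simp [h1, hb])]
    · rw [if_neg (by simp [h1])]

theorem bv_relabel_other {G : Type} (L : List (G × ℕ)) (b b' a : ℕ) (h1 : a ≠ b) (h2 : a ≠ b') :
    bv (L.map fun C => (C.1, if C.2 = b' then b else C.2)) a = bv L a := by
  induction L with
  | nil => simp
  | cons x L ih =>
    rw [List.map_cons, bv_cons, bv_cons, ih]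
    by_cases h3 : x.2 = b'
    · rw [if_neg (by simp [h3, Ne.symm h1]), if_neg (by rw [h3]; exact Ne.symm h2)]
    · simp [h3]

theorem mem_renamed {f : ℕ → ℕ} {D : Code} {r : Pass} : r ∈ passes (renamed f D) ↔
    ∃ p ∈ passes D, r = ⟨f p.crossing, p.isOver, p.isPos⟩ := by
  simp only [mem_passes, renamed, List.mem_map]
  constructor
  · rintro ⟨C, ⟨C', h1, rfl⟩, h2⟩
    obtain ⟨p, hp, rfl⟩ := List.mem_map.1 h2
    exact ⟨p, ⟨C', h1, hp⟩, rfl⟩
  · rintro ⟨p, ⟨C', h1, hp⟩, rfl⟩
    exact ⟨_, ⟨C', h1, rfl⟩, List.mem_map_of_mem hp⟩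

theorem inv_renamed {f : ℕ → ℕ} {D : Code} (hf : ∀ p ∈ passes D, ∀ q ∈ passes D,
    f p.crossing = f q.crossing → p.crossing = q.crossing) (h : Inv (renamed f D)) : Inv D := by
  classical
  obtain ⟨g, hg⟩ : ∃ g : ℕ → ℕ, ∀ p ∈ passes D, g (f p.crossing) = p.crossing := by
    refine ⟨fun y => if h : ∃ p ∈ passes D, f p.crossing = y then h.choose.crossing else 0,
      fun p hp => ?_⟩
    have h1 : ∃ p' ∈ passes D, f p'.crossing = f p.crossing := ⟨p, hp, rfl⟩
    simp only
    rw [dif_pos h1]
    exact hf _ h1.choose_spec.1 p hp h1.choose_spec.2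
  rw [inv_def] at h ⊢
  obtain ⟨m, hm, hn⟩ := h
  have key : ∀ p ∈ passes D, ∃ q ∈ passes D, f q.crossing = m (f p.crossing) ∧
      m (f q.crossing) = f p.crossing ∧ (f q.crossing ≠ f p.crossing → q.isPos = !p.isPos) := by
    intro p hp
    obtain ⟨q', hq', h1, h2, h3⟩ := hm ⟨f p.crossing, p.isOver, p.isPos⟩
      (mem_renamed.2 ⟨p, hp, rfl⟩)
    obtain ⟨q, hq, rfl⟩ := mem_renamed.1 hq'
    exact ⟨q, hq, h1, h2, h3⟩
  refine ⟨fun c => g (m (f c)), fun p hp => ?_, fun G _ o u hv b => ?_⟩
  · obtain ⟨q, hq, h1, h2, h3⟩ := key p hp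
    refine ⟨q, hq, ?_, ?_, fun h => h3 fun h' => h (hf q hq p hp h')⟩
    · simp only; rw [← h1, hg q hq]
    · simp only; rw [h2, hg p hp]
  · have e : vals (fun c => o (g c)) (fun c => u (g c)) (renamed f D) = vals o u D := by
      unfold vals renamed
      rw [List.map_map]
      refine List.map_congr_left fun C hC => ?_
      simp only [Function.comp, Prod.mk.injEq, and_true]
      have hw : ∀ r ∈ C.1, r ∈ passes D := fun r hr => mem_passes.2 ⟨C, hC, hr⟩
      revert hw
      generalize C.1 = w
      intro hw
      induction w with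
      | nil => rfl
      | cons r w ih =>
        rw [List.map_cons, wval_cons, wval_cons, ih fun r' hr' => hw r' (by simp [hr'])]
        simp only [val, hg r (hw r (by simp))]
    rw [← e]
    refine hn G _ _ (fun r hr => ?_) b
    obtain ⟨p, hp, rfl⟩ := mem_renamed.1 hr
    obtain ⟨q, hq, h1, h2, h3⟩ := key p hp
    obtain ⟨k1, k2⟩ := hv p hp
    simp only at k1 k2 ⊢
    rw [← h1, hg q hq, hg p hp]
    rw [← h1, hg q hq] at k1 k2
    refine ⟨fun h => k1 (hf q hq p hp h), fun h => k2 fun h' => h (by rw [h'])⟩

theorem step_inv {births : Bool} {D D' : Code} (hD : WellFormed D) (hD' : WellFormed D')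
    (h : Step false births D D') (hi : Inv D') : Inv D := by
  cases h with
  | perm _ _ h =>
    refine inv_of (fun r => ?_) (fun G _ o u hn b => ?_) hi
    · exact (h.flatMap_right Prod.fst).mem_iff.symm
    · exact (hn b).perm (bv_perm ((h.map _).symm) b)
  | rename f _ hf => exact inv_renamed hf hi
  | rotate x y b R =>
    refine inv_of (fun r => ?_) (fun G _ o u hn a => ?_) hi
    · simp only [passes_cons, List.mem_append]; tauto
    · have := hn a
      simp only [vals, List.map_cons, bv_cons] at this ⊢
      split_ifs at this ⊢ with h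
      · have e := this.conj_head (wval o u x)
        simpa [mul_assoc] using e
      · exact this
  | reid _ _ h => exact (reid_inv hD h).2 hi
  | reidInv _ _ h => exact (reid_inv hD' h).1 hi
  | death b R hb =>
    refine inv_of (fun r => ?_) (fun G _ o u hn a => ?_) hi
    · simp
    · have := hn a
      simp only [vals, List.map_cons, bv_cons, wval_nil] at this ⊢
      split_ifs
      · exact CN.one_cons.2 this
      · exact this
  | birth h b R hb =>
    refine inv_of (fun r => ?_) (fun G _ o u hn a => ?_) hi
    · simp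
    · have := hn a
      simp only [vals, List.map_cons, bv_cons, wval_nil] at this ⊢
      split_ifs at this
      · exact CN.one_cons.1 this
      · exact this
  | split x y b b' R hb =>
    refine inv_of (fun r => ?_) (fun G _ o u hn a => ?_) hi
    · simp only [passes_cons, passes_relabel R fun t => if t = b' then b else t]
      simp
    · have e : vals o u (R.map fun C => (C.1, if C.2 = b' then b else C.2)) =
          (vals o u R).map fun C => (C.1, if C.2 = b' then b else C.2) := by
        simp [vals]
      simp only [vals, List.map_cons] at hn ⊢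
      rw [← vals, e, bv_cons]
      by_cases h1 : a = b
      · subst h1
        have h1 := hn a
        have h2 := hn b'
        rw [bv_cons, bv_cons] at h1 h2
        simp only [if_true, hb, Ne.symm hb, if_false] at h1 h2 ⊢
        refine (CN.join h1 h2).perm ?_
        rw [wval_append]
        exact (bv_relabel (vals o u R) a b' hb).symm.cons _
      · by_cases h2 : a = b'
        · subst h2
          rw [bv_relabel_self _ _ _ hb, if_neg (Ne.symm h1)]
          exact PC.nil
        · rw [bv_relabel_other _ _ _ _ h1 h2, if_neg (Ne.symm h1)]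
          have := hn a
          rw [bv_cons, bv_cons] at this
          simpa [Ne.symm h1, Ne.symm h2, vals] using this
  | merge x y b R =>
    refine inv_of (fun r => ?_) (fun G _ o u hn a => ?_) hi
    · simp
    · have := hn a
      simp only [vals, List.map_cons, bv_cons, wval_append] at this ⊢
      split_ifs at this ⊢ with h
      · exact this.cut
      · exact this

theorem inv_nil : Inv [] := by
  rw [inv_def]
  refine ⟨id, fun p hp => absurd hp (by simp), fun G _ o u _ b => ?_⟩
  exact PC.nil

theorem inv_of_movie {births : Bool} {D D' : Code} (h : Movie false births D D') (hi : Inv D') :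
    Inv D := by
  induction h using Relation.ReflTransGen.head_induction_on with
  | refl => exact hi
  | head h _ ih => exact step_inv h.1.1 h.2.1.1 h.2.2 ih

end Pool.Agent.Y468.SR
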