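import Pool.Agent.Y468.SR.Saddle
import Pool.Agent.Y468.SR.StepInv

/-! A diagram with a matching of the crossings satisfying the planarity condition bounds ribbon
discs. -/

namespace Pool.Agent.Y468.SR

set_option linter.unusedSimpArgs false

/-- the planarity condition when the components bound different pieces -/
def Null (D : Code) (m : ℕ → ℕ) : Prop :=
  ∀ (G : Type) [Group G] (o u : ℕ → G), Valid (passes D) m o u → ∀ C ∈ D, wval o u C.1 = 1

theorem bv_vals_nil {G : Type} [Group G] {o u : ℕ → G} {D : Code} {b : ℕ}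
    (h : ∀ C ∈ D, C.2 ≠ b) : bv (vals o u D) b = [] := by
  induction D with
  | nil => rfl
  | cons C D ih =>
    simp only [vals, List.map_cons, bv_cons]
    rw [if_neg (h C (by simp))]
    exact ih fun C' h' => h C' (by simp [h'])

theorem bv_vals_singleton {G : Type} [Group G] {o u : ℕ → G} {D : Code}
    (hn : (D.map Prod.snd).Nodup) {C : List Pass × ℕ} (hC : C ∈ D) :
    bv (vals o u D) C.2 = [wval o u C.1] := by
  induction D with
  | nil => simp at hC
  | cons C' D ih =>
    rw [List.map_cons, List.nodup_cons] at hn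
    simp only [vals, List.map_cons, bv_cons]
    rcases List.mem_cons.1 hC with rfl | hC
    · rw [if_pos rfl]
      congr 1
      exact bv_vals_nil fun C' h' h => hn.1 (by rw [← h]; exact List.mem_map_of_mem h')
    · rw [if_neg (fun h : C'.2 = C.2 => hn.1 (by rw [h]; exact List.mem_map_of_mem hC))]
      exact ih hn.2 hC

theorem null_of_inv {D : Code} (hn : (D.map Prod.snd).Nodup) (h : Inv D) :
    ∃ m, Matching (passes D) m ∧ Null D m := by
  obtain ⟨m, hm, h⟩ := (inv_def D).1 h
  refine ⟨m, hm, fun G _ o u hv C hC => ?_⟩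
  have := h G o u hv C.2
  rw [bv_vals_singleton hn hC] at this
  exact CN.singleton.1 this

theorem cn_of_one {G : Type} [Group G] {L : List G} (h : ∀ x ∈ L, x = 1) : CN L := by
  induction L with
  | nil => exact PC.nil
  | cons x L ih =>
    rw [h x (by simp)]
    exact CN.one_cons.2 (ih fun y hy => h y (by simp [hy]))

theorem inv_of_null {D : Code} {m : ℕ → ℕ} (hm : Matching (passes D) m) (hN : Null D m) :
    Inv D := by
  rw [inv_def]
  refine ⟨m, hm, fun G _ o u hv b => cn_of_one fun x hx => ?_⟩
  simp only [bv, vals, List.mem_map, List.mem_filter] at hx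
  obtain ⟨y, ⟨⟨C, hC, rfl⟩, -⟩, rfl⟩ := hx
  exact hN G o u hv C hC

theorem Movie.head {r3 births : Bool} {D D' D'' : Code} (h1 : Classical D) (h2 : Classical D')
    (h : Step r3 births D D') (h' : Movie r3 births D' D'') : Movie r3 births D D'' :=
  Relation.ReflTransGen.head ⟨h1, h2, h⟩ h'

theorem Movie.trans {r3 births : Bool} {D D' D'' : Code} (h : Movie r3 births D D')
    (h' : Movie r3 births D' D'') : Movie r3 births D D'' :=
  Relation.ReflTransGen.trans h h'

theorem planar_empty {D : Code} (h : passes D = []) : Planar D := by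
  intro back front _ _
  refine ⟨fun _ => 0, fun C hC => ?_, fun p hp => absurd hp (by simp [h])⟩
  have : C.1 = [] := by
    rw [List.eq_nil_iff_forall_not_mem]
    intro p hp
    have : p ∈ passes D := mem_passes.2 ⟨C, hC, hp⟩
    simp [h] at this
  rw [this]
  exact ⟨(0, 0), rfl⟩

theorem classical_empty {D : Code} (h : passes D = []) : Classical D :=
  ⟨by simp [WellFormed, h], planar_empty h⟩

theorem deaths {D : Code} (hn : (D.map Prod.snd).Nodup) (h : passes D = []) :
    Movie false false D [] := by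
  induction D with
  | nil => exact Relation.ReflTransGen.refl
  | cons C D ih =>
    rw [passes_cons, List.append_eq_nil_iff] at h
    rw [List.map_cons, List.nodup_cons] at hn
    obtain ⟨w, b⟩ := C
    obtain ⟨rfl, h⟩ := h
    refine Movie.head (classical_empty (by simp [h])) (classical_empty h)
      (Step.death b D fun C hC e => hn.1 ?_) (ih hn.2 h)
    simp only at e ⊢
    rw [← e]; exact List.mem_map_of_mem (f := Prod.snd) hC

/-- letters of the free group -/
def letter (m : ℕ → ℕ) (p : Pass) : (ℕ × Bool) × Bool :=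
  if m p.crossing = p.crossing then ((p.crossing, true), p.isOver)
  else if p.crossing < m p.crossing then ((p.crossing, p.isOver), true)
  else ((m p.crossing, p.isOver), false)

/-- labels of the overpassages in the free group -/
def fo (m : ℕ → ℕ) (c : ℕ) : FreeGroup (ℕ × Bool) := FreeGroup.mk [letter m ⟨c, true, true⟩]

/-- labels of the underpassages in the free group -/
def fu (m : ℕ → ℕ) (c : ℕ) : FreeGroup (ℕ × Bool) := FreeGroup.mk [letter m ⟨c, false, true⟩]

theorem val_letter (m : ℕ → ℕ) (p : Pass) : val (fo m) (fu m) p = FreeGroup.mk [letter m p] := by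
  obtain ⟨c, τ, s⟩ := p
  cases τ <;> simp [val, fo, fu, letter]

theorem wval_letter (m : ℕ → ℕ) (w : List Pass) :
    wval (fo m) (fu m) w = FreeGroup.mk (w.map (letter m)) := by
  induction w with
  | nil => rfl
  | cons p w ih => rw [wval_cons, ih, val_letter, List.map_cons, FreeGroup.mul_mk]; rfl

theorem matching_invol {P : List Pass} {m : ℕ → ℕ} (hm : Matching P m) {p : Pass} (hp : p ∈ P) :
    m (m p.crossing) = p.crossing := by
  obtain ⟨q, -, h1, h2, -⟩ := hm p hp
  rw [← h1, h2]

theorem valid_letter {P : List Pass} {m : ℕ → ℕ} (hm : Matching P m) : Valid P m (fo m) (fu m) := by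
  intro p hp
  have h := matching_invol hm hp
  refine ⟨fun h1 => ?_, fun h1 => ?_⟩
  · simp [fo, fu, letter, h1, FreeGroup.invRev]
  · have h2 : m (m p.crossing) ≠ m p.crossing := by rw [h]; exact Ne.symm h1
    rcases lt_or_gt_of_ne h1 with h3 | h3
    · have h4 : ¬ p.crossing < m p.crossing := by omega
      simp [fo, fu, letter, h1, h, h4, h3, FreeGroup.invRev, Ne.symm h1]
    · have h4 : ¬ m p.crossing < p.crossing := by omega
      simp [fo, fu, letter, h1, h, h4, h3, FreeGroup.invRev, Ne.symm h1]

theorem red_factor {α : Type} {L : List (α × Bool)} (h : FreeGroup.mk L = 1) (hL : L ≠ []) :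
    ∃ L₁ L₂ x, L = L₁ ++ x :: (x.1, !x.2) :: L₂ := by
  have h1 : FreeGroup.mk L = FreeGroup.mk [] := h
  obtain ⟨c, h2, h3⟩ := FreeGroup.Red.exact.1 h1
  rw [FreeGroup.Red.nil_iff] at h3
  subst h3
  rcases Relation.ReflTransGen.cases_head h2 with h4 | ⟨L', h4, -⟩
  · exact absurd h4 hL
  · cases h4 with
    | @not L₁ L₂ x b => exact ⟨L₁, L₂, (x, b), rfl⟩

theorem exists_factor {P : List Pass} {m : ℕ → ℕ} (hm : Matching P m) {w : List Pass} (hw : w ≠ [])
    (hP : ∀ r ∈ w, r ∈ P) (h : wval (fo m) (fu m) w = 1) :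
    ∃ a c p q, w = a ++ p :: q :: c ∧
      ((m p.crossing = p.crossing ∧ q.crossing = p.crossing ∧ q.isOver = !p.isOver) ∨
        (m p.crossing ≠ p.crossing ∧ q.crossing = m p.crossing ∧ q.isOver = p.isOver)) := by
  rw [wval_letter] at h
  obtain ⟨L₁, L₂, x, h1⟩ := red_factor h (by simpa using hw)
  obtain ⟨a, w', rfl, rfl, h2⟩ := List.map_eq_append_iff.1 h1
  obtain ⟨p, w'', rfl, rfl, h3⟩ := List.map_eq_cons_iff.1 h2
  obtain ⟨q, c, rfl, h4, rfl⟩ := List.map_eq_cons_iff.1 h3
  refine ⟨a, c, p, q, rfl, ?_⟩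
  have hp := matching_invol hm (hP p (by simp))
  have hq := matching_invol hm (hP q (by simp))
  unfold letter at h4
  by_cases p1 : m p.crossing = p.crossing
  · left
    by_cases q1 : m q.crossing = q.crossing
    · simp only [p1, q1, if_true, Prod.mk.injEq, and_true] at h4
      exact ⟨p1, h4.1, h4.2⟩
    · exfalso
      by_cases q2 : q.crossing < m q.crossing
      · simp only [p1, q1, q2, if_true, if_false, Prod.mk.injEq] at h4
        apply q1; rw [h4.1.1]; exact p1
      · simp only [p1, q1, q2, if_true, if_false, Prod.mk.injEq] at h4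
        apply q1
        have : m (m q.crossing) = m p.crossing := by rw [h4.1.1]
        rw [hq, p1] at this
        rw [h4.1.1, this]
  · right
    by_cases p2 : p.crossing < m p.crossing
    · by_cases q1 : m q.crossing = q.crossing
      · exfalso
        simp only [p1, p2, q1, if_true, if_false, Prod.mk.injEq] at h4
        apply p1; rw [← h4.1.1]; exact q1
      · by_cases q2 : q.crossing < m q.crossing
        · simp [p1, p2, q1, q2] at h4
        · simp only [p1, p2, q1, q2, if_true, if_false, Prod.mk.injEq] at h4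
          refine ⟨p1, ?_, h4.1.2⟩
          rw [← h4.1.1, hq]
    · by_cases q1 : m q.crossing = q.crossing
      · exfalso
        simp only [p1, p2, q1, if_true, if_false, Prod.mk.injEq] at h4
        apply p1
        rw [← h4.1.1, ← q1, h4.1.1, hp]
      · by_cases q2 : q.crossing < m q.crossing
        · simp only [p1, p2, q1, q2, if_true, if_false, Prod.mk.injEq] at h4
          exact ⟨p1, h4.1.1, h4.1.2⟩
        · simp [p1, p2, q1, q2] at h4

/-- removal of a factor from one of the components -/
theorem exists_remove {D : Code} {C : List Pass × ℕ} (hC : C ∈ D) {a c : List Pass} {p q : Pass}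
    (h : C.1 = a ++ p :: q :: c) : ∃ (D' : Code) (A B : List (Pass ⊕ ℕ)),
      enc D = A ++ two p q ++ B ∧ enc D' = A ++ B ∧ D'.map Prod.snd = D.map Prod.snd := by
  obtain ⟨D₁, D₂, rfl⟩ := List.append_of_mem hC
  obtain ⟨w, b⟩ := C
  simp only at h
  subst h
  exact ⟨D₁ ++ (a ++ c, b) :: D₂, enc D₁ ++ a.map Sum.inl, c.map Sum.inl ++ Sum.inr b :: enc D₂,
    by simp [two], by simp, by simp⟩

/-- The result of one step of the reduction. -/
def Red (D : Code) : Prop :=
  ∃ D', (passes D').length < (passes D).length ∧ Classical D' ∧ (D'.map Prod.snd).Nodup ∧ Inv D' ∧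
    Movie false false D D'

theorem caseA {D : Code} (hD : Classical D) (hn : (D.map Prod.snd).Nodup) (hI : Inv D)
    {C : List Pass × ℕ} (hC : C ∈ D) {a c : List Pass} {p q : Pass} (h : C.1 = a ++ p :: q :: c)
    (h1 : q.crossing = p.crossing) (h2 : q.isOver = !p.isOver) : Red D := by
  have hp : p ∈ passes D := mem_passes.2 ⟨C, hC, by simp [h]⟩
  have hq : q ∈ passes D := mem_passes.2 ⟨C, hC, by simp [h]⟩
  have hqp : q = p.mate := by
    rcases hD.1.eq_mate hp hq h1 with rfl | rfl
    · simp at h2
    · rfl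
  subst hqp
  obtain ⟨D', A, B, e1, e2, e3⟩ := exists_remove hC h
  have hperm : (passes D).Perm ([p, p.mate] ++ passes D') := by
    rw [← pl_enc, ← pl_enc, e1, e2]
    simp only [pl_append, pl_two, List.append_assoc]
    rw [← List.append_assoc, ← List.append_assoc]
    exact List.Perm.append_right _ List.perm_append_comm
  have hW : WF ([p, p.mate] ++ passes D') := WF.perm hperm hD.1
  have hW' : WF (passes D') := hW.remove (by simp)
  have hD' : Classical D' := by
    refine ⟨hW', planar_iff.2 ?_⟩
    rw [e2]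
    refine planarE_one (p := p) (fun r hr => ?_) ?_
    · rw [← e2, pl_enc] at hr
      exact hW.ne_crossing (by simp) (by simp) hr
    · rw [← e1]; exact planar_iff.1 hD.2
  have hR : Reid false (enc D) (enc D') := by
    rw [e1, e2]; exact Reid.one A B p
  refine ⟨D', ?_, hD', by rw [e3]; exact hn, step_inv (births := false) hD'.1 hD.1
    (Step.reidInv D' D hR) hI, Movie.head hD hD' (Step.reid D D' hR) Relation.ReflTransGen.refl⟩
  rw [hperm.length_eq]; simp

theorem not_mem_of {P : List Pass} {r : Pass} {w : List Pass} (hw : ∀ x ∈ w, x ∈ P) (hr : r ∉ P) :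
    r ∉ w := fun h => hr (hw r h)

/-- in a diagram each factor occurs only once -/
theorem adj_all {D : Code} (hn : (passes D).Nodup) {C : List Pass × ℕ} (hC : C ∈ D)
    {a c : List Pass} {p q : Pass} (h : C.1 = a ++ p :: q :: c) : ∀ C' ∈ D, Adj p q C'.1 := by
  obtain ⟨D₁, D₂, rfl⟩ := List.append_of_mem hC
  obtain ⟨w, b⟩ := C
  simp only at h
  subst h
  intro C' hC'
  have hn' : (passes D₁ ++ ((a ++ p :: q :: c) ++ passes D₂)).Nodup := by
    simpa [passes] using hn
  rw [List.nodup_append, List.nodup_append] at hn'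
  obtain ⟨n1, ⟨n2, n3, n4⟩, n5⟩ := hn'
  rcases List.mem_append.1 hC' with h1 | h1
  · refine Or.inl ⟨fun h2 => n5 p (mem_passes.2 ⟨C', h1, h2⟩) p (by simp) rfl,
      fun h2 => n5 q (mem_passes.2 ⟨C', h1, h2⟩) q (by simp) rfl⟩
  · rcases List.mem_cons.1 h1 with rfl | h1
    · right
      refine ⟨a, c, rfl, ?_⟩
      rw [List.nodup_append] at n2
      obtain ⟨m1, m2, m3⟩ := n2
      rw [List.nodup_cons, List.nodup_cons] at m2
      refine ⟨fun h => m3 p h p (by simp) rfl, fun h => m3 q h q (by simp) rfl,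
        fun h => m2.1 (by simp [h]), m2.2.1⟩
    · refine Or.inl ⟨fun h2 => n4 p (by simp) p (mem_passes.2 ⟨C', h1, h2⟩) rfl,
        fun h2 => n4 q (by simp) q (mem_passes.2 ⟨C', h1, h2⟩) rfl⟩

section twist
variable {G : Type} [Group G]

/-- changing the labels of the passages of one type at the crossings `c`, `d` -/
def tw (c d : ℕ) (t : G) (e : Bool) (o : ℕ → G) (x : ℕ) : G :=
  if e = true then (if x = c then t else if x = d then t⁻¹ else o x) else o x

theorem valid_tw {P : List Pass} {m : ℕ → ℕ} {o u : ℕ → G} (hv : Valid P m o u) (hm : Matching P m)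
    {c d : ℕ} (hc : m c = d) (hd : m d = c) (hcd : c ≠ d) (t : G) (τ : Bool) :
    Valid P m (tw c d t τ o) (tw c d t (!τ) u) := by
  intro p hp
  have h := matching_invol hm hp
  obtain ⟨h1, h2⟩ := hv p hp
  have key : ∀ (e : Bool) (o : ℕ → G), m p.crossing ≠ p.crossing → o (m p.crossing) = (o p.crossing)⁻¹ →
      tw c d t e o (m p.crossing) = (tw c d t e o p.crossing)⁻¹ := by
    intro e o h3 h4
    unfold tw
    by_cases he : e = true
    · rw [if_pos he, if_pos he]
      by_cases h5 : p.crossing = c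
      · rw [h5, hc, if_neg hcd.symm, if_pos rfl, if_pos rfl]
      · by_cases h6 : p.crossing = d
        · rw [h6, hd, if_pos rfl, if_neg hcd.symm, if_pos rfl, inv_inv]
        · have h7 : m p.crossing ≠ c := fun h7 => h6 (by rw [← h, h7, hc])
          have h8 : m p.crossing ≠ d := fun h8 => h5 (by rw [← h, h8, hd])
          rw [if_neg h5, if_neg h6, if_neg h7, if_neg h8, h4]
    · rw [if_neg he, if_neg he, h4]
  refine ⟨fun h3 => ?_, fun h3 => ⟨key _ _ h3 (h2 h3).1, key _ _ h3 (h2 h3).2⟩⟩
  have h4 : p.crossing ≠ c := fun h4 => hcd (by rw [← h4, ← h3, h4, hc])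
  have h5 : p.crossing ≠ d := fun h5 => hcd (by rw [← h5, ← h3, h5, hd])
  simp only [tw, h4, h5, if_false, ite_self]
  exact h1 h3

theorem val_tw (o u : ℕ → G) (c d : ℕ) (t : G) (τ : Bool) (r : Pass) :
    val (tw c d t τ o) (tw c d t (!τ) u) r = if r.isOver = τ then
      (if r.crossing = c then t else if r.crossing = d then t⁻¹ else val o u r) else val o u r := by
  obtain ⟨x, ρ, s⟩ := r
  cases ρ <;> cases τ <;> simp [val, tw]

theorem wval_congr {o u o' u' : ℕ → G} {w : List Pass} (h : ∀ r ∈ w, val o u r = val o' u' r) :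
    wval o u w = wval o' u' w := by
  induction w with
  | nil => rfl
  | cons r w ih =>
    rw [wval_cons, wval_cons, h r (by simp), ih fun r' hr' => h r' (by simp [hr'])]

theorem wval_map {H : Type} [Group H] (f : G →* H) (o u : ℕ → G) (w : List Pass) :
    wval (fun c => f (o c)) (fun c => f (u c)) w = f (wval o u w) := by
  induction w with
  | nil => simp
  | cons r w ih =>
    rw [wval_cons, wval_cons, map_mul, ih]
    congr 1
    unfold val; split_ifs <;> rfl

theorem valid_map {H : Type} [Group H] (f : G →* H) {P : List Pass} {m : ℕ → ℕ} {o u : ℕ → G}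
    (h : Valid P m o u) : Valid P m (fun c => f (o c)) (fun c => f (u c)) := by
  intro p hp
  obtain ⟨h1, h2⟩ := h p hp
  exact ⟨fun h3 => by simp [h1 h3], fun h3 => ⟨by simp [(h2 h3).1], by simp [(h2 h3).2]⟩⟩

/-- the action on the left summand -/
def lft (G : Type) [Group G] : G →* Equiv.Perm (G ⊕ G) :=
  (Equiv.Perm.sumCongrHom G G).comp ((MonoidHom.inl _ _).comp (MulAction.toPermHom G G))

theorem lft_inl (g x : G) : lft G g (Sum.inl x) = Sum.inl (g * x) := rfl
theorem lft_inr (g x : G) : lft G g (Sum.inr x) = Sum.inr x := rfl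

theorem eq_one_of_twist {Y Z : G}
    (h : (Equiv.sumComm G G : Equiv.Perm (G ⊕ G)) * lft G Y * (Equiv.sumComm G G : Equiv.Perm (G ⊕ G))⁻¹
      * lft G Z = 1) : Y = 1 ∧ Z = 1 := by
  have h1 := congrArg (fun f : Equiv.Perm (G ⊕ G) => f (Sum.inl 1)) h
  have h2 := congrArg (fun f : Equiv.Perm (G ⊕ G) => f (Sum.inr 1)) h
  simp only [Equiv.Perm.mul_apply, lft_inl, lft_inr, Equiv.Perm.one_apply, Equiv.Perm.inv_def] at h1 h2
  have e1 : (Equiv.sumComm G G).symm (Sum.inl (Z * 1)) = Sum.inr (Z * 1) := rfl
  have e2 : (Equiv.sumComm G G).symm (Sum.inr (1 : G)) = Sum.inl 1 := rfl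
  rw [e1, lft_inr] at h1
  rw [e2, lft_inl] at h2
  have e3 : Equiv.sumComm G G (Sum.inr (Z * 1)) = Sum.inl (Z * 1) := rfl
  have e4 : Equiv.sumComm G G (Sum.inl (Y * 1)) = Sum.inr (Y * 1) := rfl
  rw [e3] at h1
  rw [e4] at h2
  simp only [mul_one, Sum.inl.injEq, Sum.inr.injEq] at h1 h2
  exact ⟨h2, h1⟩

end twist

end Pool.Agent.Y468.SR
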