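import Mathlib

/-! Products of conjugates of the members of a list of group elements. -/

namespace Pool.Agent.Y468.SR

variable {G : Type} [Group G]

/-- `r` is a product, in the given order, of conjugates of the members of the list. -/
inductive PC : List G → G → Prop
  | nil : PC [] 1
  | cons (x g r : G) (l : List G) (h : PC l r) : PC (x :: l) (g * x * g⁻¹ * r)

theorem PC.of_eq {l : List G} {r r' : G} (h : PC l r) (e : r = r') : PC l r' := e ▸ h

theorem PC.conj {l : List G} {r : G} (h : PC l r) (k : G) : PC l (k * r * k⁻¹) := by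
  induction h with
  | nil => exact PC.nil.of_eq (by group)
  | cons x g r l _ ih => exact (PC.cons x (k * g) _ l ih).of_eq (by group)

theorem PC.swap {x y : G} {l : List G} {r : G} (h : PC (x :: y :: l) r) : PC (y :: x :: l) r := by
  cases h with
  | cons _ g r _ h =>
    cases h with
    | cons _ k s _ h =>
      exact (PC.cons y k _ _ (PC.cons x (k * y⁻¹ * k⁻¹ * g) s l h)).of_eq (by group)

theorem PC.perm {l l' : List G} (hp : l.Perm l') {r : G} (h : PC l r) : PC l' r := by
  induction hp generalizing r with
  | nil => exact h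
  | cons x _ ih =>
    cases h with
    | cons _ g r _ h => exact PC.cons _ _ _ _ (ih h)
  | swap x y l => exact h.swap
  | trans _ _ ih₁ ih₂ => exact ih₂ (ih₁ h)

theorem PC.append {l l' : List G} {r r' : G} (h : PC l r) (h' : PC l' r') :
    PC (l ++ l') (r * r') := by
  induction h with
  | nil => simpa using h'
  | cons x g r l _ ih => exact (PC.cons x g _ _ ih).of_eq (by group)

/-- The members of the list have conjugates whose product is trivial. -/
def CN (l : List G) : Prop := PC l 1

theorem CN.perm {l l' : List G} (hp : l.Perm l') (h : CN l) : CN l' := PC.perm hp h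

theorem CN.head {x : G} {l : List G} (h : CN (x :: l)) : ∃ r, PC l r ∧ x * r = 1 := by
  unfold CN at h
  generalize e : (1 : G) = t at h
  cases h with
  | cons _ g r _ h =>
    refine ⟨g⁻¹ * r * g⁻¹⁻¹, h.conj g⁻¹, ?_⟩
    have : x * (g⁻¹ * r * g⁻¹⁻¹) = g⁻¹ * (g * x * g⁻¹ * r) * g := by group
    rw [this, ← e]; group

theorem CN.of_head {x : G} {l : List G} {r : G} (h : PC l r) (e : x * r = 1) : CN (x :: l) :=
  (PC.cons x 1 r l h).of_eq (by simpa using e)

theorem CN.conj_head {x : G} {l : List G} (h : CN (x :: l)) (k : G) : CN (k * x * k⁻¹ :: l) := by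
  obtain ⟨r, h, e⟩ := h.head
  refine CN.of_head (h.conj k) ?_
  have : k * x * k⁻¹ * (k * r * k⁻¹) = k * (x * r) * k⁻¹ := by group
  rw [this, e]; group

theorem CN.one_cons {l : List G} : CN (1 :: l) ↔ CN l := by
  constructor
  · intro h
    obtain ⟨r, h, e⟩ := h.head
    exact h.of_eq (by simpa using e)
  · intro h
    exact CN.of_head h (by simp)

theorem CN.singleton {x : G} : CN [x] ↔ x = 1 := by
  constructor
  · intro h
    obtain ⟨r, h, e⟩ := h.head
    cases h
    simpa using e
  · rintro rfl
    exact CN.one_cons.2 PC.nil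

/-- cutting along a saddle joining two pieces -/
theorem CN.join {x y : G} {l l' : List G} (h : CN (x :: l)) (h' : CN (y :: l')) :
    CN (x * y :: (l ++ l')) := by
  obtain ⟨r, h, e⟩ := h.head
  obtain ⟨r', h', e'⟩ := h'.head
  refine CN.perm (List.Perm.cons _ List.perm_append_comm) (CN.of_head (h'.append h) ?_)
  have : x * y * (r' * r) = x * (y * r') * r := by group
  rw [this, e', mul_one, e]

/-- cutting along a saddle between two components bounding one piece -/
theorem CN.cut {x y : G} {l : List G} (h : CN (x * y :: l)) : CN (x :: y :: l) := by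
  obtain ⟨r, h, e⟩ := h.head
  exact CN.of_head (r := y * r) ((PC.cons y 1 r l h).of_eq (by simp)) (by rw [← mul_assoc]; exact e)

end Pool.Agent.Y468.SR
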