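import Pool.Agent.Y468.SR.Rev

/-! The planarity condition for concordances: the diagram at the end of the movie is added, reflected,
to all diagrams of the movie, the names of the crossings being made different. -/

namespace Pool.Agent.Y468.SR

set_option linter.unusedSimpArgs false

/-- renaming a passage -/
def ren (f : ℕ → ℕ) (p : Pass) : Pass := ⟨f p.crossing, p.isOver, p.isPos⟩

/-- the mirror image with reversed orientation -/
def bar (w : List Pass) : List Pass :=
  (w.map fun p => (⟨p.crossing, p.isOver, !p.isPos⟩ : Pass)).reverse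

theorem renamed_def (f : ℕ → ℕ) (D : Code) : renamed f D = D.map fun C => (C.1.map (ren f), C.2) := rfl

theorem passes_renamed (f : ℕ → ℕ) (D : Code) : passes (renamed f D) = (passes D).map (ren f) := by
  induction D with
  | nil => rfl
  | cons C D ih =>
    have : renamed f (C :: D) = (C.1.map (ren f), C.2) :: renamed f D := rfl
    rw [this, passes_cons, ih]; simp

@[simp] theorem passes_append (D D' : Code) : passes (D ++ D') = passes D ++ passes D' := by
  simp [passes]

theorem ren_mate (f : ℕ → ℕ) (p : Pass) : (ren f p).mate = ren f p.mate := rfl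

theorem WF.ren {f : ℕ → ℕ} {l : List Pass} (h : WF l)
    (hf : ∀ p ∈ l, ∀ q ∈ l, f p.crossing = f q.crossing → p.crossing = q.crossing) :
    WF (l.map (ren f)) := by
  refine ⟨fun p hp => ?_, ?_⟩
  · obtain ⟨q, hq, rfl⟩ := List.mem_map.1 hp
    rw [ren_mate]
    exact List.mem_map_of_mem (h.1 q hq)
  · rw [List.map_map]
    have h1 := h.2
    rw [List.Nodup, List.pairwise_map] at h1 ⊢
    refine List.Pairwise.imp_of_mem (fun {p q} hp hq hpq h2 => hpq ?_) h1
    simp only [Function.comp, SR.ren, Prod.mk.injEq] at h2 ⊢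
    exact ⟨hf p hp q hq h2.1, h2.2⟩

theorem WF.append {k l : List Pass} (hk : WF k) (hl : WF l)
    (h : ∀ p ∈ k, ∀ q ∈ l, p.crossing ≠ q.crossing) : WF (k ++ l) := by
  refine ⟨fun p hp => ?_, ?_⟩
  · rcases List.mem_append.1 hp with hp | hp
    · exact List.mem_append_left _ (hk.1 p hp)
    · exact List.mem_append_right _ (hl.1 p hp)
  · rw [List.map_append, List.nodup_append]
    refine ⟨hk.2, hl.2, fun x hx y hy hxy => ?_⟩
    obtain ⟨p, hp, rfl⟩ := List.mem_map.1 hx
    obtain ⟨q, hq, rfl⟩ := List.mem_map.1 hy
    exact h p hp q hq (congrArg Prod.fst hxy)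

theorem WF.bar {l : List Pass} (h : WF l) : WF (bar l) := by
  unfold SR.bar
  refine WF.perm (List.reverse_perm _).symm ⟨fun p hp => ?_, ?_⟩
  · obtain ⟨q, hq, rfl⟩ := List.mem_map.1 hp
    exact List.mem_map.2 ⟨q.mate, h.1 q hq, rfl⟩
  · rw [List.map_map]; exact h.2

/-- double the names of the crossings -/
def dbl (D : Code) : Code := renamed (fun n => 2 * n) D

theorem wf_dbl {D : Code} {e : List Pass} {κ : ℕ} (hD : WellFormed D) (he : WF e)
    (hodd : ∀ p ∈ e, p.crossing % 2 = 1) : WellFormed (dbl D ++ [(e, κ)]) := by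
  rw [wf_iff, passes_append, dbl, passes_renamed]
  simp only [passes_cons, passes_nil, List.append_nil]
  refine WF.append (WF.ren (wf_iff.1 hD) fun p _ q _ h => by omega) he fun p hp q hq h => ?_
  obtain ⟨p', -, rfl⟩ := List.mem_map.1 hp
  have := hodd q hq
  simp only [ren] at h
  omega

/-- renaming in a word -/
def eren (f : ℕ → ℕ) (E : List (Pass ⊕ ℕ)) : List (Pass ⊕ ℕ) := E.map (Sum.map (ren f) id)

theorem enc_renamed (f : ℕ → ℕ) (D : Code) : enc (renamed f D) = eren f (enc D) := by
  induction D with
  | nil => rfl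
  | cons C D ih =>
    have : renamed f (C :: D) = (C.1.map (ren f), C.2) :: renamed f D := rfl
    rw [this, enc_cons, ih]; simp [eren, Function.comp_def]

theorem reid_ren {f : ℕ → ℕ} (hf : Function.Injective f) {E E' : List (Pass ⊕ ℕ)}
    (h : Reid false E E') (F : List (Pass ⊕ ℕ)) : Reid false (eren f E ++ F) (eren f E' ++ F) := by
  have e : ∀ p q, eren f (two p q) = two (ren f p) (ren f q) := fun _ _ => rfl
  have ea : ∀ X Y, eren f (X ++ Y) = eren f X ++ eren f Y := fun _ _ => List.map_append
  cases h with
  | one A B p =>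
    simp only [ea, e, ← ren_mate]
    have := Reid.one (r3 := false) (eren f A) (eren f B ++ F) (ren f p)
    simpa only [List.append_assoc] using this
  | twoSame A B C p q h ho hs =>
    simp only [ea, e, ← ren_mate]
    have := Reid.twoSame (r3 := false) (eren f A) (eren f B) (eren f C ++ F) (ren f p) (ren f q)
      (fun h' => h (hf h')) ho hs
    simpa only [List.append_assoc] using this
  | twoOpp A B C p q h ho hs =>
    simp only [ea, e, ← ren_mate]
    have := Reid.twoOpp (r3 := false) (eren f A) (eren f B) (eren f C ++ F) (ren f p) (ren f q)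
      (fun h' => h (hf h')) ho hs
    simpa only [List.append_assoc] using this
  | three h => simp at h

theorem dbl_step {births : Bool} {D D' : Code} (h : Step false births D D') {e : List Pass}
    (hodd : ∀ p ∈ e, p.crossing % 2 = 1) {κ' : ℕ} (hκ' : ∃ C ∈ D', C.2 = κ') :
    ∃ κ, (∃ C ∈ D, C.2 = κ) ∧ Step false births (dbl D ++ [(e, κ)]) (dbl D' ++ [(e, κ')]) := by
  have inj : Function.Injective fun n : ℕ => 2 * n := fun a b h => by simp only at h; omega
  cases h with
  | perm _ _ h =>
    obtain ⟨C, hC, rfl⟩ := hκ'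
    exact ⟨C.2, ⟨C, h.symm.subset hC, rfl⟩, Step.perm _ _ ((h.map _).append_right _)⟩
  | rename f _ hf =>
    obtain ⟨C, hC, rfl⟩ := hκ'
    obtain ⟨C', hC', rfl⟩ := List.mem_map.1 hC
    refine ⟨C'.2, ⟨C', hC', rfl⟩, ?_⟩
    have hd : ∀ p ∈ passes (dbl D), ∃ p' ∈ passes D, p = ren (fun n => 2 * n) p' := by
      intro p hp
      rw [dbl, passes_renamed] at hp
      obtain ⟨p', hp', rfl⟩ := List.mem_map.1 hp
      exact ⟨p', hp', rfl⟩
    have := Step.rename (r3 := false) (births := births)
      (fun n => if n % 2 = 0 then 2 * f (n / 2) else n) (dbl D ++ [(e, C'.2)]) (by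
        intro p hp q hq h
        simp only [passes_append, passes_cons, passes_nil, List.append_nil, List.mem_append] at hp hq
        rcases hp with hp | hp <;> rcases hq with hq | hq
        · obtain ⟨p', hp', rfl⟩ := hd p hp
          obtain ⟨q', hq', rfl⟩ := hd q hq
          simp only [ren, Nat.mul_mod_right, if_true] at h ⊢
          rw [Nat.mul_div_cancel_left _ (by norm_num), Nat.mul_div_cancel_left _ (by norm_num)] at h
          rw [hf p' hp' q' hq' (by omega)]
        · exfalso
          obtain ⟨p', hp', rfl⟩ := hd p hp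
          have := hodd q hq
          simp only [ren, Nat.mul_mod_right, if_true, this] at h
          split_ifs at h <;> omega
        · exfalso
          obtain ⟨q', hq', rfl⟩ := hd q hq
          have := hodd p hp
          simp only [ren, Nat.mul_mod_right, if_true, this] at h
          split_ifs at h <;> omega
        · have h1 := hodd p hp
          have h2 := hodd q hq
          simp only [h1, h2] at h
          simpa using h)
    have e1 : renamed (fun n => if n % 2 = 0 then 2 * f (n / 2) else n) (dbl D ++ [(e, C'.2)]) =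
        dbl (renamed f D) ++ [(e, C'.2)] := by
      unfold renamed dbl
      rw [List.map_append]
      congr 1
      · simp only [renamed, List.map_map]
        refine List.map_congr_left fun C _ => ?_
        simp only [Function.comp, List.map_map]
        refine Prod.ext ?_ rfl
        simp only
        refine List.map_congr_left fun p _ => ?_
        simp
      · simp only [List.map_cons, List.map_nil, List.cons.injEq, and_true]
        refine Prod.ext ?_ rfl
        simp only
        conv_rhs => rw [← List.map_id e]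
        refine List.map_congr_left fun p hp => ?_
        simp [hodd p hp]
    rw [e1] at this
    exact this
  | rotate x y b R =>
    have hk : ∃ C ∈ ((x ++ y, b) :: R), C.2 = κ' := by
      obtain ⟨C, hC, h⟩ := hκ'
      rcases List.mem_cons.1 hC with rfl | hC
      · exact ⟨_, List.mem_cons_self, h⟩
      · exact ⟨C, List.mem_cons_of_mem _ hC, h⟩
    refine ⟨κ', hk, ?_⟩
    have := Step.rotate (r3 := false) (births := births) (x.map (ren fun n => 2 * n))
      (y.map (ren fun n => 2 * n)) b (dbl R ++ [(e, κ')])
    simpa [dbl, renamed_def] using this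
  | reid _ _ h =>
    have hl := labels_reid h
    obtain ⟨C, hC, hh⟩ := hκ'
    have : C.2 ∈ D.map Prod.snd := by rw [hl]; exact List.mem_map_of_mem hC
    obtain ⟨C', hC', h'⟩ := List.mem_map.1 this
    refine ⟨κ', ⟨C', hC', by rw [h', hh]⟩, Step.reid _ _ ?_⟩
    rw [enc_append, enc_append, dbl, dbl, enc_renamed, enc_renamed]
    exact reid_ren inj h _
  | reidInv _ _ h =>
    have hl := labels_reid h
    obtain ⟨C, hC, hh⟩ := hκ'
    have : C.2 ∈ D.map Prod.snd := by rw [← hl]; exact List.mem_map_of_mem hC
    obtain ⟨C', hC', h'⟩ := List.mem_map.1 this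
    refine ⟨κ', ⟨C', hC', by rw [h', hh]⟩, Step.reidInv _ _ ?_⟩
    rw [enc_append, enc_append, dbl, dbl, enc_renamed, enc_renamed]
    exact reid_ren inj h _
  | death b R hb =>
    obtain ⟨C, hC, hh⟩ := hκ'
    refine ⟨κ', ⟨C, List.mem_cons_of_mem _ hC, hh⟩, ?_⟩
    have := Step.death (r3 := false) (births := births) b (dbl D' ++ [(e, κ')]) (by
      intro C' hC'
      rcases List.mem_append.1 hC' with hC' | hC'
      · obtain ⟨C'', hC'', rfl⟩ := List.mem_map.1 hC'
        exact hb C'' hC''
      · rw [List.mem_singleton.1 hC', ← hh]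
        exact hb C hC)
    simpa [dbl, renamed_def] using this
  | birth h b R hb =>
    have hk : ∃ C ∈ D, C.2 = κ' := by
      obtain ⟨C, hC, h⟩ := hκ'
      rcases List.mem_cons.1 hC with rfl | hC
      · obtain ⟨C', hC', h'⟩ := hb
        exact ⟨C', hC', by rw [h', ← h]⟩
      · exact ⟨C, hC, h⟩
    refine ⟨κ', hk, ?_⟩
    have := Step.birth (r3 := false) (births := births) h b (dbl D ++ [(e, κ')]) (by
      obtain ⟨C', hC', h'⟩ := hb
      exact ⟨_, List.mem_append_left _ (List.mem_map_of_mem hC'), h'⟩)
    simpa [dbl, renamed_def] using this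
  | split x y b b' R hb =>
    refine ⟨if κ' = b' then b else κ', ?_, ?_⟩
    · obtain ⟨C, hC, h⟩ := hκ'
      simp only [List.mem_cons] at hC
      rcases hC with rfl | rfl | hC
      · refine ⟨_, List.mem_cons_self, ?_⟩
        simp only at h ⊢
        rw [← h, if_neg hb]
      · refine ⟨_, List.mem_cons_self, ?_⟩
        simp only at h ⊢
        rw [← h, if_pos rfl]
      · refine ⟨(C.1, if C.2 = b' then b else C.2), List.mem_cons_of_mem _
          (List.mem_map_of_mem (f := fun C => (C.1, if C.2 = b' then b else C.2)) hC), ?_⟩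
        simp only
        rw [h]
    · have := Step.split (r3 := false) (births := births) (x.map (ren fun n => 2 * n))
        (y.map (ren fun n => 2 * n)) b b' (dbl R ++ [(e, κ')]) hb
      simpa [dbl, renamed_def, Function.comp_def] using this
  | merge x y b R =>
    have hk : ∃ C ∈ ((x, b) :: (y, b) :: R), C.2 = κ' := by
      obtain ⟨C, hC, h⟩ := hκ'
      rcases List.mem_cons.1 hC with rfl | hC
      · exact ⟨_, List.mem_cons_self, h⟩
      · exact ⟨C, List.mem_cons_of_mem _ (List.mem_cons_of_mem _ hC), h⟩
    refine ⟨κ', hk, ?_⟩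
    have := Step.merge (r3 := false) (births := births) (x.map (ren fun n => 2 * n))
      (y.map (ren fun n => 2 * n)) b (dbl R ++ [(e, κ')])
    simpa [dbl, renamed_def] using this

theorem dbl_movie {births : Bool} {D E : Code} (h : Movie false births D E) {e : List Pass}
    (he : WF e) (hodd : ∀ p ∈ e, p.crossing % 2 = 1)
    (hE : ∃ κ, (∃ C ∈ E, C.2 = κ) ∧ Inv (dbl E ++ [(e, κ)])) :
    ∃ κ, (∃ C ∈ D, C.2 = κ) ∧ Inv (dbl D ++ [(e, κ)]) := by
  induction h using Relation.ReflTransGen.head_induction_on with
  | refl => exact hE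
  | head h _ ih =>
    obtain ⟨κ', hκ', hI⟩ := ih
    obtain ⟨κ, hκ, hS⟩ := dbl_step h.2.2 hodd hκ'
    exact ⟨κ, hκ, step_inv (wf_dbl h.1.1 he hodd) (wf_dbl h.2.1.1 he hodd) hS hI⟩

end Pool.Agent.Y468.SR
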