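import Mathlib

/-!
# Movies of surfaces in the 4-ball bounded by classical links, in terms of Gauss codes

A link diagram is recorded by its signed Gauss code, one cyclic word for each component. Besides,
each component carries a label telling to which connected piece of the surface it belongs that
is bounded by the link in the part of the 4-ball not yet swept out by the movie.
-/

namespace Pool.Agent.Y468.SR

/-- A passage of an oriented link diagram through a crossing. -/
structure Pass where
  /-- the name of the crossing -/
  crossing : ℕ
  /-- over-passage or under-passage -/
  isOver : Bool
  /-- whether the crossing is positive -/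
  isPos : Bool
  deriving DecidableEq

/-- The other passage through the same crossing. -/
def Pass.mate (p : Pass) : Pass := ⟨p.crossing, !p.isOver, p.isPos⟩

/-- A link diagram: for each component the cyclic word of its passages through crossings, in the
order met when running along the component, and the label of the piece of surface it bounds. -/
abbrev Code := List (List Pass × ℕ)

/-- All passages of a diagram. -/
def passes (D : Code) : List Pass := D.flatMap Prod.fst

/-- Each crossing has exactly one over-passage and one under-passage, with the same sign. -/
def WellFormed (D : Code) : Prop :=
  (∀ p ∈ passes D, p.mate ∈ passes D) ∧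
    ((passes D).map fun p => (p.crossing, p.isOver)).Nodup

/-- The four corners at a crossing are named `(crossing, a, b)`, where `a` (resp. `b`) tells whether
the corner is on the left of the overcrossing (resp. undercrossing) strand. `p.corner front left` is
the corner in front of (`front = true`) or behind the crossing, and on the left (`left = true`) or
right of the strand, as seen when making the passage `p`. -/
def Pass.corner (p : Pass) (front left : Bool) : ℕ × Bool × Bool :=
  if p.isOver then (p.crossing, left, xor front p.isPos)
  else (p.crossing, !(xor front p.isPos), left)

/-- Running through the passages `w`, a quantity which is `s` at the beginning and `s'` at the end is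
continuous along the edges, where `back p`, `front p` are its values just before and just after the
passage `p`. -/
def Run {S : Type} (back front : Pass → S) : S → List Pass → S → Prop
  | s, [], s' => s = s'
  | s, p :: w, s' => s = back p ∧ Run back front (front p) w s'

/-- The quantity is continuous along the cyclic word `w`. -/
def Closed {S : Type} (back front : Pass → S) (w : List Pass) : Prop :=
  ∃ s, Run back front s w s

/-- The diagram is planar: on the closed surface obtained by filling in the faces of the diagram
every 1-cycle bounds (so that this surface consists of spheres). A 1-cycle is an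
integer on each edge (given as `back p` on the edge before and `front p` on the edge behind the
passage `p`) such that the flow through each crossing is conserved; it bounds if there are integers
`u` at the corners, constant along the edges (that is, integers on the faces), whose differences
`left - right` are the given ones. -/
def Planar (D : Code) : Prop :=
  ∀ back front : Pass → ℤ, (∀ C ∈ D, Closed back front C.1) →
    (∀ p ∈ passes D, back p + back p.mate = front p + front p.mate) →
    ∃ u : ℕ × Bool × Bool → ℤ,
      (∀ C ∈ D, Closed (fun p => (u (p.corner false true), u (p.corner false false)))
        (fun p => (u (p.corner true true), u (p.corner true false))) C.1) ∧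
      ∀ p ∈ passes D, u (p.corner false true) - u (p.corner false false) = back p ∧
        u (p.corner true true) - u (p.corner true false) = front p

/-- Diagrams of classical links. -/
def Classical (D : Code) : Prop := WellFormed D ∧ Planar D

/-- The diagram written as one word, a label standing at the end of each component. -/
def enc (D : Code) : List (Pass ⊕ ℕ) := D.flatMap fun C => C.1.map Sum.inl ++ [Sum.inr C.2]

/-- a factor of a word consisting of two passages -/
def two (p q : Pass) : List (Pass ⊕ ℕ) := [Sum.inl p, Sum.inl q]

/-- `Triangle t m b`: the pairs of passages `t`, `m`, `b` of the top, middle and bottom strand through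
the vertices `x = t ∩ m`, `y = t ∩ b`, `z = m ∩ b` of a triangle of the diagram. -/
inductive Triangle : Pass × Pass → Pass × Pass → Pass × Pass → Prop
  | mk (x y z : ℕ) (sx sy sz τ μ β : Bool) (hxy : x ≠ y) (hyz : y ≠ z) (hxz : x ≠ z)
      (h₁ : xor sx (xor τ μ) = xor sy (xor τ β)) (h₂ : xor sy (xor τ β) = xor sz (xor μ β)) :
      Triangle (if τ then (⟨x, true, sx⟩, ⟨y, true, sy⟩) else (⟨y, true, sy⟩, ⟨x, true, sx⟩))
        (if μ then (⟨x, false, sx⟩, ⟨z, true, sz⟩) else (⟨z, true, sz⟩, ⟨x, false, sx⟩))
        (if β then (⟨y, false, sy⟩, ⟨z, false, sz⟩) else (⟨z, false, sz⟩, ⟨y, false, sy⟩))

/-- The Reidemeister moves on Gauss codes. Moves of type III are allowed only if `r3 = true`. -/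
inductive Reid (r3 : Bool) : List (Pass ⊕ ℕ) → List (Pass ⊕ ℕ) → Prop
  /-- type I: a crossing both whose passages follow one another is removed -/
  | one (A B : List (Pass ⊕ ℕ)) (p : Pass) : Reid r3 (A ++ two p p.mate ++ B) (A ++ B)
  /-- type II: two crossings of opposite signs, one strand passing over both, are removed -/
  | twoSame (A B C : List (Pass ⊕ ℕ)) (p q : Pass) (h : p.crossing ≠ q.crossing)
      (ho : p.isOver = q.isOver) (hs : q.isPos = !p.isPos) :
      Reid r3 (A ++ two p q ++ B ++ two p.mate q.mate ++ C) (A ++ B ++ C)
  | twoOpp (A B C : List (Pass ⊕ ℕ)) (p q : Pass) (h : p.crossing ≠ q.crossing)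
      (ho : p.isOver = q.isOver) (hs : q.isPos = !p.isPos) :
      Reid r3 (A ++ two p q ++ B ++ two q.mate p.mate ++ C) (A ++ B ++ C)
  /-- type III: a strand is moved across the crossing of two others -/
  | three (h : r3 = true) (A B C E : List (Pass ⊕ ℕ)) (X Y Z t m b : Pass × Pass)
      (hT : Triangle t m b) (hP : List.Perm [X, Y, Z] [t, m, b]) :
      Reid r3 (A ++ two X.1 X.2 ++ B ++ two Y.1 Y.2 ++ C ++ two Z.1 Z.2 ++ E)
        (A ++ two X.2 X.1 ++ B ++ two Y.2 Y.1 ++ C ++ two Z.2 Z.1 ++ E)

/-- The same diagram with other names of the crossings. -/
def renamed (f : ℕ → ℕ) (D : Code) : Code :=
  D.map fun C => (C.1.map fun p => ⟨f p.crossing, p.isOver, p.isPos⟩, C.2)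

/-- The elementary steps of a movie, going into the 4-ball. `births = false`: no births of
components, i.e. no local maxima of the distance from the centre on the surface. The labels are those
of the pieces of the remaining part of the surface; in a step `split` the two new components bound
different pieces, in a step `merge` the two old components bound the same piece, so that all these
pieces have genus zero, and they have no closed pieces. -/
inductive Step (r3 births : Bool) : Code → Code → Prop
  | perm (D D' : Code) (h : D.Perm D') : Step r3 births D D'
  | rename (f : ℕ → ℕ) (D : Code) (hf : ∀ p ∈ passes D, ∀ q ∈ passes D,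
      f p.crossing = f q.crossing → p.crossing = q.crossing) : Step r3 births D (renamed f D)
  | rotate (x y : List Pass) (b : ℕ) (R : Code) :
      Step r3 births ((x ++ y, b) :: R) ((y ++ x, b) :: R)
  | reid (D D' : Code) (h : Reid r3 (enc D) (enc D')) : Step r3 births D D'
  | reidInv (D D' : Code) (h : Reid r3 (enc D') (enc D)) : Step r3 births D D'
  /-- a component without crossings bounds a disc and is removed -/
  | death (b : ℕ) (R : Code) (hb : ∀ C ∈ R, C.2 ≠ b) : Step r3 births (([], b) :: R) R
  /-- a component without crossings is added -/
  | birth (h : births = true) (b : ℕ) (R : Code) (hb : ∃ C ∈ R, C.2 = b) :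
      Step r3 births R (([], b) :: R)
  /-- a saddle cutting one component into two -/
  | split (x y : List Pass) (b b' : ℕ) (R : Code) (hb : b ≠ b') :
      Step r3 births ((x ++ y, b) :: R.map fun C => (C.1, if C.2 = b' then b else C.2))
        ((x, b) :: (y, b') :: R)
  /-- a saddle joining two components -/
  | merge (x y : List Pass) (b : ℕ) (R : Code) :
      Step r3 births ((x, b) :: (y, b) :: R) ((x ++ y, b) :: R)

/-- A movie: a sequence of diagrams of classical links, each obtained from the one before by an
elementary step. -/
def Movie (r3 births : Bool) : Code → Code → Prop :=
  Relation.ReflTransGen fun D D' => Classical D ∧ Classical D' ∧ Step r3 births D D'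

/-- The knot with Gauss code `w` is slice. -/
def IsSlice (w : List Pass) : Prop := Movie true true [(w, 0)] []

/-- The knot with Gauss code `w` is ribbon. -/
def IsRibbon (w : List Pass) : Prop := Movie true false [(w, 0)] []

end Pool.Agent.Y468.SR
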