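import Pool.Agent.Y468.SR.Ribbon

/-! Movies without births keep the pieces of surface bounded by different components different. -/

namespace Pool.Agent.Y468.SR

/-- the labels in a word -/
def rl (l : List (Pass ⊕ ℕ)) : List ℕ := l.filterMap Sum.getRight?

@[simp] theorem rl_nil : rl [] = [] := rfl
@[simp] theorem rl_inl (p : Pass) (l) : rl (Sum.inl p :: l) = rl l := rfl
@[simp] theorem rl_inr (b : ℕ) (l) : rl (Sum.inr b :: l) = b :: rl l := rfl
@[simp] theorem rl_append (l l') : rl (l ++ l') = rl l ++ rl l' := by simp [rl]
@[simp] theorem rl_two (p q : Pass) : rl (two p q) = [] := rfl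

theorem rl_enc (D : Code) : rl (enc D) = D.map Prod.snd := by
  induction D with
  | nil => rfl
  | cons C D ih =>
    have : rl (C.1.map Sum.inl) = [] := by
      induction C.1 with
      | nil => rfl
      | cons p w ih => simp [ih]
    simp [ih, this]

theorem labels_reid {r3 : Bool} {D D' : Code} (h : Reid r3 (enc D) (enc D')) :
    D.map Prod.snd = D'.map Prod.snd := by
  rw [← rl_enc, ← rl_enc]
  generalize enc D = E at h
  generalize enc D' = E' at h
  cases h <;> simp

theorem nodup_step {r3 : Bool} {D D' : Code} (h : Step r3 false D D')
    (hn : (D.map Prod.snd).Nodup) : (D'.map Prod.snd).Nodup := by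
  cases h with
  | perm _ _ h => exact (h.map _).nodup hn
  | rename f _ hf =>
    have : (renamed f D).map Prod.snd = D.map Prod.snd := by simp [renamed]
    rw [this]; exact hn
  | rotate x y b R => exact hn
  | reid _ _ h => rw [← labels_reid h]; exact hn
  | reidInv _ _ h => rw [labels_reid h]; exact hn
  | death b R hb => exact (List.nodup_cons.1 hn).2
  | birth h b R hb => exact absurd h (by simp)
  | split x y b b' R hb =>
    simp only [List.map_cons, List.map_map, List.nodup_cons, List.mem_map, Function.comp] at hn
    obtain ⟨h1, h2⟩ := hn
    have h3 : ∀ C ∈ R, C.2 ≠ b' := fun C hC h => h1 ⟨C, hC, by simp [h]⟩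
    have h4 : R.map (Prod.snd ∘ fun C => (C.1, if C.2 = b' then b else C.2)) = R.map Prod.snd :=
      List.map_congr_left fun C hC => by simp [h3 C hC]
    rw [h4] at h2
    simp only [List.map_cons, List.nodup_cons, List.mem_cons, not_or, List.mem_map]
    refine ⟨⟨hb, ?_⟩, ?_, h2⟩
    · rintro ⟨C, hC, h⟩
      exact h1 ⟨C, hC, by rw [h]; simp [hb]⟩
    · rintro ⟨C, hC, h⟩
      exact h3 C hC h
  | merge x y b R =>
    simp at hn

theorem classical_of_movie {r3 births : Bool} {D D' : Code} (h : Movie r3 births D D')
    (hD : Classical D) : Classical D' := by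
  cases h with
  | refl => exact hD
  | tail _ h => exact h.2.1

theorem nodup_movie {r3 : Bool} {D D' : Code} (h : Movie r3 false D D')
    (hn : (D.map Prod.snd).Nodup) : (D'.map Prod.snd).Nodup := by
  induction h with
  | refl => exact hn
  | tail _ h ih => exact nodup_step h.2.2 ih

theorem step_mono {births : Bool} {D D' : Code} (h : Step false births D D') :
    Step true births D D' := by
  have key : ∀ E E', Reid false E E' → Reid true E E' := by
    intro E E' h
    cases h with
    | one A B p => exact Reid.one A B p
    | twoSame A B C p q h ho hs => exact Reid.twoSame A B C p q h ho hs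
    | twoOpp A B C p q h ho hs => exact Reid.twoOpp A B C p q h ho hs
    | three h => exact absurd h (by simp)
  cases h with
  | perm _ _ h => exact Step.perm _ _ h
  | rename f _ hf => exact Step.rename f _ hf
  | rotate x y b R => exact Step.rotate x y b R
  | reid _ _ h => exact Step.reid _ _ (key _ _ h)
  | reidInv _ _ h => exact Step.reidInv _ _ (key _ _ h)
  | death b R hb => exact Step.death b _ hb
  | birth h b R hb => exact Step.birth h b _ hb
  | split x y b b' R hb => exact Step.split x y b b' R hb
  | merge x y b R => exact Step.merge x y b R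

theorem movie_mono {births : Bool} {D D' : Code} (h : Movie false births D D') :
    Movie true births D D' := by
  induction h with
  | refl => exact Relation.ReflTransGen.refl
  | tail _ h ih => exact Relation.ReflTransGen.tail ih ⟨h.1, h.2.1, step_mono h.2.2⟩

end Pool.Agent.Y468.SR
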