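import Pool.Agent.Y468.SR.Dbl

/-! The planarity condition for concordances between two knots. -/

namespace Pool.Agent.Y468.SR

set_option linter.unusedSimpArgs false

section
variable {G : Type} [Group G]

theorem cn_pair {x y : G} : CN [x, y] ↔ ∃ g, x * (g * y * g⁻¹) = 1 := by
  constructor
  · intro h
    obtain ⟨r, h, e⟩ := h.head
    cases h with
    | cons _ g r' _ h =>
      cases h
      exact ⟨g, by simpa using e⟩
  · rintro ⟨g, h⟩
    exact CN.of_head (PC.cons y g 1 [] PC.nil) (by simpa using h)

theorem cn_pair_inv {x y : G} (h : CN [x⁻¹, y⁻¹]) : CN [y, x] := by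
  rw [cn_pair] at h ⊢
  obtain ⟨g, h⟩ := h
  refine ⟨g⁻¹, ?_⟩
  have h1 : g * y⁻¹ * g⁻¹ = x := by
    have := mul_eq_one_iff_inv_eq.1 h
    rw [← this, inv_inv]
  rw [← h1]; group

/-- the passage with the sign changed -/
def flp (p : Pass) : Pass := ⟨p.crossing, p.isOver, !p.isPos⟩

@[simp] theorem flp_flp (p : Pass) : flp (flp p) = p := by simp [flp]

theorem bar_eq (w : List Pass) : bar w = (w.map flp).reverse := rfl

theorem mem_bar {w : List Pass} {p : Pass} : p ∈ bar w ↔ flp p ∈ w := by
  rw [bar_eq, List.mem_reverse, List.mem_map]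
  constructor
  · rintro ⟨q, hq, rfl⟩; simpa using hq
  · intro h; exact ⟨flp p, h, by simp⟩

theorem wval_bar (o u : ℕ → G) (w : List Pass) :
    wval o u (bar w) = (wval (fun c => (o c)⁻¹) (fun c => (u c)⁻¹) w)⁻¹ := by
  induction w with
  | nil => simp [bar]
  | cons p w ih =>
    have : bar (p :: w) = bar w ++ [flp p] := by simp [bar_eq]
    rw [this, wval_append, ih, wval_cons, wval_cons, wval_nil, mul_one, mul_inv_rev]
    congr 1
    unfold val
    split_ifs <;> simp [flp]
    · simp_all [flp]
    · simp_all [flp]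

theorem val_inv (o u : ℕ → G) (p : Pass) :
    val (fun c => (o c)⁻¹) (fun c => (u c)⁻¹) p = (val o u p)⁻¹ := by
  unfold val; split_ifs <;> rfl

theorem wval_bar' (o u : ℕ → G) (w : List Pass) :
    wval (fun c => (o c)⁻¹) (fun c => (u c)⁻¹) (bar w) = (wval o u w)⁻¹ := by
  rw [wval_bar]; simp

end

theorem inv_symm {k₁ k₂ : List Pass} (h : Inv [(k₁, 0), (bar k₂, 0)]) :
    Inv [(k₂, 0), (bar k₁, 0)] := by
  rw [inv_def] at h ⊢
  obtain ⟨m, hm, hn⟩ := h
  have hmem : ∀ r, r ∈ passes [(k₂, 0), (bar k₁, 0)] ↔ flp r ∈ passes [(k₁, 0), (bar k₂, 0)] := by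
    intro r
    simp only [passes_cons, passes_nil, List.append_nil, List.mem_append, mem_bar, flp_flp]
    tauto
  refine ⟨m, fun p hp => ?_, fun G _ o u hv b => ?_⟩
  · obtain ⟨q, hq, h1, h2, h3⟩ := hm _ ((hmem p).1 hp)
    refine ⟨flp q, (hmem _).2 (by simpa using hq), h1, h2, fun h => ?_⟩
    have := h3 h
    simp only [flp] at this ⊢
    simp [this]
  · have hv' : Valid (passes [(k₁, 0), (bar k₂, 0)]) m (fun c => (o c)⁻¹) (fun c => (u c)⁻¹) := by
      intro r hr
      obtain ⟨h1, h2⟩ := hv (flp r) ((hmem _).2 (by simpa using hr))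
      refine ⟨fun h => ?_, fun h => ⟨?_, ?_⟩⟩
      · have := h1 h; simp only [flp] at this ⊢; rw [this]
      · have := (h2 h).1; simp only [flp] at this ⊢; rw [this]
      · have := (h2 h).2; simp only [flp] at this ⊢; rw [this]
    have := hn G _ _ hv' b
    simp only [vals, List.map_cons, List.map_nil, bv_cons, bv_nil] at this ⊢
    split_ifs at this ⊢ with hb
    · rw [wval_bar', show wval (fun c => (o c)⁻¹) (fun c => (u c)⁻¹) k₁ = (wval o u (bar k₁))⁻¹ by
        rw [wval_bar, inv_inv]] at this
      exact cn_pair_inv this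
    · exact PC.nil

theorem inv_base {k : List Pass} (hk : WF k) :
    Inv (dbl [(k, 0)] ++ [(bar (k.map (ren fun n => 2 * n + 1)), 0)]) := by
  have e : dbl [(k, 0)] ++ [(bar (k.map (ren fun n => 2 * n + 1)), 0)] =
      [(k.map (ren fun n => 2 * n), 0), (bar (k.map (ren fun n => 2 * n + 1)), 0)] := rfl
  rw [e, inv_def]
  have hmem : ∀ r ∈ passes [(k.map (ren fun n => 2 * n), 0),
      (bar (k.map (ren fun n => 2 * n + 1)), 0)], ∃ p ∈ k, r = ren (fun n => 2 * n) p ∨
        r = flp (ren (fun n => 2 * n + 1) p) := by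
    intro r hr
    simp only [passes_cons, passes_nil, List.append_nil, List.mem_append, mem_bar] at hr
    rcases hr with hr | hr
    · obtain ⟨p, hp, rfl⟩ := List.mem_map.1 hr
      exact ⟨p, hp, Or.inl rfl⟩
    · obtain ⟨p, hp, h⟩ := List.mem_map.1 hr
      exact ⟨p, hp, Or.inr (by rw [h, flp_flp])⟩
  refine ⟨fun n => if n % 2 = 0 then n + 1 else n - 1, fun r hr => ?_, fun G _ o u hv b => ?_⟩
  · obtain ⟨p, hp, rfl | rfl⟩ := hmem r hr
    · refine ⟨flp (ren (fun n => 2 * n + 1) p), ?_, ?_, ?_, ?_⟩
      · simp only [passes_cons, passes_nil, List.append_nil, List.mem_append, mem_bar, flp_flp]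
        exact Or.inr (List.mem_map_of_mem hp)
      · simp [flp, ren]
      · simp [flp, ren]
      · intro _; simp [flp, ren]
    · refine ⟨ren (fun n => 2 * n) p, ?_, ?_, ?_, ?_⟩
      · simp only [passes_cons, passes_nil, List.append_nil, List.mem_append, mem_bar, flp_flp]
        exact Or.inl (List.mem_map_of_mem hp)
      · simp [flp, ren]
      · simp [flp, ren]
      · intro _; simp [flp, ren]
  · simp only [vals, List.map_cons, List.map_nil, bv_cons, bv_nil]
    split_ifs with hb
    · have h1 : ∀ w : List Pass, (∀ p ∈ w, p ∈ k) →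
          wval (fun c => (o c)⁻¹) (fun c => (u c)⁻¹) (w.map (ren fun n => 2 * n + 1)) =
          wval o u (w.map (ren fun n => 2 * n)) := by
        intro w hw
        induction w with
        | nil => rfl
        | cons p w ih =>
          rw [List.map_cons, List.map_cons, wval_cons, wval_cons, ih fun q hq => hw q (by simp [hq])]
          congr 1
          obtain ⟨-, h2⟩ := hv (ren (fun n => 2 * n) p) (by
            simp only [passes_cons, passes_nil, List.append_nil, List.mem_append]
            exact Or.inl (List.mem_map_of_mem (hw p (by simp))))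
          have h3 := h2 (by simp [ren])
          simp only [ren, Nat.mul_mod_right, if_true] at h3
          clear h2
          obtain ⟨c, τ, s⟩ := p
          simp only at h3
          cases τ
          · simp [val, ren, h3.2]
          · simp [val, ren, h3.1]
      rw [wval_bar, h1 k fun _ h => h, cn_pair]
      exact ⟨1, by simp⟩
    · exact PC.nil

end Pool.Agent.Y468.SR
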