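import Pool.Agent.Y468.SR.Words

/-! Planarity is preserved by the removal of crossings by moves of types I and II and by the
saddles used below. -/

namespace Pool.Agent.Y468.SR

set_option linter.unusedSimpArgs false

section run
variable {S : Type} {back front : Pass → S}

theorem run_append {s s' : S} {x y : List Pass} :
    Run back front s (x ++ y) s' ↔ ∃ m, Run back front s x m ∧ Run back front m y s' := by
  induction x generalizing s with
  | nil => simp [Run]
  | cons p x ih =>
    simp only [List.cons_append, Run, ih]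
    constructor
    · rintro ⟨h, m, h1, h2⟩; exact ⟨m, ⟨h, h1⟩, h2⟩
    · rintro ⟨m, ⟨h, h1⟩, h2⟩; exact ⟨h, m, h1, h2⟩

theorem closed_comm {x y : List Pass} (h : Closed back front (x ++ y)) :
    Closed back front (y ++ x) := by
  obtain ⟨s, h⟩ := h
  obtain ⟨m, h1, h2⟩ := run_append.1 h
  exact ⟨m, run_append.2 ⟨s, h2, h1⟩⟩

theorem run_congr {back' front' : Pass → S} {s s' : S} {w : List Pass}
    (h : ∀ p ∈ w, back p = back' p ∧ front p = front' p) (hr : Run back front s w s') :
    Run back' front' s w s' := by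
  induction w generalizing s with
  | nil => exact hr
  | cons p w ih =>
    simp only [Run] at hr ⊢
    rw [← (h p (by simp)).1, ← (h p (by simp)).2]
    exact ⟨hr.1, ih (fun q hq => h q (by simp [hq])) hr.2⟩

theorem closed_congr {back' front' : Pass → S} {w : List Pass}
    (h : ∀ p ∈ w, back p = back' p ∧ front p = front' p) (hr : Closed back front w) :
    Closed back' front' w := by
  obtain ⟨s, hr⟩ := hr
  exact ⟨s, run_congr h hr⟩

/-- `p` is immediately followed by `q` in `w`, or neither of them is in `w` -/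
def Adj (p q : Pass) (w : List Pass) : Prop :=
  (p ∉ w ∧ q ∉ w) ∨ ∃ w₁ w₂, w = w₁ ++ p :: q :: w₂ ∧ p ∉ w₁ ∧ q ∉ w₁ ∧ p ∉ w₂ ∧ q ∉ w₂

/-- changing the value between `p` and `q` -/
theorem run_modify {back' front' : Pass → S} {p q : Pass} {s s' : S} {w : List Pass}
    (hpq : p ≠ q) (ha : Adj p q w)
    (hb : ∀ r ∈ w, r ≠ q → back r = back' r) (hf : ∀ r ∈ w, r ≠ p → front r = front' r)
    (he : front' p = back' q) (hr : Run back front s w s') :
    Run back' front' s w s' := by
  rcases ha with ⟨h1, h2⟩ | ⟨w₁, w₂, rfl, h1, h2, h3, h4⟩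
  · refine run_congr (fun r hrw => ⟨hb r hrw ?_, hf r hrw ?_⟩) hr
    · rintro rfl; exact h2 hrw
    · rintro rfl; exact h1 hrw
  · obtain ⟨m, e1, e2⟩ := run_append.1 hr
    refine run_append.2 ⟨m, run_congr (fun r hrw => ⟨hb r (by simp [hrw]) ?_,
      hf r (by simp [hrw]) ?_⟩) e1, ?_⟩
    · rintro rfl; exact h2 hrw
    · rintro rfl; exact h1 hrw
    · simp only [Run] at e2 ⊢
      obtain ⟨e3, e4, e5⟩ := e2
      refine ⟨e3.trans (hb p (by simp) hpq), he, ?_⟩
      rw [← hf q (by simp) hpq.symm]
      refine run_congr (fun r hrw => ⟨hb r (by simp [hrw]) ?_, hf r (by simp [hrw]) ?_⟩) e5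
      · rintro rfl; exact h4 hrw
      · rintro rfl; exact h3 hrw

theorem closed_modify {back' front' : Pass → S} {p q : Pass} {w : List Pass}
    (hpq : p ≠ q) (ha : Adj p q w)
    (hb : ∀ r ∈ w, r ≠ q → back r = back' r) (hf : ∀ r ∈ w, r ≠ p → front r = front' r)
    (he : front' p = back' q) (hr : Closed back front w) : Closed back' front' w := by
  obtain ⟨s, hr⟩ := hr
  exact ⟨s, run_modify hpq ha hb hf he hr⟩

/-- continuity along all components, for words -/
def RunE (back front : Pass → S) : S → S → List (Pass ⊕ ℕ) → Prop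
  | _, _, [] => True
  | s₀, s, Sum.inl p :: l => s = back p ∧ RunE back front s₀ (front p) l
  | s₀, s, Sum.inr _ :: l => s = s₀ ∧ ∃ t, RunE back front t t l

theorem runE_map {s₀ s : S} {w : List Pass} {l : List (Pass ⊕ ℕ)} :
    RunE back front s₀ s (w.map Sum.inl ++ l) ↔
      ∃ m, Run back front s w m ∧ RunE back front s₀ m l := by
  induction w generalizing s with
  | nil => simp [Run]
  | cons p w ih => simp [Run, RunE, ih, and_assoc]

theorem runE_enc [Nonempty S] {D : Code} :
    (∃ t, RunE back front t t (enc D)) ↔ ∀ C ∈ D, Closed back front C.1 := by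
  induction D with
  | nil => simp [RunE]
  | cons C D ih =>
    simp only [enc_cons, List.mem_cons, forall_eq_or_imp, ← ih]
    constructor
    · rintro ⟨t, h⟩
      obtain ⟨m, h1, h2, h3⟩ := runE_map.1 h
      subst h2
      exact ⟨⟨m, h1⟩, h3⟩
    · rintro ⟨⟨t, h1⟩, h3⟩
      exact ⟨t, runE_map.2 ⟨t, h1, rfl, h3⟩⟩

theorem runE_congr {back' front' : Pass → S} {s₀ s : S} {E : List (Pass ⊕ ℕ)}
    (h : ∀ p ∈ pl E, back p = back' p ∧ front p = front' p) (hr : RunE back front s₀ s E) :
    RunE back' front' s₀ s E := by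
  induction E generalizing s₀ s with
  | nil => trivial
  | cons a E ih =>
    rcases a with p | b
    · simp only [RunE] at hr ⊢
      rw [← (h p (by simp)).1, ← (h p (by simp)).2]
      exact ⟨hr.1, ih (fun q hq => h q (by simp [hq])) hr.2⟩
    · simp only [RunE] at hr ⊢
      obtain ⟨h1, t, h2⟩ := hr
      exact ⟨h1, t, ih (fun q hq => h q (by simpa using hq)) h2⟩

theorem runE_remove {s₀ s : S} {A B : List (Pass ⊕ ℕ)} {p q : Pass} (h : front q = back p)
    (hr : RunE back front s₀ s (A ++ two p q ++ B)) : RunE back front s₀ s (A ++ B) := by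
  induction A generalizing s₀ s with
  | nil =>
    simp only [two, List.nil_append, List.cons_append, RunE] at hr ⊢
    obtain ⟨h1, h2, h3⟩ := hr
    rw [h1, ← h]; exact h3
  | cons a A ih =>
    rcases a with r | b
    · simp only [List.cons_append, RunE] at hr ⊢
      exact ⟨hr.1, ih hr.2⟩
    · simp only [List.cons_append, RunE] at hr ⊢
      obtain ⟨h1, t, h2⟩ := hr
      exact ⟨h1, t, ih h2⟩

/-- there is a state at the place between `A` and `B` -/
theorem runE_insert {s₀ s : S} {A B : List (Pass ⊕ ℕ)} (hr : RunE back front s₀ s (A ++ B)) :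
    ∃ m, ∀ (back' front' : Pass → S) (p q : Pass),
      (∀ r ∈ pl (A ++ B), back r = back' r ∧ front r = front' r) →
      back' p = m → front' p = m → back' q = m → front' q = m →
      RunE back' front' s₀ s (A ++ two p q ++ B) := by
  induction A generalizing s₀ s with
  | nil =>
    refine ⟨s, fun back' front' p q h h1 h2 h3 h4 => ?_⟩
    simp only [two, List.nil_append, List.cons_append, RunE]
    rw [h1, h2, h3, h4]
    exact ⟨rfl, rfl, runE_congr h hr⟩
  | cons a A ih =>
    rcases a with r | b
    · simp only [List.cons_append, RunE] at hr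
      obtain ⟨m, hm⟩ := ih hr.2
      refine ⟨m, fun back' front' p q h h1 h2 h3 h4 => ?_⟩
      simp only [List.cons_append, RunE]
      rw [← (h r (by simp)).1, ← (h r (by simp)).2]
      exact ⟨hr.1, hm back' front' p q (fun t ht => h t (by
        simp only [List.cons_append, pl_inl, List.mem_cons]; exact Or.inr ht)) h1 h2 h3 h4⟩
    · simp only [List.cons_append, RunE] at hr
      obtain ⟨h0, t, ht⟩ := hr
      obtain ⟨m, hm⟩ := ih ht
      refine ⟨m, fun back' front' p q h h1 h2 h3 h4 => ?_⟩
      simp only [List.cons_append, RunE]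
      exact ⟨h0, t, hm back' front' p q (fun t ht => h t (by simpa using ht)) h1 h2 h3 h4⟩

end run

end Pool.Agent.Y468.SR
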