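import Pool.Agent.Y468.SR.Words

/-! Reidemeister moves of types I and II and matchings. -/

namespace Pool.Agent.Y468.SR

/-- the condition `Inv` for words -/
def InvE (E : List (Pass ⊕ ℕ)) : Prop := ∃ m, Matching (pl E) m ∧ NullE E m

theorem inv_iff (D : Code) : Inv D ↔ InvE (enc D) := by
  unfold Inv InvE
  rw [pl_enc]

open Function in
theorem inv_one_up {E E' : List (Pass ⊕ ℕ)} {c : ℕ}
    (hE : ∀ r, r ∈ pl E → r.crossing = c ∨ r ∈ pl E') (hsub : ∀ r ∈ pl E', r ∈ pl E)
    (hfr : ∀ r ∈ pl E', r.crossing ≠ c)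
    (hev : ∀ (G : Type) [Group G] (o u : ℕ → G), u c = (o c)⁻¹ → ev o u E 1 = ev o u E' 1)
    (hex : ∃ r ∈ pl E, r.crossing = c)
    (h : InvE E') : InvE E := by
  obtain ⟨m', hm, hn⟩ := h
  obtain ⟨r0, hr0, hr0c⟩ := hex
  have hm'c : ∀ r ∈ pl E', m' r.crossing ≠ c := by
    intro r hr h
    obtain ⟨q, hq, h1, -⟩ := hm r hr
    exact hfr q hq (h1.trans h)
  refine ⟨fun x => if x = c then c else m' x, ?_, ?_⟩
  · intro r hr
    by_cases hrc : r.crossing = c
    · exact ⟨r, hr, by simp [hrc], by simp [hrc], fun h => absurd rfl h⟩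
    · have hr' : r ∈ pl E' := (hE r hr).resolve_left hrc
      obtain ⟨q, hq, h1, h2, h3⟩ := hm r hr'
      exact ⟨q, hsub q hq, by simp [hrc, h1], by simp [hfr q hq, h2], h3⟩
  · intro G _ o u hv b
    have hc : u c = (o c)⁻¹ := by
      have := (hv r0 hr0).1 (by simp [hr0c])
      rwa [hr0c] at this
    rw [hev G o u hc]
    refine hn G o u (fun r hr => ?_) b
    have := hv r (hsub r hr)
    simpa [hfr r hr] using this

open Function in
theorem inv_one_down {E E' : List (Pass ⊕ ℕ)} {c : ℕ}
    (hE : ∀ r, r ∈ pl E → r.crossing = c ∨ r ∈ pl E') (hsub : ∀ r ∈ pl E', r ∈ pl E)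
    (hfr : ∀ r ∈ pl E', r.crossing ≠ c)
    (hev : ∀ (G : Type) [Group G] (o u : ℕ → G), u c = (o c)⁻¹ → ev o u E 1 = ev o u E' 1)
    (hex : ∃ r ∈ pl E, r.crossing = c)
    (h : InvE E) : InvE E' := by
  obtain ⟨m', hm, hn⟩ := h
  obtain ⟨r0, hr0, hr0c⟩ := hex
  obtain ⟨q0, hq0, hq1, hq2, hq3⟩ := hm r0 hr0
  rw [hr0c] at hq1 hq2 hq3
  -- `e` is the partner of `c`
  set e := m' c with he
  have hme : m' e = c := by rw [← hq1]; exact hq2
  by_cases hec : e = c
  · refine ⟨m', ?_, ?_⟩
    · intro r hr
      obtain ⟨q, hq, h1, h2, h3⟩ := hm r (hsub r hr)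
      refine ⟨q, ?_, h1, h2, h3⟩
      refine (hE q hq).resolve_left fun hqc => ?_
      rw [hqc, ← he, hec] at h2
      exact hfr r hr h2.symm
    · intro G _ o u hv b
      have hagree : ∀ r ∈ pl E', val o u r = val (update o c 1) (update u c 1) r := by
        intro r hr
        simp [val, hfr r hr]
      rw [ev_congr E' hagree, ← hev G (update o c 1) (update u c 1) (by simp)]
      refine hn G _ _ (fun r hr => ?_) b
      by_cases hrc : r.crossing = c
      · rw [hrc, ← he, hec]; simp
      · have hr' := (hE r hr).resolve_left hrc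
        have hmr : m' r.crossing ≠ c := by
          intro h
          obtain ⟨q, hq, h1, h2, -⟩ := hm r hr
          rw [h1, h, ← he, hec] at h2
          exact hrc h2.symm
        have := hv r hr'
        simpa [hrc, hmr] using this
  · refine ⟨fun x => if x = e then e else m' x, ?_, ?_⟩
    · intro r hr
      by_cases hre : r.crossing = e
      · exact ⟨r, hr, by simp [hre], by simp [hre], fun h => absurd rfl h⟩
      · obtain ⟨q, hq, h1, h2, h3⟩ := hm r (hsub r hr)
        have hqc : q.crossing ≠ c := by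
          intro hqc
          rw [hqc, ← he] at h2
          exact hre h2.symm
        have hqe : q.crossing ≠ e := by
          intro hqe
          rw [hqe, hme] at h2
          exact hfr r hr h2.symm
        exact ⟨q, (hE q hq).resolve_left hqc, by simp [hre, h1], by simp [hqe, h2], h3⟩
    · intro G _ o u hv b
      have hq0' : q0 ∈ pl E' := (hE q0 hq0).resolve_left (by rw [hq1]; exact hec)
      have hue : u e = (o e)⁻¹ := by
        have := (hv q0 hq0').1 (by simp [hq1])
        rwa [hq1] at this
      have hagree : ∀ r ∈ pl E',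
          val o u r = val (update o c (o e)⁻¹) (update u c (u e)⁻¹) r := by
        intro r hr
        simp [val, hfr r hr]
      rw [ev_congr E' hagree, ← hev G (update o c (o e)⁻¹) (update u c (u e)⁻¹) (by simp [hue])]
      refine hn G _ _ (fun r hr => ?_) b
      by_cases hrc : r.crossing = c
      · rw [hrc, ← he]
        simp [hec, hue]
      · have hr' := (hE r hr).resolve_left hrc
        by_cases hre : r.crossing = e
        · rw [hre, hme]
          simp [hec, Ne.symm hec]
        · have hmr : m' r.crossing ≠ c := by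
            intro h
            obtain ⟨q, hq, h1, h2, -⟩ := hm r hr
            rw [h1, h, ← he] at h2
            exact hre h2.symm
          have := hv r hr'
          simpa [hrc, hmr, hre] using this

open Function in
theorem inv_two_up {E E' : List (Pass ⊕ ℕ)} {c d : ℕ} (hcd : c ≠ d)
    (hE : ∀ r, r ∈ pl E → r.crossing = c ∨ r.crossing = d ∨ r ∈ pl E')
    (hsub : ∀ r ∈ pl E', r ∈ pl E)
    (hfc : ∀ r ∈ pl E', r.crossing ≠ c) (hfd : ∀ r ∈ pl E', r.crossing ≠ d)
    (hev : ∀ (G : Type) [Group G] (o u : ℕ → G), o d = (o c)⁻¹ → u d = (u c)⁻¹ →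
      ev o u E 1 = ev o u E' 1)
    (hsg : ∀ r ∈ pl E, ∀ s ∈ pl E, r.crossing = c → s.crossing = d → s.isPos = !r.isPos)
    (hexc : ∃ r ∈ pl E, r.crossing = c) (hexd : ∃ r ∈ pl E, r.crossing = d)
    (h : InvE E') : InvE E := by
  obtain ⟨m', hm, hn⟩ := h
  obtain ⟨rc, hrc, hrcc⟩ := hexc
  obtain ⟨rd, hrd, hrdd⟩ := hexd
  refine ⟨fun x => if x = c then d else if x = d then c else m' x, ?_, ?_⟩
  · intro r hr
    by_cases h1 : r.crossing = c
    · refine ⟨rd, hrd, by simp [h1, hrdd], by simp [h1, hrdd, Ne.symm hcd], fun _ => ?_⟩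
      exact hsg r hr rd hrd h1 hrdd
    by_cases h2 : r.crossing = d
    · refine ⟨rc, hrc, by simp [h2, hrcc, Ne.symm hcd], by simp [h2, hrcc], fun _ => ?_⟩
      rw [hsg rc hrc r hr hrcc h2]; simp
    · have hr' : r ∈ pl E' := ((hE r hr).resolve_left h1).resolve_left h2
      obtain ⟨q, hq, e1, e2, e3⟩ := hm r hr'
      exact ⟨q, hsub q hq, by simp [h1, h2, e1], by simp [hfc q hq, hfd q hq, e2], e3⟩
  · intro G _ o u hv b
    have hc := (hv rc hrc).2 (by simp [hrcc, Ne.symm hcd])
    rw [hrcc] at hc
    simp only [if_true] at hc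
    rw [hev G o u hc.1 hc.2]
    refine hn G o u (fun r hr => ?_) b
    have := hv r (hsub r hr)
    simpa [hfc r hr, hfd r hr] using this

open Function in
/-- removing two crossings: the new matching and the extension of labels are given -/
theorem inv_two_aux {E E' : List (Pass ⊕ ℕ)} {c d : ℕ}
    (hfc : ∀ r ∈ pl E', r.crossing ≠ c) (hfd : ∀ r ∈ pl E', r.crossing ≠ d)
    (hev : ∀ (G : Type) [Group G] (o u : ℕ → G), o d = (o c)⁻¹ → u d = (u c)⁻¹ →
      ev o u E 1 = ev o u E' 1) {m' m : ℕ → ℕ} (hn : NullE E m')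
    (hlab : ∀ (G : Type) [Group G] (o u : ℕ → G), Valid (pl E') m o u →
      ∃ s t : G, Valid (pl E) m' (update (update o c s) d s⁻¹) (update (update u c t) d t⁻¹))
    (hcd : c ≠ d) : NullE E' m := by
  intro G _ o u hv b
  obtain ⟨s, t, hst⟩ := hlab G o u hv
  have hagree : ∀ r ∈ pl E',
      val o u r = val (update (update o c s) d s⁻¹) (update (update u c t) d t⁻¹) r := by
    intro r hr
    simp [val, hfc r hr, hfd r hr]
  rw [ev_congr E' hagree, ← hev G _ _ (by simp [hcd]) (by simp [hcd])]
  exact hn G _ _ hst b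

open Function in
theorem inv_two_down {E E' : List (Pass ⊕ ℕ)} {c d : ℕ} (hcd : c ≠ d)
    (hE : ∀ r, r ∈ pl E → r.crossing = c ∨ r.crossing = d ∨ r ∈ pl E')
    (hsub : ∀ r ∈ pl E', r ∈ pl E)
    (hfc : ∀ r ∈ pl E', r.crossing ≠ c) (hfd : ∀ r ∈ pl E', r.crossing ≠ d)
    (hev : ∀ (G : Type) [Group G] (o u : ℕ → G), o d = (o c)⁻¹ → u d = (u c)⁻¹ →
      ev o u E 1 = ev o u E' 1)
    (hsg : ∀ r ∈ pl E, ∀ s ∈ pl E, r.crossing = c → s.crossing = d → s.isPos = !r.isPos)
    (hcons : ∀ r ∈ pl E, ∀ s ∈ pl E, r.crossing = s.crossing → r.isPos = s.isPos)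
    (hexc : ∃ r ∈ pl E, r.crossing = c) (hexd : ∃ r ∈ pl E, r.crossing = d)
    (h : InvE E) : InvE E' := by
  obtain ⟨m', hm, hn⟩ := h
  obtain ⟨rc, hrc, hrcc⟩ := hexc
  obtain ⟨rd, hrd, hrdd⟩ := hexd
  obtain ⟨qe, hqe, hqe1, hqe2, hqe3⟩ := hm rc hrc
  obtain ⟨qf, hqf, hqf1, hqf2, hqf3⟩ := hm rd hrd
  rw [hrcc] at hqe1 hqe2 hqe3
  rw [hrdd] at hqf1 hqf2 hqf3
  obtain ⟨e, he⟩ : ∃ e, e = m' c := ⟨_, rfl⟩
  obtain ⟨f, hf⟩ : ∃ f, f = m' d := ⟨_, rfl⟩
  have hme : m' e = c := by rw [he, ← hqe1]; exact hqe2
  have hmf : m' f = d := by rw [hf, ← hqf1]; exact hqf2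
  rw [← he] at hqe1
  rw [← hf] at hqf1
  have hin : ∀ r, r ∈ pl E → r.crossing ≠ c → r.crossing ≠ d → r ∈ pl E' := fun r hr h1 h2 =>
    ((hE r hr).resolve_left h1).resolve_left h2
  -- behaviour of `m'` off `c`, `d`, `e`, `f`
  have hoff : ∀ r ∈ pl E, r.crossing ≠ e → m' r.crossing ≠ c := by
    intro r hr h h'
    obtain ⟨q, hq, h1, h2, -⟩ := hm r hr
    rw [h1, h', ← he] at h2
    exact h h2.symm
  have hoff' : ∀ r ∈ pl E, r.crossing ≠ f → m' r.crossing ≠ d := by
    intro r hr h h'
    obtain ⟨q, hq, h1, h2, -⟩ := hm r hr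
    rw [h1, h', ← hf] at h2
    exact h h2.symm
  by_cases hed : e = d
  · -- `c` and `d` are matched
    have hfc' : f = c := by rw [hf, ← hed, hme]
    refine ⟨m', ?_, inv_two_aux hfc hfd hev hn ?_ hcd⟩
    · intro r hr
      obtain ⟨q, hq, h1, h2, h3⟩ := hm r (hsub r hr)
      refine ⟨q, hin q hq ?_ ?_, h1, h2, h3⟩
      · rw [h1]; exact hoff r (hsub r hr) (by rw [hed]; exact hfd r hr)
      · rw [h1]; exact hoff' r (hsub r hr) (by rw [hfc']; exact hfc r hr)
    · intro G _ o u hv
      refine ⟨1, 1, fun r hr => ?_⟩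
      by_cases h1 : r.crossing = c
      · rw [h1, ← he, hed]; simp [hcd, Ne.symm hcd]
      by_cases h2 : r.crossing = d
      · rw [h2, ← hf, hfc']; simp [hcd, Ne.symm hcd]
      · have := hv r (hin r hr h1 h2)
        have a1 := hoff r hr (by rw [hed]; exact h2)
        have a2 := hoff' r hr (by rw [hfc']; exact h1)
        simpa [h1, h2, a1, a2] using this
  have hfc' : f ≠ c := by
    intro h
    apply hed
    rw [he, ← h, hmf]
  by_cases hec : e = c
  · by_cases hfd' : f = d
    · -- both are matched with themselves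
      refine ⟨m', ?_, inv_two_aux hfc hfd hev hn ?_ hcd⟩
      · intro r hr
        obtain ⟨q, hq, h1, h2, h3⟩ := hm r (hsub r hr)
        refine ⟨q, hin q hq ?_ ?_, h1, h2, h3⟩
        · rw [h1]; exact hoff r (hsub r hr) (by rw [hec]; exact hfc r hr)
        · rw [h1]; exact hoff' r (hsub r hr) (by rw [hfd']; exact hfd r hr)
      · intro G _ o u hv
        refine ⟨1, 1, fun r hr => ?_⟩
        by_cases h1 : r.crossing = c
        · rw [h1, ← he, hec]; simp [hcd, Ne.symm hcd]
        by_cases h2 : r.crossing = d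
        · rw [h2, ← hf, hfd']; simp [hcd, Ne.symm hcd]
        · have := hv r (hin r hr h1 h2)
          have a1 := hoff r hr (by rw [hec]; exact h1)
          have a2 := hoff' r hr (by rw [hfd']; exact h2)
          simpa [h1, h2, a1, a2] using this
    · -- `c` matched with itself, `d` with `f`
      have hqf' : qf ∈ pl E' := hin qf hqf (by rw [hqf1]; exact hfc') (by rw [hqf1]; exact hfd')
      refine ⟨fun x => if x = f then f else m' x, ?_, inv_two_aux hfc hfd hev hn ?_ hcd⟩
      · intro r hr
        by_cases hrf : r.crossing = f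
        · exact ⟨r, hr, by simp [hrf], by simp [hrf], fun h => absurd rfl h⟩
        · obtain ⟨q, hq, h1, h2, h3⟩ := hm r (hsub r hr)
          have b1 : q.crossing ≠ c := by
            rw [h1]; exact hoff r (hsub r hr) (by rw [hec]; exact hfc r hr)
          have b2 : q.crossing ≠ d := by rw [h1]; exact hoff' r (hsub r hr) hrf
          have b3 : q.crossing ≠ f := by
            intro h
            rw [h, hmf] at h2
            exact hfd r hr h2.symm
          exact ⟨q, hin q hq b1 b2, by simp [hrf, h1], by simp [b3, h2], h3⟩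
      · intro G _ o u hv
        have hu : u f = (o f)⁻¹ := by
          have := (hv qf hqf').1 (by simp [hqf1])
          rwa [hqf1] at this
        refine ⟨o f, u f, fun r hr => ?_⟩
        by_cases h1 : r.crossing = c
        · rw [h1, ← he, hec]; simp [hcd, hu]
        by_cases h2 : r.crossing = d
        · rw [h2, ← hf]; simp [hfc', hfd']
        by_cases h3 : r.crossing = f
        · rw [h3, hmf]; simp [hfc', Ne.symm hfd', hfd']
        · have := hv r (hin r hr h1 h2)
          have a1 := hoff r hr (by rw [hec]; exact h1)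
          have a2 := hoff' r hr h3
          simpa [h1, h2, h3, a1, a2] using this
  · by_cases hfd' : f = d
    · -- `d` matched with itself, `c` with `e`
      have hqe' : qe ∈ pl E' := hin qe hqe (by rw [hqe1]; exact hec) (by rw [hqe1]; exact hed)
      refine ⟨fun x => if x = e then e else m' x, ?_, inv_two_aux hfc hfd hev hn ?_ hcd⟩
      · intro r hr
        by_cases hre : r.crossing = e
        · exact ⟨r, hr, by simp [hre], by simp [hre], fun h => absurd rfl h⟩
        · obtain ⟨q, hq, h1, h2, h3⟩ := hm r (hsub r hr)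
          have b1 : q.crossing ≠ c := by rw [h1]; exact hoff r (hsub r hr) hre
          have b2 : q.crossing ≠ d := by
            rw [h1]; exact hoff' r (hsub r hr) (by rw [hfd']; exact hfd r hr)
          have b3 : q.crossing ≠ e := by
            intro h
            rw [h, hme] at h2
            exact hfc r hr h2.symm
          exact ⟨q, hin q hq b1 b2, by simp [hre, h1], by simp [b3, h2], h3⟩
      · intro G _ o u hv
        have hu : u e = (o e)⁻¹ := by
          have := (hv qe hqe').1 (by simp [hqe1])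
          rwa [hqe1] at this
        refine ⟨(o e)⁻¹, (u e)⁻¹, fun r hr => ?_⟩
        by_cases h1 : r.crossing = c
        · rw [h1, ← he]; simp [hec, hed, hcd]
        by_cases h2 : r.crossing = d
        · rw [h2, ← hf, hfd']; simp [hu]
        by_cases h3 : r.crossing = e
        · rw [h3, hme]; simp [hec, Ne.symm hec, hed, hcd]
        · have := hv r (hin r hr h1 h2)
          have a1 := hoff r hr h3
          have a2 := hoff' r hr (by rw [hfd']; exact h2)
          simpa [h1, h2, h3, a1, a2] using this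
    · -- `c` matched with `e`, `d` with `f`
      have hqe' : qe ∈ pl E' := hin qe hqe (by rw [hqe1]; exact hec) (by rw [hqe1]; exact hed)
      have hqf' : qf ∈ pl E' := hin qf hqf (by rw [hqf1]; exact hfc') (by rw [hqf1]; exact hfd')
      have hef : e ≠ f := by
        intro h
        apply hcd
        rw [← hme, h, hmf]
      have s1 := hqe3 (by rw [hqe1]; exact hec)
      have s2 := hqf3 (by rw [hqf1]; exact hfd')
      have s3 := hsg rc hrc rd hrd hrcc hrdd
      refine ⟨fun x => if x = e then f else if x = f then e else m' x, ?_,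
        inv_two_aux hfc hfd hev hn ?_ hcd⟩
      · intro r hr
        by_cases hre : r.crossing = e
        · refine ⟨qf, hqf', by simp [hre, hqf1], by simp [hre, hqf1, Ne.symm hef], fun _ => ?_⟩
          have := hcons r (hsub r hr) qe hqe (hre.trans hqe1.symm)
          rw [s2, s3, this, s1]
        by_cases hrf : r.crossing = f
        · refine ⟨qe, hqe', by simp [hrf, hqe1, Ne.symm hef], by simp [hrf, hqe1], fun _ => ?_⟩
          have := hcons r (hsub r hr) qf hqf (hrf.trans hqf1.symm)
          rw [this, s2, s3, s1]; simp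
        · obtain ⟨q, hq, h1, h2, h3⟩ := hm r (hsub r hr)
          have b1 : q.crossing ≠ c := by rw [h1]; exact hoff r (hsub r hr) hre
          have b2 : q.crossing ≠ d := by rw [h1]; exact hoff' r (hsub r hr) hrf
          have b3 : q.crossing ≠ e := by
            intro h
            rw [h, hme] at h2
            exact hfc r hr h2.symm
          have b4 : q.crossing ≠ f := by
            intro h
            rw [h, hmf] at h2
            exact hfd r hr h2.symm
          exact ⟨q, hin q hq b1 b2, by simp [hre, hrf, h1], by simp [b3, b4, h2], h3⟩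
      · intro G _ o u hv
        have hu := (hv qe hqe').2 (by simp [hqe1, Ne.symm hef])
        rw [hqe1] at hu
        simp only [if_true] at hu
        refine ⟨(o e)⁻¹, (u e)⁻¹, fun r hr => ?_⟩
        by_cases h1 : r.crossing = c
        · rw [h1, ← he]; simp [hec, hed, hcd]
        by_cases h2 : r.crossing = d
        · rw [h2, ← hf]; simp [hu, hfc', hfd']
        by_cases h3 : r.crossing = e
        · rw [h3, hme]; simp [hec, Ne.symm hec, hed, hcd]
        by_cases h4 : r.crossing = f
        · rw [h4, hmf]; simp [hfc', Ne.symm hfd', hfd', hu]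
        · have := hv r (hin r hr h1 h2)
          have a1 := hoff r hr h3
          have a2 := hoff' r hr h4
          simpa [h1, h2, h3, h4, a1, a2] using this

end Pool.Agent.Y468.SR
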