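import Pool.Agent.Y468.SR.Pair

/-! The reduction of a diagram relative to a fixed diagram at the other end of a concordance. -/

namespace Pool.Agent.Y468.SR

set_option linter.unusedSimpArgs false

/-- passages with cancelling labels -/
def Canc (m : ℕ → ℕ) (p q : Pass) : Prop :=
  (m p.crossing = p.crossing ∧ q.crossing = p.crossing ∧ q.isOver = !p.isOver) ∨
    (m p.crossing ≠ p.crossing ∧ q.crossing = m p.crossing ∧ q.isOver = p.isOver)

/-- The diagrams met in the reduction relative to the fixed word `e`. -/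
structure Good (D : Code) (e : List Pass) : Prop where
  cl : Classical D
  nd : (D.map Prod.snd).Nodup
  zero : ∃ C ∈ D, C.2 = 0
  wf : WF (passes D ++ e)
  inv : Inv (D ++ [(e, 0)])

/-- the planarity condition relative to a fixed word -/
def NullR (D : Code) (e : List Pass) (m : ℕ → ℕ) : Prop :=
  ∀ (G : Type) [Group G] (o u : ℕ → G), Valid (passes D ++ e) m o u →
    ∀ C ∈ D, (C.2 ≠ 0 → wval o u C.1 = 1) ∧ (C.2 = 0 → CN [wval o u C.1, wval o u e])

theorem bv_append {G : Type} (L L' : List (G × ℕ)) (b : ℕ) : bv (L ++ L') b = bv L b ++ bv L' b := by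
  simp [bv]

theorem vals_append {G : Type} [Group G] (o u : ℕ → G) (D D' : Code) :
    vals o u (D ++ D') = vals o u D ++ vals o u D' := by simp [vals]

theorem passes_snoc (D : Code) (e : List Pass) (b : ℕ) : passes (D ++ [(e, b)]) = passes D ++ e := by
  simp

theorem nullR_of_inv {D : Code} {e : List Pass} (hn : (D.map Prod.snd).Nodup)
    (h : Inv (D ++ [(e, 0)])) : ∃ m, Matching (passes D ++ e) m ∧ NullR D e m := by
  obtain ⟨m, hm, h⟩ := (inv_def _).1 h
  rw [passes_snoc] at hm h
  refine ⟨m, hm, fun G _ o u hv C hC => ?_⟩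
  have := h G o u hv C.2
  rw [vals_append, bv_append, bv_vals_singleton hn hC] at this
  have e1 : vals o u [(e, 0)] = [(wval o u e, 0)] := rfl
  rw [e1, bv_cons, bv_nil] at this
  refine ⟨fun h0 => ?_, fun h0 => ?_⟩
  · rw [if_neg (fun h' : (0 : ℕ) = C.2 => h0 h'.symm), List.append_nil] at this
    exact CN.singleton.1 this
  · rw [if_pos h0.symm] at this
    exact this

theorem inv_of_nullR {D : Code} {e : List Pass} (hn : (D.map Prod.snd).Nodup)
    (h0 : ∃ C ∈ D, C.2 = 0) {m : ℕ → ℕ} (hm : Matching (passes D ++ e) m) (hN : NullR D e m) :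
    Inv (D ++ [(e, 0)]) := by
  rw [inv_def, passes_snoc]
  refine ⟨m, hm, fun G _ o u hv b => ?_⟩
  have e1 : vals o u [(e, 0)] = [(wval o u e, 0)] := rfl
  rw [vals_append, bv_append, e1, bv_cons, bv_nil]
  by_cases hb : b = 0
  · subst hb
    obtain ⟨C, hC, h0⟩ := h0
    have := (hN G o u hv C hC).2 h0
    rw [← h0, bv_vals_singleton hn hC, h0, if_pos rfl]
    exact this
  · rw [if_neg (fun h' : (0 : ℕ) = b => hb h'.symm), List.append_nil]
    refine cn_of_one fun x hx => ?_
    simp only [bv, vals, List.mem_map, List.mem_filter] at hx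
    obtain ⟨y, ⟨⟨C, hC, rfl⟩, h1⟩, rfl⟩ := hx
    simp only [decide_eq_true_eq] at h1
    exact (hN G o u hv C hC).1 (by rw [h1]; exact hb)

/-- The result of one step of the reduction. -/
def RedR (D : Code) (e : List Pass) : Prop :=
  ∃ D', (passes D').length < (passes D).length ∧ Good D' e ∧ Movie false false D D'

theorem zero_of_labels {D D' : Code} (h : D'.map Prod.snd = D.map Prod.snd)
    (h0 : ∃ C ∈ D, C.2 = 0) : ∃ C ∈ D', C.2 = 0 := by
  obtain ⟨C, hC, h0⟩ := h0
  have : C.2 ∈ D'.map Prod.snd := by rw [h]; exact List.mem_map_of_mem hC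
  obtain ⟨C', hC', h'⟩ := List.mem_map.1 this
  exact ⟨C', hC', by rw [h', h0]⟩

theorem caseAR {D : Code} {e : List Pass} (hG : Good D e) {C : List Pass × ℕ} (hC : C ∈ D)
    {a c : List Pass} {p q : Pass} (h : C.1 = a ++ p :: q :: c)
    (h1 : q.crossing = p.crossing) (h2 : q.isOver = !p.isOver) : RedR D e := by
  have hD := hG.cl
  have hp : p ∈ passes D := mem_passes.2 ⟨C, hC, by simp [h]⟩
  have hq : q ∈ passes D := mem_passes.2 ⟨C, hC, by simp [h]⟩
  have hqp : q = p.mate := by
    rcases hD.1.eq_mate hp hq h1 with rfl | rfl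
    · simp at h2
    · rfl
  subst hqp
  obtain ⟨D', A, B, e1, e2, e3⟩ := exists_remove hC h
  have hperm : (passes D).Perm ([p, p.mate] ++ passes D') := by
    rw [← pl_enc, ← pl_enc, e1, e2]
    simp only [pl_append, pl_two, List.append_assoc]
    rw [← List.append_assoc, ← List.append_assoc]
    exact List.Perm.append_right _ List.perm_append_comm
  have hW : WF ([p, p.mate] ++ passes D') := WF.perm hperm hD.1
  have hW' : WF (passes D') := hW.remove (by simp)
  have hD' : Classical D' := by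
    refine ⟨hW', planar_iff.2 ?_⟩
    rw [e2]
    refine planarE_one (p := p) (fun r hr => ?_) ?_
    · rw [← e2, pl_enc] at hr
      exact hW.ne_crossing (by simp) (by simp) hr
    · rw [← e1]; exact planar_iff.1 hD.2
  have hR : Reid false (enc D) (enc D') := by
    rw [e1, e2]; exact Reid.one A B p
  have hR' : Reid false (enc (D ++ [(e, 0)])) (enc (D' ++ [(e, 0)])) := by
    rw [enc_append, enc_append, e1, e2]
    have := Reid.one (r3 := false) A (B ++ enc [(e, 0)]) p
    simpa only [List.append_assoc] using this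
  have hWe : WF (passes D' ++ e) := by
    refine WF.remove (k := [p, p.mate]) (WF.perm ?_ hG.wf) (by simp)
    rw [← List.append_assoc]
    exact List.Perm.append_right _ hperm
  have hI : Inv (D' ++ [(e, 0)]) := by
    refine step_inv (births := false) (D' := D ++ [(e, 0)]) ?_ ?_ (Step.reidInv _ _ hR') hG.inv
    · rw [wf_iff, passes_snoc]; exact hWe
    · rw [wf_iff, passes_snoc]; exact hG.wf
  refine ⟨D', ?_, ⟨hD', by rw [e3]; exact hG.nd, zero_of_labels e3 hG.zero, hWe, hI⟩,
    Movie.head hD hD' (Step.reid D D' hR) Relation.ReflTransGen.refl⟩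
  rw [hperm.length_eq]; simp

theorem cut_movie {p q : Pass} {y z : List Pass} {b b' : ℕ} {R : Code}
    (hD : Classical ((p :: (y ++ q :: z), b) :: R)) (hpq : p.crossing ≠ q.crossing)
    (ho : q.isOver = p.isOver) (hs : q.isPos = !p.isPos) (hb' : b' ≠ b ∧ ∀ C ∈ R, C.2 ≠ b')
    {b₁ b₂ : ℕ} (hb : (b₁ = b ∧ b₂ = b') ∨ (b₁ = b' ∧ b₂ = b)) {C₃ : List Pass × ℕ}
    (hC₃ : C₃ ∈ ((z, b₁) :: (y, b₂) :: R)) {a₃ c₃ : List Pass}
    (h₃ : C₃.1 = a₃ ++ p.mate :: q.mate :: c₃) :
    (passes ((p :: (y ++ q :: z), b) :: R)).Perm (passes ((p :: q :: z, b₁) :: (y, b₂) :: R)) ∧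
    Classical ((p :: q :: z, b₁) :: (y, b₂) :: R) ∧
    Movie false false ((p :: (y ++ q :: z), b) :: R) ((p :: q :: z, b₁) :: (y, b₂) :: R) := by
  have hperm₃ : (passes ((p :: (y ++ q :: z), b) :: R)).Perm
      ([p, q] ++ passes ((z, b₁) :: (y, b₂) :: R)) := by
    simp only [passes_cons, List.cons_append, List.nil_append, List.append_assoc]
    refine List.Perm.cons _ ?_
    have : (y ++ (q :: (z ++ passes R))).Perm (q :: (y ++ (z ++ passes R))) := List.perm_middle
    refine this.trans (List.Perm.cons _ ?_)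
    rw [← List.append_assoc, ← List.append_assoc]
    exact List.Perm.append_right _ List.perm_append_comm
  have hn₃ : (passes ((z, b₁) :: (y, b₂) :: R)).Nodup :=
    (List.nodup_append.1 (hperm₃.nodup (WF.nodup hD.1))).2.1
  have hadj := adj_all hn₃ hC₃ h₃
  have hpm : p.mate ∈ y ∨ p.mate ∈ z ∨ ∃ C ∈ R, p.mate ∈ C.1 := by
    simp only [List.mem_cons] at hC₃
    rcases hC₃ with rfl | rfl | hC₃
    · right; left; simp only at h₃; rw [h₃]; simp
    · left; simp only at h₃; rw [h₃]; simp
    · right; right; exact ⟨C₃, hC₃, by rw [h₃]; simp⟩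
  have hpl : ∀ b₁ b₂, Planar ((p :: q :: z, b₁) :: (y, b₂) :: R) := by
    intro b₃ b₄
    refine planar_saddle (b := b) hD.1 hpq ho hs (hadj (y, b₂) (by simp)) (hadj (z, b₁) (by simp))
      (fun C hC => hadj C (by simp [hC])) hpm hD.2
  have hperm₄ : ∀ b₁ b₂, (passes ((p :: (y ++ q :: z), b) :: R)).Perm
      (passes ((p :: q :: z, b₁) :: (y, b₂) :: R)) := by
    intro b₃ b₄
    refine hperm₃.trans ?_
    simp
  have hD₄ : ∀ b₁ b₂, Classical ((p :: q :: z, b₁) :: (y, b₂) :: R) :=
    fun b₁ b₂ => ⟨WF.perm (hperm₄ b₁ b₂) hD.1, hpl b₁ b₂⟩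
  refine ⟨hperm₄ b₁ b₂, hD₄ b₁ b₂, ?_⟩
  have hmap : (R.map fun C => (C.1, if C.2 = b' then b else C.2)) = R := by
    conv_rhs => rw [← List.map_id R]
    refine List.map_congr_left fun C hC => ?_
    simp [hb'.2 C hC]
  rcases hb with ⟨rfl, rfl⟩ | ⟨rfl, rfl⟩
  · have s1 : Classical (((q :: z) ++ (p :: y), b₁) :: R) :=
      classical_rotate (x := p :: y) (y := q :: z) (b := b₁) (by simpa using hD)
    have s2 : Step false false ((p :: (y ++ q :: z), b₁) :: R) (((q :: z) ++ (p :: y), b₁) :: R) := by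
      have := Step.rotate (r3 := false) (births := false) (p :: y) (q :: z) b₁ R
      simpa using this
    have s3 : Classical ((q :: z ++ [p], b₁) :: (y, b₂) :: R) :=
      classical_rotate (x := [p]) (y := q :: z) (b := b₁) (by simpa using hD₄ b₁ b₂)
    have s4 : Step false false (((q :: z) ++ (p :: y), b₁) :: R)
        ((q :: z ++ [p], b₁) :: (y, b₂) :: R) := by
      have := Step.split (r3 := false) (births := false) (q :: z ++ [p]) y b₁ b₂ R hb'.1.symm
      rw [hmap] at this
      simpa using this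
    have s5 : Step false false ((q :: z ++ [p], b₁) :: (y, b₂) :: R)
        ((p :: q :: z, b₁) :: (y, b₂) :: R) := by
      have := Step.rotate (r3 := false) (births := false) (q :: z) [p] b₁ ((y, b₂) :: R)
      simpa using this
    exact Movie.head hD s1 s2 (Movie.head s1 s3 s4 (Movie.head s3 (hD₄ b₁ b₂) s5
      Relation.ReflTransGen.refl))
  · have s1 : Classical ((y ++ (q :: z ++ [p]), b₂) :: R) := by
      have := classical_rotate (x := [p]) (y := y ++ q :: z) (b := b₂) (b' := b₂) (R := R)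
        (by simpa using hD)
      simpa using this
    have s2 : Step false false ((p :: (y ++ q :: z), b₂) :: R) ((y ++ (q :: z ++ [p]), b₂) :: R) := by
      have := Step.rotate (r3 := false) (births := false) [p] (y ++ q :: z) b₂ R
      simpa using this
    have s3 : Classical ((q :: z ++ [p], b₁) :: (y, b₂) :: R) :=
      classical_rotate (x := [p]) (y := q :: z) (b := b₁) (by simpa using hD₄ b₁ b₂)
    have s3' : Classical ((y, b₂) :: (q :: z ++ [p], b₁) :: R) :=
      classical_perm (List.Perm.swap _ _ _) s3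
    have s4 : Step false false ((y ++ (q :: z ++ [p]), b₂) :: R)
        ((y, b₂) :: (q :: z ++ [p], b₁) :: R) := by
      have := Step.split (r3 := false) (births := false) y (q :: z ++ [p]) b₂ b₁ R hb'.1.symm
      rw [hmap] at this
      exact this
    have s5 : Step false false ((y, b₂) :: (q :: z ++ [p], b₁) :: R)
        ((q :: z ++ [p], b₁) :: (y, b₂) :: R) := Step.perm _ _ (List.Perm.swap _ _ _)
    have s6 : Step false false ((q :: z ++ [p], b₁) :: (y, b₂) :: R)
        ((p :: q :: z, b₁) :: (y, b₂) :: R) := by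
      have := Step.rotate (r3 := false) (births := false) (q :: z) [p] b₁ ((y, b₂) :: R)
      simpa using this
    exact Movie.head hD s1 s2 (Movie.head s1 s3' s4 (Movie.head s3' s3 s5
      (Movie.head s3 (hD₄ b₁ b₂) s6 Relation.ReflTransGen.refl)))

theorem r2_after {p q : Pass} {y z : List Pass} {R : Code} {b₁ b₂ : ℕ}
    (hD₄ : Classical ((p :: q :: z, b₁) :: (y, b₂) :: R)) (hpq : p.crossing ≠ q.crossing)
    (h2 : q.isOver = p.isOver) (hs : q.isPos = !p.isPos) {C₃ : List Pass × ℕ}
    (hC₃ : C₃ ∈ ((z, b₁) :: (y, b₂) :: R)) {a₃ c₃ : List Pass}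
    (h₃ : C₃.1 = a₃ ++ p.mate :: q.mate :: c₃) :
    ∃ D', Classical D' ∧
      D'.map Prod.snd = ((p :: q :: z, b₁) :: (y, b₂) :: R).map Prod.snd ∧
      (passes ((p :: q :: z, b₁) :: (y, b₂) :: R)).Perm ([p, q, p.mate, q.mate] ++ passes D') ∧
      ∀ X, Reid false (enc ((p :: q :: z, b₁) :: (y, b₂) :: R) ++ X) (enc D' ++ X) := by
  obtain ⟨D', A, B, f1, f2, f3⟩ := exists_remove hC₃ h₃
  have g1 : enc ((p :: q :: z, b₁) :: (y, b₂) :: R) =
      [] ++ two p q ++ A ++ two p.mate q.mate ++ B := by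
    have : enc ((p :: q :: z, b₁) :: (y, b₂) :: R) = two p q ++ enc ((z, b₁) :: (y, b₂) :: R) := by
      simp [two]
    rw [this, f1]; simp
  have g2 : enc D' = [] ++ A ++ B := by rw [f2]; simp
  have hperm₅ : (passes ((p :: q :: z, b₁) :: (y, b₂) :: R)).Perm
      ([p, q, p.mate, q.mate] ++ passes D') := by
    rw [← pl_enc, ← pl_enc, g1, g2]
    simp only [pl_append, pl_two, List.append_assoc, pl_nil, List.nil_append, List.cons_append]
    refine List.Perm.cons _ (List.Perm.cons _ ?_)
    have : (pl A ++ (p.mate :: (q.mate :: pl B))).Perm (p.mate :: (pl A ++ (q.mate :: pl B))) :=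
      List.perm_middle
    exact this.trans (List.Perm.cons _ List.perm_middle)
  have hW₅ : WF ([p, q, p.mate, q.mate] ++ passes D') := WF.perm hperm₅ hD₄.1
  have hW₆ : WF (passes D') := hW₅.remove (by simp)
  have hD' : Classical D' := by
    refine ⟨hW₆, planar_iff.2 ?_⟩
    rw [g2]
    refine planarE_two (p := p) (q := q) (fun r hr => ?_) hpq h2.symm hs ?_
    · rw [← g2, pl_enc] at hr
      exact ⟨hW₅.ne_crossing (by simp) (by simp) hr, hW₅.ne_crossing (by simp) (by simp) hr⟩
    · rw [← g1]; exact planar_iff.1 hD₄.2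
  refine ⟨D', hD', ?_, hperm₅, fun X => ?_⟩
  · rw [f3]; simp
  · rw [g1, g2]
    have := Reid.twoSame (r3 := false) [] A (B ++ X) p q hpq h2.symm hs
    simpa only [List.append_assoc] using this

theorem fix_of_conj {G : Type} [Group G] {Y Z E : G}
    (h : CN [(Equiv.sumComm G G : Equiv.Perm (G ⊕ G)) * lft G Y *
      (Equiv.sumComm G G : Equiv.Perm (G ⊕ G))⁻¹ * lft G Z, lft G E]) : Y = 1 ∨ Z = 1 := by
  rw [cn_pair] at h
  obtain ⟨g, h⟩ := h
  have h1 := congrArg (fun f : Equiv.Perm (G ⊕ G) => f (g (Sum.inr 1))) h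
  simp only [Equiv.Perm.mul_apply, Equiv.Perm.one_apply, Equiv.Perm.inv_def,
    Equiv.symm_apply_apply, lft_inr] at h1
  rcases hx : g (Sum.inr 1) with x | x
  · right
    rw [hx, lft_inl] at h1
    have e1 : (Equiv.sumComm G G).symm (Sum.inl (Z * x)) = Sum.inr (Z * x) := rfl
    rw [e1, lft_inr] at h1
    have e2 : Equiv.sumComm G G (Sum.inr (Z * x)) = Sum.inl (Z * x) := rfl
    rw [e2] at h1
    simpa using h1
  · left
    rw [hx, lft_inr] at h1
    have e1 : (Equiv.sumComm G G).symm (Sum.inr x) = Sum.inl x := rfl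
    rw [e1, lft_inl] at h1
    have e2 : Equiv.sumComm G G (Sum.inl (Y * x)) = Sum.inr (Y * x) := rfl
    rw [e2] at h1
    simpa using h1

/-- all labels come from those in the free group -/
theorem univ {G : Type} [Group G] {P : List Pass} {m : ℕ → ℕ} {o u : ℕ → G}
    (hv : Valid P m o u) : ∃ φ : FreeGroup (ℕ × Bool) →* G, ∀ w : List Pass, (∀ r ∈ w, r ∈ P) →
      φ (wval (fo m) (fu m) w) = wval o u w := by
  refine ⟨FreeGroup.lift fun x => if x.2 = true then o x.1 else u x.1, fun w hw => ?_⟩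
  induction w with
  | nil => simp
  | cons r w ih =>
    rw [wval_cons, wval_cons, map_mul, ih fun r' hr' => hw r' (by simp [hr'])]
    congr 1
    rw [val_letter]
    obtain ⟨h1, h2⟩ := hv r (hw r (by simp))
    unfold letter val
    by_cases c1 : m r.crossing = r.crossing
    · rw [if_pos c1]
      cases hr : r.isOver
      · simp [h1 c1]
      · simp
    · obtain ⟨h3, h4⟩ := h2 c1
      rw [if_neg c1]
      by_cases c2 : r.crossing < m r.crossing
      · rw [if_pos c2]
        cases hr : r.isOver <;> simp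
      · rw [if_neg c2]
        cases hr : r.isOver <;> simp [h3, h4]

end Pool.Agent.Y468.SR
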