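import Pool.Agent.Y468.SR.Planar

/-! Planarity and well-formedness are preserved by the removal of crossings by moves of types I
and II. -/

namespace Pool.Agent.Y468.SR

set_option linter.unusedSimpArgs false

/-- the values of `u` on both sides of the edge before the passage -/
def bU (u : ℕ × Bool × Bool → ℤ) (p : Pass) : ℤ × ℤ := (u (p.corner false true), u (p.corner false false))

/-- the values of `u` on both sides of the edge behind the passage -/
def fU (u : ℕ × Bool × Bool → ℤ) (p : Pass) : ℤ × ℤ := (u (p.corner true true), u (p.corner true false))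

/-- planarity for words -/
def PlanarE (E : List (Pass ⊕ ℕ)) : Prop :=
  ∀ back front : Pass → ℤ, (∃ t, RunE back front t t E) →
    (∀ p ∈ pl E, back p + back p.mate = front p + front p.mate) →
    ∃ u : ℕ × Bool × Bool → ℤ, (∃ t, RunE (bU u) (fU u) t t E) ∧
      ∀ p ∈ pl E, (bU u p).1 - (bU u p).2 = back p ∧ (fU u p).1 - (fU u p).2 = front p

theorem planar_iff {D : Code} : Planar D ↔ PlanarE (enc D) := by
  unfold Planar PlanarE
  simp only [runE_enc, pl_enc]
  rfl

section run
variable {S : Type} {back front : Pass → S}

theorem runE_mid {s₀ s : S} {A B : List (Pass ⊕ ℕ)} {p q : Pass}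
    (hr : RunE back front s₀ s (A ++ two p q ++ B)) : front p = back q := by
  induction A generalizing s₀ s with
  | nil =>
    simp only [two, List.nil_append, List.cons_append, RunE] at hr
    exact hr.2.1
  | cons a A ih =>
    rcases a with r | b
    · simp only [List.cons_append, RunE] at hr
      exact ih hr.2
    · simp only [List.cons_append, RunE] at hr
      obtain ⟨h1, t, h2⟩ := hr
      exact ih h2

end run

/-- well-formed lists of passages -/
def WF (l : List Pass) : Prop :=
  (∀ p ∈ l, p.mate ∈ l) ∧ (l.map fun p => (p.crossing, p.isOver)).Nodup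

theorem wf_iff {D : Code} : WellFormed D ↔ WF (passes D) := Iff.rfl

@[simp] theorem mate_mate' (p : Pass) : p.mate.mate = p := by simp [Pass.mate]

theorem WF.perm {l l' : List Pass} (hp : l.Perm l') (h : WF l) : WF l' :=
  ⟨fun p hp' => hp.subset (h.1 p (hp.symm.subset hp')), (hp.map _).nodup h.2⟩

theorem WF.remove {k l : List Pass} (h : WF (k ++ l)) (hk : ∀ p ∈ k, p.mate ∈ k) : WF l := by
  have hn : (k ++ l).Nodup := List.Nodup.of_map _ h.2
  refine ⟨fun p hp => ?_, ?_⟩
  · rcases List.mem_append.1 (h.1 p (by simp [hp])) with h1 | h1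
    · have h2 := hk _ h1
      rw [mate_mate'] at h2
      exact absurd hp ((List.nodup_append.1 hn).2.2 p h2 p · rfl)
    · exact h1
  · have := h.2
    rw [List.map_append] at this
    exact (List.nodup_append.1 this).2.1

theorem WF.nodup {l : List Pass} (h : WF l) : l.Nodup := List.Nodup.of_map _ h.2

theorem WF.ne_crossing {k l : List Pass} (h : WF (k ++ l)) {p q : Pass} (hp : p ∈ k)
    (hk : p.mate ∈ k) (hq : q ∈ l) : q.crossing ≠ p.crossing := by
  intro hc
  have hn := h.2
  rw [List.map_append] at hn
  have hd := (List.nodup_append.1 hn).2.2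
  by_cases ho : q.isOver = p.isOver
  · exact hd _ (List.mem_map_of_mem hp) _ (List.mem_map_of_mem hq) (by simp [hc, ho])
  · refine hd _ (List.mem_map_of_mem hk) _ (List.mem_map_of_mem hq) ?_
    simp only [Pass.mate, hc]
    cases h1 : q.isOver <;> cases h2 : p.isOver <;> simp_all

/-- removal of a crossing by a move of type I -/
theorem planarE_one {A B : List (Pass ⊕ ℕ)} {p : Pass}
    (hw : ∀ r ∈ pl (A ++ B), r.crossing ≠ p.crossing)
    (h : PlanarE (A ++ two p p.mate ++ B)) : PlanarE (A ++ B) := by
  intro back front ⟨t, ht⟩ hc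
  obtain ⟨m, hm⟩ := runE_insert ht
  obtain ⟨u, ⟨t', hu⟩, hd⟩ := h (fun r => if r.crossing = p.crossing then m else back r)
    (fun r => if r.crossing = p.crossing then m else front r)
    ⟨t, hm _ _ p p.mate (fun r hr => by simp [hw r hr]) (by simp) (by simp) (by simp [Pass.mate])
      (by simp [Pass.mate])⟩
    (by
      intro r hr
      have hmr : r.mate.crossing = r.crossing := rfl
      simp only [hmr]
      split_ifs with h1
      · rfl
      · refine hc r ?_
        simp only [pl_append, pl_two, List.mem_append, List.mem_cons, List.not_mem_nil, or_false] at hr ⊢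
        rcases hr with (hr | rfl | rfl) | hr
        · exact Or.inl hr
        · exact absurd rfl h1
        · exact absurd rfl h1
        · exact Or.inr hr)
  refine ⟨u, ⟨t', runE_remove ?_ hu⟩, fun r hr => ?_⟩
  · have h2 := runE_mid hu
    obtain ⟨c, τ, s⟩ := p
    cases τ <;> cases s <;> simp_all [bU, fU, Pass.corner, Pass.mate]
  · have := hd r (by
      simp only [pl_append, pl_two, List.mem_append] at hr ⊢
      rcases hr with hr | hr
      · exact Or.inl (Or.inl hr)
      · exact Or.inr hr)
    simpa [hw r hr] using this

/-- removal of two crossings by a move of type II -/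
theorem planarE_two {A B C : List (Pass ⊕ ℕ)} {p q : Pass}
    (hw : ∀ r ∈ pl (A ++ B ++ C), r.crossing ≠ p.crossing ∧ r.crossing ≠ q.crossing)
    (hpq : p.crossing ≠ q.crossing) (ho : p.isOver = q.isOver) (hs : q.isPos = !p.isPos)
    (h : PlanarE (A ++ two p q ++ B ++ two p.mate q.mate ++ C)) : PlanarE (A ++ B ++ C) := by
  intro back front ⟨t, ht⟩ hc
  rw [List.append_assoc] at ht
  obtain ⟨m₁, hm₁⟩ := runE_insert ht
  have h1 := hm₁ (fun r => if r = p ∨ r = q then m₁ else back r)
    (fun r => if r = p ∨ r = q then m₁ else front r) p q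
    (fun r hr => by
      have := hw r (by simpa using hr)
      have h1 : r ≠ p := fun h => this.1 (by rw [h])
      have h2 : r ≠ q := fun h => this.2 (by rw [h])
      simp [h1, h2]) (by simp) (by simp) (by simp) (by simp)
  rw [← List.append_assoc] at h1
  obtain ⟨m₂, hm₂⟩ := runE_insert h1
  have e1 : p.mate ≠ p := by intro h; simpa [Pass.mate] using congrArg Pass.isOver h
  have e2 : q.mate ≠ q := by intro h; simpa [Pass.mate] using congrArg Pass.isOver h
  have e3 : p.mate ≠ q := fun h => hpq (congrArg Pass.crossing h : p.mate.crossing = q.crossing)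
  have e4 : q.mate ≠ p := fun h =>
    hpq (congrArg Pass.crossing h : q.mate.crossing = p.crossing).symm
  have e5 : p ≠ q := fun h => hpq (congrArg Pass.crossing h)
  have e6 : p.mate ≠ q.mate := fun h =>
    hpq (congrArg Pass.crossing h : p.mate.crossing = q.mate.crossing)
  obtain ⟨u, ⟨t', hu⟩, hd⟩ := h
    (fun r => if r = p ∨ r = q then m₁ else if r = p.mate ∨ r = q.mate then m₂ else back r)
    (fun r => if r = p ∨ r = q then m₁ else if r = p.mate ∨ r = q.mate then m₂ else front r)
    ⟨t, hm₂ _ _ p.mate q.mate (fun r hr => by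
      by_cases h1 : r = p ∨ r = q
      · simp [h1]
      · have := hw r (by
          simp only [pl_append, pl_two, List.mem_append, List.mem_cons, List.not_mem_nil,
            or_false] at hr ⊢
          tauto)
        have h3 : r ≠ p.mate := fun h => this.1 (by rw [h]; rfl)
        have h4 : r ≠ q.mate := fun h => this.2 (by rw [h]; rfl)
        simp [h1, h3, h4]) (by simp [e1, e3]) (by simp [e1, e3]) (by simp [e2, e4])
        (by simp [e2, e4])⟩
    (by
      intro r hr
      by_cases h1 : r = p
      · subst h1; simp [e1, e3]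
      by_cases h2 : r = q
      · subst h2; simp [e2, e4]
      by_cases h3 : r = p.mate
      · subst h3; simp [e1, e3]
      by_cases h4 : r = q.mate
      · subst h4; simp [e2, e4]
      have h5 : r.mate ≠ p := by rintro rfl; simp at h3
      have h6 : r.mate ≠ q := by rintro rfl; simp at h4
      have h7 : r.mate ≠ p.mate := fun h => h1 (by simpa using congrArg Pass.mate h)
      have h8 : r.mate ≠ q.mate := fun h => h2 (by simpa using congrArg Pass.mate h)
      simp only [h1, h2, h3, h4, h5, h6, h7, h8, or_self, if_false]
      refine hc r ?_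
      simp only [pl_append, pl_two, List.mem_append, List.mem_cons, List.not_mem_nil,
            or_false] at hr ⊢
      tauto)
  have hA := runE_mid hu
  have hB : fU u p = bU u q := by
    have hu' := hu
    rw [List.append_assoc, List.append_assoc] at hu'
    exact runE_mid hu'
  have hp := hd p (by simp)
  have hq := hd q (by simp)
  have hp' := hd p.mate (by simp)
  have hq' := hd q.mate (by simp)
  simp only [e1, e2, e3, e4, true_or, or_true, if_true, or_self, if_false] at hp hq hp' hq'
  have key : fU u q = bU u p ∧ fU u q.mate = bU u p.mate := by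
    obtain ⟨c, τ, s⟩ := p
    obtain ⟨d, τ', s'⟩ := q
    simp only at ho hs
    subst ho hs
    clear hm₁ h1 hm₂ hu h hw ht hc hd e1 e2 e3 e4 e5 e6 hpq
    cases τ <;> cases s <;>
      simp only [bU, fU, Pass.corner, Pass.mate, Prod.mk.injEq, if_true, if_false, Bool.not_true, Bool.not_false,
        Bool.xor_true, Bool.xor_false, Bool.true_xor, Bool.false_xor, Bool.false_eq_true] at * <;> 
      refine ⟨⟨?_, ?_⟩, ?_, ?_⟩ <;> omega
  refine ⟨u, ⟨t', ?_⟩, fun r hr => ?_⟩
  · have h3 := runE_remove key.2 hu
    rw [List.append_assoc] at h3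
    have h4 := runE_remove key.1 h3
    rw [List.append_assoc]
    exact h4
  · have h0 := hw r hr
    have := hd r (by
      simp only [pl_append, pl_two, List.mem_append, List.mem_cons, List.not_mem_nil,
            or_false] at hr ⊢
      tauto)
    have h1 : r ≠ p := fun h => h0.1 (by rw [h])
    have h2 : r ≠ q := fun h => h0.2 (by rw [h])
    have h3 : r ≠ p.mate := fun h => h0.1 (by rw [h]; rfl)
    have h4 : r ≠ q.mate := fun h => h0.2 (by rw [h]; rfl)
    simpa [h1, h2, h3, h4] using this

end Pool.Agent.Y468.SR
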