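import Pool.Agent.Y468.SR.Labels

/-! Movies without births can be run backwards. -/

namespace Pool.Agent.Y468.SR

/-- all components belong to the same piece -/
def zero (D : Code) : Code := D.map fun C => (C.1, 0)

@[simp] theorem zero_nil : zero [] = [] := rfl
@[simp] theorem zero_cons (C : List Pass × ℕ) (D : Code) : zero (C :: D) = (C.1, 0) :: zero D := rfl

theorem passes_zero (D : Code) : passes (zero D) = passes D := passes_relabel D fun _ => 0

theorem classical_zero {D : Code} (h : Classical D) : Classical (zero D) := by
  refine ⟨?_, ?_⟩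
  · have := h.1; unfold WellFormed at this ⊢; rwa [passes_zero]
  · intro back front h1 h2
    rw [passes_zero] at h2
    obtain ⟨u, h3, h4⟩ := h.2 back front
      (fun C hC => h1 (C.1, 0) (List.mem_map_of_mem (f := fun C => (C.1, 0)) hC)) h2
    refine ⟨u, fun C hC => ?_, by rwa [passes_zero]⟩
    obtain ⟨C', hC', rfl⟩ := List.mem_map.1 hC
    exact h3 C' hC'

/-- replacing all labels in a word -/
def ezero (E : List (Pass ⊕ ℕ)) : List (Pass ⊕ ℕ) := E.map (Sum.map id fun _ => 0)

theorem enc_zero (D : Code) : enc (zero D) = ezero (enc D) := by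
  induction D with
  | nil => rfl
  | cons C D ih => simp [ih, ezero, Function.comp_def]

theorem reid_zero {r3 : Bool} {E E' : List (Pass ⊕ ℕ)} (h : Reid r3 E E') :
    Reid r3 (ezero E) (ezero E') := by
  have e : ∀ p q, ezero (two p q) = two p q := fun _ _ => rfl
  have ea : ∀ X Y, ezero (X ++ Y) = ezero X ++ ezero Y := fun _ _ => List.map_append
  cases h with
  | one A B p => simp only [ea, e]; exact Reid.one _ _ p
  | twoSame A B C p q h ho hs => simp only [ea, e]; exact Reid.twoSame _ _ _ p q h ho hs
  | twoOpp A B C p q h ho hs => simp only [ea, e]; exact Reid.twoOpp _ _ _ p q h ho hs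
  | three h A B C E X Y Z t m b hT hP => simp only [ea, e]; exact Reid.three h _ _ _ _ X Y Z t m b hT hP

theorem renamed_renamed_inv {f : ℕ → ℕ} {D : Code} (hf : ∀ p ∈ passes D, ∀ q ∈ passes D,
    f p.crossing = f q.crossing → p.crossing = q.crossing) :
    ∃ g : ℕ → ℕ, renamed g (renamed f D) = D ∧ ∀ p ∈ passes D, g (f p.crossing) = p.crossing := by
  classical
  obtain ⟨g, hg⟩ : ∃ g : ℕ → ℕ, ∀ p ∈ passes D, g (f p.crossing) = p.crossing := by
    refine ⟨fun y => if h : ∃ p ∈ passes D, f p.crossing = y then h.choose.crossing else 0,
      fun p hp => ?_⟩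
    have h1 : ∃ p' ∈ passes D, f p'.crossing = f p.crossing := ⟨p, hp, rfl⟩
    simp only
    rw [dif_pos h1]
    exact hf _ h1.choose_spec.1 p hp h1.choose_spec.2
  refine ⟨g, ?_, hg⟩
  unfold renamed
  rw [List.map_map]
  conv_rhs => rw [← List.map_id D]
  refine List.map_congr_left fun C hC => ?_
  simp only [Function.comp, List.map_map, id]
  refine Prod.ext ?_ rfl
  simp only
  conv_rhs => rw [← List.map_id C.1]
  refine List.map_congr_left fun p hp => ?_
  simp only [Function.comp, id, hg p (mem_passes.2 ⟨C, hC, hp⟩)]

theorem step_nil {r3 : Bool} {D D' : Code} (h : Step r3 false D D') (hD : D = []) : D' = [] := by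
  cases h with
  | perm _ _ h => subst hD; exact h.nil_eq.symm
  | rename f _ hf => subst hD; rfl
  | rotate x y b R => simp at hD
  | reid _ _ h => have := labels_reid h; subst hD; simpa using this.symm
  | reidInv _ _ h => have := labels_reid h; subst hD; simpa using this
  | death b R hb => simp at hD
  | birth h b R hb => simp at h
  | split x y b b' R hb => simp at hD
  | merge x y b R => simp at hD

/-- a step run backwards -/
theorem step_rev {D D' : Code} (h : Step false false D D') (hn : (D.map Prod.snd).Nodup)
    (hD' : D' ≠ []) : Step false true (zero D') (zero D) := by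
  cases h with
  | perm _ _ h => exact Step.perm _ _ (h.symm.map _)
  | rename f _ hf =>
    obtain ⟨g, hg, hg'⟩ := renamed_renamed_inv hf
    have : Step false true (zero (renamed f D)) (renamed g (zero (renamed f D))) := by
      refine Step.rename g _ fun p hp q hq h => ?_
      rw [passes_zero] at hp hq
      obtain ⟨p', hp', rfl⟩ := mem_renamed.1 hp
      obtain ⟨q', hq', rfl⟩ := mem_renamed.1 hq
      simp only [hg' p' hp', hg' q' hq'] at h
      simp only [h]
    have e : renamed g (zero (renamed f D)) = zero (renamed g (renamed f D)) := by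
      simp [renamed, zero]
    rw [e, hg] at this
    exact this
  | rotate x y b R => exact Step.rotate y x 0 (zero R)
  | reid _ _ h => exact Step.reidInv _ _ (by rw [enc_zero, enc_zero]; exact reid_zero h)
  | reidInv _ _ h => exact Step.reid _ _ (by rw [enc_zero, enc_zero]; exact reid_zero h)
  | death b R hb =>
    refine Step.birth rfl 0 (zero D') ?_
    obtain ⟨C, hC⟩ := List.exists_mem_of_ne_nil _ hD'
    exact ⟨(C.1, 0), List.mem_map_of_mem (f := fun C => (C.1, 0)) hC, rfl⟩
  | birth h b R hb => simp at h
  | split x y b b' R hb =>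
    have : zero (R.map fun C => (C.1, if C.2 = b' then b else C.2)) = zero R := by
      simp [zero]
    simp only [zero_cons, this]
    exact Step.merge x y 0 (zero R)
  | merge x y b R => simp at hn

theorem movie_rev {D D' : Code} (h : Movie false false D D') (hn : (D.map Prod.snd).Nodup)
    (hD' : D' ≠ []) : Movie false true (zero D') (zero D) := by
  induction h with
  | refl => exact Relation.ReflTransGen.refl
  | @tail D₁ D₂ h₁ h ih =>
    have hD₁ : D₁ ≠ [] := fun h' => hD' (step_nil h.2.2 h')
    exact Movie.head (classical_zero h.2.1) (classical_zero h.1)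
      (step_rev h.2.2 (nodup_movie h₁ hn) hD') (ih hD₁)

theorem step_births {r3 : Bool} {D D' : Code} (h : Step r3 false D D') : Step r3 true D D' := by
  cases h with
  | perm _ _ h => exact Step.perm _ _ h
  | rename f _ hf => exact Step.rename f _ hf
  | rotate x y b R => exact Step.rotate x y b R
  | reid _ _ h => exact Step.reid _ _ h
  | reidInv _ _ h => exact Step.reidInv _ _ h
  | death b R hb => exact Step.death b _ hb
  | birth h b R hb => simp at h
  | split x y b b' R hb => exact Step.split x y b b' R hb
  | merge x y b R => exact Step.merge x y b R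

theorem movie_births {r3 : Bool} {D D' : Code} (h : Movie r3 false D D') : Movie r3 true D D' := by
  induction h with
  | refl => exact Relation.ReflTransGen.refl
  | tail _ h ih => exact Relation.ReflTransGen.tail ih ⟨h.1, h.2.1, step_births h.2.2⟩

end Pool.Agent.Y468.SR
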