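import Pool.Agent.Y468.SR.Main

/-! A diagram with a matching of the crossings satisfying the planarity condition bounds ribbon
discs: the induction. -/

namespace Pool.Agent.Y468.SR

set_option linter.unusedSimpArgs false

theorem fac_mid {y z a c : List Pass} {r P Q : Pass} (h : y ++ r :: z = a ++ P :: Q :: c)
    (h1 : r ≠ P) (h2 : r ≠ Q) : (∃ a' c', y = a' ++ P :: Q :: c') ∨ ∃ a' c', z = a' ++ P :: Q :: c' := by
  rcases List.append_eq_append_iff.1 h with ⟨a', rfl, h3⟩ | ⟨c', rfl, h3⟩
  · right
    rcases a' with _ | ⟨s, a'⟩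
    · simp only [List.nil_append, List.cons.injEq] at h3
      exact absurd h3.1 h1
    · simp only [List.cons_append, List.cons.injEq] at h3
      exact ⟨a', c, h3.2⟩
  · left
    rcases c' with _ | ⟨s, c'⟩
    · simp only [List.nil_append, List.cons.injEq] at h3
      exact absurd h3.1.symm h1
    · rcases c' with _ | ⟨s', c'⟩
      · simp only [List.cons_append, List.nil_append, List.cons.injEq] at h3
        exact absurd h3.2.1.symm h2
      · simp only [List.cons_append, List.cons.injEq] at h3
        exact ⟨a, c', by rw [h3.1, h3.2.1]⟩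

theorem null_perm {D D' : Code} {m : ℕ → ℕ} (h : D.Perm D') (hN : Null D m) : Null D' m :=
  fun G _ o u hv C hC => hN G o u (valid_congr (fun _ => (passes_perm h).symm.mem_iff) hv) C
    (h.symm.subset hC)

theorem null_rotate {x y : List Pass} {b : ℕ} {R : Code} {m : ℕ → ℕ}
    (hN : Null ((x ++ y, b) :: R) m) : Null ((y ++ x, b) :: R) m := by
  intro G _ o u hv C hC
  have hv' : Valid (passes ((x ++ y, b) :: R)) m o u :=
    valid_congr (fun r => by simp only [passes_cons, List.mem_append]; tauto) hv
  rcases List.mem_cons.1 hC with rfl | hC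
  · have := hN G o u hv' (x ++ y, b) (by simp)
    simp only [wval_append] at this ⊢
    exact mul_eq_one_comm.1 this
  · exact hN G o u hv' C (by simp [hC])

theorem caseB' {p q : Pass} {v : List Pass} {b : ℕ} {R : Code}
    (hD : Classical ((p :: v, b) :: R)) (hn : (((p :: v, b) :: R).map Prod.snd).Nodup)
    {m : ℕ → ℕ} (hm : Matching (passes ((p :: v, b) :: R)) m) (hN : Null ((p :: v, b) :: R) m)
    {C : List Pass × ℕ} (hC : C ∈ ((p :: v, b) :: R)) {a c : List Pass}
    (h : C.1 = a ++ p.mate :: q.mate :: c) (h0 : m p.crossing ≠ p.crossing)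
    (h1 : q.crossing = m p.crossing) (h2 : q.isOver = p.isOver) : Red ((p :: v, b) :: R) := by
  have hp : p ∈ passes ((p :: v, b) :: R) := by simp
  have hq' : q.mate ∈ passes ((p :: v, b) :: R) := mem_passes.2 ⟨C, hC, by simp [h]⟩
  have hq : q ∈ passes ((p :: v, b) :: R) := by simpa using hD.1.1 _ hq'
  have hpq : p.crossing ≠ q.crossing := by rw [h1]; exact Ne.symm h0
  have hmq : m q.crossing = p.crossing := by rw [h1]; exact matching_invol hm hp
  have hs : q.isPos = !p.isPos := by
    obtain ⟨q₀, g1, g2, g3, g4⟩ := hm p hp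
    rw [hD.1.sign_eq g1 hq (by rw [g2, h1])]
    exact g4 (by rw [g2]; exact h0)
  have e1 : p.mate ≠ p := by intro h; simpa using congrArg Pass.isOver h
  have e2 : q.mate ≠ q := by intro h; simpa using congrArg Pass.isOver h
  have e3 : p.mate ≠ q := fun h => hpq (congrArg Pass.crossing h : p.mate.crossing = q.crossing)
  have e4 : q.mate ≠ p := fun h =>
    hpq (congrArg Pass.crossing h : q.mate.crossing = p.crossing).symm
  have e5 : p ≠ q := fun h => hpq (congrArg Pass.crossing h)
  have hnd := WF.nodup hD.1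
  have hpv : p ∉ v := by
    rw [passes_cons, List.cons_append, List.nodup_cons] at hnd
    exact fun h => hnd.1 (by simp [h])
  -- the passages of one type at the two crossings belong to the same component
  have hqv : q ∈ v := by
    by_contra hqv
    have hv1 : Valid (passes ((p :: v, b) :: R)) m (fun _ => (1 : Multiplicative ℤ)) (fun _ => 1) :=
      fun r _ => by simp
    have := hN _ _ _ (valid_tw hv1 hm h1.symm hmq hpq (Multiplicative.ofAdd 1) p.isOver)
      (p :: v, b) (by simp)
    simp only [wval_cons] at this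
    have h3 : wval (tw p.crossing q.crossing (Multiplicative.ofAdd (1 : ℤ)) p.isOver fun _ => 1)
        (tw p.crossing q.crossing (Multiplicative.ofAdd (1 : ℤ)) (!p.isOver) fun _ => 1) v =
        wval (fun _ => 1) (fun _ => 1) v := by
      refine wval_congr fun r hr => ?_
      rw [val_tw]
      split_ifs with k1 k2 k3
      · exact absurd (hD.1.eq_of (by simp [hr]) hp k2 k1 ▸ hr) hpv
      · exact absurd (hD.1.eq_of (by simp [hr]) hq k3 (k1.trans h2.symm) ▸ hr) hqv
      · rfl
      · rfl
    have h4 : wval (fun _ => (1 : Multiplicative ℤ)) (fun _ => 1) v = 1 := by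
      clear * -
      induction v with
      | nil => rfl
      | cons r v ih => rw [wval_cons, ih]; simp [val]
    rw [h3, h4, val_tw, if_pos rfl, if_pos rfl, mul_one] at this
    have := congrArg Multiplicative.toAdd this
    simp at this
  obtain ⟨y, z, rfl⟩ := List.append_of_mem hqv
  have hqy : q ∉ y ∧ q ∉ z ∧ p ∉ y ∧ p ∉ z := by
    have h3 : (p :: (y ++ q :: z) ++ passes R).Nodup := by simpa using hnd
    rw [List.cons_append, List.nodup_cons, List.append_assoc, List.nodup_append] at h3
    obtain ⟨h3, h4, h5, h6⟩ := h3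
    rw [List.cons_append, List.nodup_cons] at h5
    refine ⟨fun h => h6 q h q (by simp) rfl, fun h => h5.1 (by simp [h]), fun h => h3 (by simp [h]),
      fun h => h3 (by simp [h])⟩
  obtain ⟨b', hb'⟩ := Infinite.exists_notMem_finset
    (((p :: (y ++ q :: z), b) :: R).map Prod.snd).toFinset
  have hb' : b' ≠ b ∧ ∀ C ∈ R, C.2 ≠ b' := by
    simp only [List.map_cons, List.mem_toFinset, List.mem_cons, not_or, List.mem_map, not_exists,
      not_and] at hb'
    exact ⟨hb'.1, hb'.2⟩
  -- the factor
  have hfac : ∃ C₃ ∈ ((z, b) :: (y, b') :: R), ∃ a₃ c₃, C₃.1 = a₃ ++ p.mate :: q.mate :: c₃ := by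
    rcases List.mem_cons.1 hC with rfl | hC
    · rcases a with _ | ⟨s, a⟩
      · simp only [List.nil_append, List.cons.injEq] at h
        exact absurd h.1.symm e1
      · simp only [List.cons_append, List.cons.injEq] at h
        rcases fac_mid h.2 e3.symm e2.symm with ⟨a', c', h⟩ | ⟨a', c', h⟩
        · exact ⟨(y, b'), by simp, a', c', h⟩
        · exact ⟨(z, b), by simp, a', c', h⟩
    · exact ⟨C, by simp [hC], a, c, h⟩
  obtain ⟨C₃, hC₃, a₃, c₃, h₃⟩ := hfac
  have hperm₃ : (passes ((p :: (y ++ q :: z), b) :: R)).Perm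
      ([p, q] ++ passes ((z, b) :: (y, b') :: R)) := by
    simp only [passes_cons, List.cons_append, List.nil_append, List.append_assoc]
    refine List.Perm.cons _ ?_
    have : (y ++ (q :: (z ++ passes R))).Perm (q :: (y ++ (z ++ passes R))) := List.perm_middle
    refine this.trans (List.Perm.cons _ ?_)
    rw [← List.append_assoc, ← List.append_assoc]
    exact List.Perm.append_right _ List.perm_append_comm
  have hn₃ : (passes ((z, b) :: (y, b') :: R)).Nodup :=
    (List.nodup_append.1 (hperm₃.nodup hnd)).2.1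
  have hadj := adj_all hn₃ hC₃ h₃
  have hpm : p.mate ∈ y ∨ p.mate ∈ z ∨ ∃ C ∈ R, p.mate ∈ C.1 := by
    simp only [List.mem_cons] at hC₃
    rcases hC₃ with rfl | rfl | hC₃
    · right; left; simp only at h₃; rw [h₃]; simp
    · left; simp only at h₃; rw [h₃]; simp
    · right; right; exact ⟨C₃, hC₃, by rw [h₃]; simp⟩
  have hpl : Planar ((p :: q :: z, b) :: (y, b') :: R) := by
    refine planar_saddle (b := b) hD.1 hpq h2 hs (hadj (y, b') (by simp)) (hadj (z, b) (by simp))
      (fun C hC => hadj C (by simp [hC])) hpm hD.2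
  have hperm₄ : (passes ((p :: (y ++ q :: z), b) :: R)).Perm
      (passes ((p :: q :: z, b) :: (y, b') :: R)) := by
    refine hperm₃.trans ?_
    simp
  have hD₄ : Classical ((p :: q :: z, b) :: (y, b') :: R) := ⟨WF.perm hperm₄ hD.1, hpl⟩
  -- the movie
  have hmov : Movie false false ((p :: (y ++ q :: z), b) :: R) ((p :: q :: z, b) :: (y, b') :: R) := by
    have s1 : Classical (((q :: z) ++ (p :: y), b) :: R) :=
      classical_rotate (x := p :: y) (y := q :: z) (b := b) (by simpa using hD)
    have s2 : Step false false ((p :: (y ++ q :: z), b) :: R) (((q :: z) ++ (p :: y), b) :: R) := by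
      have := Step.rotate (r3 := false) (births := false) (p :: y) (q :: z) b R
      simpa using this
    have s3 : Classical ((q :: z ++ [p], b) :: (y, b') :: R) :=
      classical_rotate (x := [p]) (y := q :: z) (b := b) (by simpa using hD₄)
    have hmap : (R.map fun C => (C.1, if C.2 = b' then b else C.2)) = R := by
      conv_rhs => rw [← List.map_id R]
      refine List.map_congr_left fun C hC => ?_
      simp [hb'.2 C hC]
    have s4 : Step false false (((q :: z) ++ (p :: y), b) :: R)
        ((q :: z ++ [p], b) :: (y, b') :: R) := by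
      have := Step.split (r3 := false) (births := false) (q :: z ++ [p]) y b b' R hb'.1.symm
      rw [hmap] at this
      simpa using this
    have s5 : Step false false ((q :: z ++ [p], b) :: (y, b') :: R)
        ((p :: q :: z, b) :: (y, b') :: R) := by
      have := Step.rotate (r3 := false) (births := false) (q :: z) [p] b ((y, b') :: R)
      simpa using this
    exact Movie.head hD s1 s2 (Movie.head s1 s3 s4 (Movie.head s3 hD₄ s5
      Relation.ReflTransGen.refl))
  -- the planarity condition
  have hm₄ : Matching (passes ((p :: q :: z, b) :: (y, b') :: R)) m :=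
    matching_congr (fun r => hperm₄.mem_iff) hm
  have hN₄ : Null ((p :: q :: z, b) :: (y, b') :: R) m := by
    intro G _ o u hv
    have hv' : Valid (passes ((p :: (y ++ q :: z), b) :: R)) m o u :=
      valid_congr (fun r => hperm₄.symm.mem_iff) hv
    have hv2 := valid_tw (valid_map (lft G) hv') hm h1.symm hmq hpq
      (Equiv.sumComm G G : Equiv.Perm (G ⊕ G)) p.isOver
    have h3 := hN _ _ _ hv2 _ (List.mem_cons_self)
    have hval : ∀ w : List Pass, (∀ r ∈ w, r ∈ passes ((p :: (y ++ q :: z), b) :: R)) → p ∉ w →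
        q ∉ w → wval (tw p.crossing q.crossing (Equiv.sumComm G G : Equiv.Perm (G ⊕ G)) p.isOver
          fun c => lft G (o c)) (tw p.crossing q.crossing (Equiv.sumComm G G : Equiv.Perm (G ⊕ G))
          (!p.isOver) fun c => lft G (u c)) w = lft G (wval o u w) := by
      intro w hw hpw hqw
      rw [← wval_map]
      refine wval_congr fun r hr => ?_
      rw [val_tw]
      split_ifs with k1 k2 k3
      · exact absurd (hD.1.eq_of (hw r hr) hp k2 k1 ▸ hr) hpw
      · exact absurd (hD.1.eq_of (hw r hr) hq k3 (k1.trans h2.symm) ▸ hr) hqw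
      · rfl
      · rfl
    simp only [wval_cons, wval_append] at h3
    rw [hval y (fun r hr => by simp [hr]) hqy.2.2.1 hqy.1,
      hval z (fun r hr => by simp [hr]) hqy.2.2.2 hqy.2.1, val_tw, val_tw, if_pos rfl, if_pos rfl,
      if_pos h2, if_neg hpq.symm, if_pos rfl, ← mul_assoc, ← mul_assoc] at h3
    obtain ⟨hY, hZ⟩ := eq_one_of_twist h3
    intro C hC
    simp only [List.mem_cons] at hC
    rcases hC with rfl | rfl | hC
    · simp only [wval_cons]
      obtain ⟨-, k2⟩ := hv' p hp
      obtain ⟨k3, k4⟩ := k2 h0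
      rw [← h1] at k3 k4
      rw [← mul_assoc, (val_pair p q h2.symm k3 k4).1, hZ, mul_one]
    · exact hY
    · exact hN G o u hv' C (by simp [hC])
  have hI₄ := inv_of_null hm₄ hN₄
  -- the move of type II
  obtain ⟨D', A, B, f1, f2, f3⟩ := exists_remove hC₃ h₃
  have g1 : enc ((p :: q :: z, b) :: (y, b') :: R) =
      [] ++ two p q ++ A ++ two p.mate q.mate ++ B := by
    have : enc ((p :: q :: z, b) :: (y, b') :: R) = two p q ++ enc ((z, b) :: (y, b') :: R) := by
      simp [two]
    rw [this, f1]; simp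
  have g2 : enc D' = [] ++ A ++ B := by rw [f2]; simp
  have hRe : Reid false (enc ((p :: q :: z, b) :: (y, b') :: R)) (enc D') := by
    rw [g1, g2]; exact Reid.twoSame [] A B p q hpq h2.symm hs
  have hperm₅ : (passes ((p :: q :: z, b) :: (y, b') :: R)).Perm
      ([p, q, p.mate, q.mate] ++ passes D') := by
    rw [← pl_enc, ← pl_enc, g1, g2]
    simp only [pl_append, pl_two, List.append_assoc, pl_nil, List.nil_append, List.cons_append]
    refine List.Perm.cons _ (List.Perm.cons _ ?_)
    have : (pl A ++ (p.mate :: (q.mate :: pl B))).Perm (p.mate :: (pl A ++ (q.mate :: pl B))) :=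
      List.perm_middle
    exact this.trans (List.Perm.cons _ List.perm_middle)
  have hW₅ : WF ([p, q, p.mate, q.mate] ++ passes D') := WF.perm hperm₅ hD₄.1
  have hW₆ : WF (passes D') := hW₅.remove (by simp)
  have hD' : Classical D' := by
    refine ⟨hW₆, planar_iff.2 ?_⟩
    rw [g2]
    refine planarE_two (p := p) (q := q) (fun r hr => ?_) hpq h2.symm hs ?_
    · rw [← g2, pl_enc] at hr
      exact ⟨hW₅.ne_crossing (by simp) (by simp) hr, hW₅.ne_crossing (by simp) (by simp) hr⟩
    · rw [← g1]; exact planar_iff.1 hpl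
  refine ⟨D', ?_, hD', ?_, step_inv (births := false) hD'.1 hD₄.1 (Step.reidInv D' _ hRe) hI₄,
    hmov.trans (Movie.head hD₄ hD' (Step.reid _ D' hRe) Relation.ReflTransGen.refl)⟩
  · rw [hperm₄.length_eq, hperm₅.length_eq]; simp; omega
  · rw [f3]
    simp only [List.map_cons, List.nodup_cons, List.mem_cons, not_or] at hn ⊢
    refine ⟨⟨hb'.1.symm, hn.1⟩, fun h => ?_, hn.2⟩
    obtain ⟨C, hC, h⟩ := List.mem_map.1 h
    exact hb'.2 C hC h

theorem caseB {D : Code} (hD : Classical D) (hn : (D.map Prod.snd).Nodup) {m : ℕ → ℕ}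
    (hm : Matching (passes D) m) (hN : Null D m) {C : List Pass × ℕ} (hC : C ∈ D)
    {a c : List Pass} {p q : Pass} (h : C.1 = a ++ p :: q :: c) (h0 : m p.crossing ≠ p.crossing)
    (h1 : q.crossing = m p.crossing) (h2 : q.isOver = p.isOver) : Red D := by
  have hp : p ∈ passes D := mem_passes.2 ⟨C, hC, by simp [h]⟩
  have hpq : p.crossing ≠ q.crossing := by rw [h1]; exact Ne.symm h0
  obtain ⟨⟨w, b⟩, hC', hpC'⟩ := mem_passes.1 (hD.1.1 p hp)
  obtain ⟨D₁, D₂, rfl⟩ := List.append_of_mem hC'
  obtain ⟨x, v, rfl⟩ := List.append_of_mem hpC'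
  have hperm : (D₁ ++ (x ++ p.mate :: v, b) :: D₂).Perm ((x ++ p.mate :: v, b) :: (D₁ ++ D₂)) :=
    List.perm_middle
  have c1 := classical_perm hperm hD
  have c2 : Classical ((p.mate :: v ++ x, b) :: (D₁ ++ D₂)) := classical_rotate c1
  have n1 := null_perm hperm hN
  have n2 := null_rotate n1
  have m1 := matching_congr (fun r => (passes_perm hperm).mem_iff) hm
  have hperm2 : (passes ((x ++ p.mate :: v, b) :: (D₁ ++ D₂))).Perm
      (passes ((p.mate :: v ++ x, b) :: (D₁ ++ D₂))) := by
    rw [passes_cons, passes_cons]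
    exact List.Perm.append_right _ List.perm_append_comm
  have m2 := matching_congr (fun r => hperm2.mem_iff) m1
  have l1 : (((p.mate :: (v ++ x), b) :: (D₁ ++ D₂)).map Prod.snd).Nodup := by
    have := (hperm.map Prod.snd).nodup hn
    simpa using this
  have hfac : ∃ C' ∈ ((p.mate :: (v ++ x), b) :: (D₁ ++ D₂)), ∃ a' c',
      C'.1 = a' ++ p :: q :: c' := by
    rcases List.mem_cons.1 (hperm.subset hC) with rfl | hC
    · have k1 : p.mate ≠ p := by intro h; simpa using congrArg Pass.isOver h
      have k2 : p.mate ≠ q := fun h => hpq (congrArg Pass.crossing h : p.mate.crossing = q.crossing)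
      rcases fac_mid h k1 k2 with ⟨a', c', h⟩ | ⟨a', c', h⟩
      · exact ⟨_, List.mem_cons_self, p.mate :: (v ++ a'), c', by simp [h]⟩
      · exact ⟨_, List.mem_cons_self, p.mate :: a', c' ++ x, by simp [h]⟩
    · exact ⟨C, List.mem_cons_of_mem _ hC, a, c, h⟩
  obtain ⟨C', hC', a', c', h'⟩ := hfac
  obtain ⟨D', r1, r2, r3, r4, r5⟩ := caseB' (p := p.mate) (q := q.mate) c2 l1 m2 n2 hC' (a := a')
    (c := c') (by simpa using h') h0 h1 (by simp [h2])
  refine ⟨D', ?_, r2, r3, r4, Movie.head hD c1 (Step.perm _ _ hperm) (Movie.head c1 c2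
    (Step.rotate x (p.mate :: v) b (D₁ ++ D₂)) r5)⟩
  rw [(passes_perm hperm).length_eq, hperm2.length_eq]
  exact r1

theorem reduce {D : Code} (hD : Classical D) (hn : (D.map Prod.snd).Nodup) (hI : Inv D)
    (h : passes D ≠ []) : Red D := by
  obtain ⟨m, hm, hN⟩ := null_of_inv hn hI
  obtain ⟨r, hr⟩ := List.exists_mem_of_ne_nil _ h
  obtain ⟨C, hC, hrC⟩ := mem_passes.1 hr
  obtain ⟨a, c, p, q, h1, ⟨-, h3, h4⟩ | ⟨h2, h3, h4⟩⟩ := exists_factor hm (w := C.1)
    (List.ne_nil_of_mem hrC) (fun r hr => mem_passes.2 ⟨C, hC, hr⟩)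
    (hN _ _ _ (valid_letter hm) C hC)
  · exact caseA hD hn hI hC h1 h3 h4
  · exact caseB hD hn hm hN hC h1 h2 h3 h4

theorem ribbon_of_inv (n : ℕ) : ∀ D : Code, (passes D).length ≤ n → Classical D →
    (D.map Prod.snd).Nodup → Inv D → Movie false false D [] := by
  induction n with
  | zero =>
    intro D h1 h2 h3 h4
    exact deaths h3 (List.eq_nil_of_length_eq_zero (by omega))
  | succ n ih =>
    intro D h1 h2 h3 h4
    by_cases h : passes D = []
    · exact deaths h3 h
    · obtain ⟨D', r1, r2, r3, r4, r5⟩ := reduce h2 h3 h4 h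
      exact r5.trans (ih D' (by omega) r2 r3 r4)

/-- Links bounding discs without moves of type III bound ribbon discs without moves of type III. -/
theorem ribbon_of_movie {births : Bool} {D : Code} (h : Movie false births D [])
    (hD : Classical D) (hn : (D.map Prod.snd).Nodup) : Movie false false D [] :=
  ribbon_of_inv _ D le_rfl hD hn (inv_of_movie h inv_nil)

end Pool.Agent.Y468.SR
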