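import Pool.Agent.Y468.SR.Remove

/-! Planarity is preserved by the saddles used below. -/

namespace Pool.Agent.Y468.SR

set_option linter.unusedSimpArgs false

theorem passes_perm {D D' : Code} (h : D.Perm D') : (passes D).Perm (passes D') :=
  h.flatMap_right _

theorem planar_perm {D D' : Code} (h : D.Perm D') (hD : Planar D) : Planar D' := by
  intro back front h1 h2
  obtain ⟨u, h3, h4⟩ := hD back front (fun C hC => h1 C (h.subset hC))
    (fun p hp => h2 p ((passes_perm h).subset hp))
  exact ⟨u, fun C hC => h3 C (h.symm.subset hC), fun p hp => h4 p ((passes_perm h).symm.subset hp)⟩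

theorem classical_perm {D D' : Code} (h : D.Perm D') (hD : Classical D) : Classical D' :=
  ⟨WF.perm (passes_perm h) hD.1, planar_perm h hD.2⟩

theorem planar_rotate {x y : List Pass} {b b' : ℕ} {R : Code} (hD : Planar ((x ++ y, b) :: R)) :
    Planar ((y ++ x, b') :: R) := by
  intro back front h1 h2
  simp only [List.mem_cons, forall_eq_or_imp] at h1
  obtain ⟨u, h3, h4⟩ := hD back front (by
      simp only [List.mem_cons, forall_eq_or_imp]
      exact ⟨closed_comm h1.1, h1.2⟩)
    (fun p hp => h2 p (by simp at hp ⊢; tauto))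
  refine ⟨u, ?_, fun p hp => h4 p (by simp at hp ⊢; tauto)⟩
  simp only [List.mem_cons, forall_eq_or_imp] at h3 ⊢
  exact ⟨closed_comm h3.1, h3.2⟩

theorem classical_rotate {x y : List Pass} {b b' : ℕ} {R : Code}
    (hD : Classical ((x ++ y, b) :: R)) : Classical ((y ++ x, b') :: R) := by
  refine ⟨WF.perm ?_ hD.1, planar_rotate hD.2⟩
  simp only [passes_cons]
  exact List.Perm.append_right _ List.perm_append_comm

theorem Pass.corner_fst (r : Pass) (f l : Bool) : (r.corner f l).1 = r.crossing := by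
  unfold Pass.corner; split_ifs <;> rfl

theorem Pass.corner_false_ne (r : Pass) (l : Bool) :
    r.corner false l ≠ (r.crossing, r.isPos, !r.isPos) := by
  obtain ⟨c, τ, s⟩ := r
  cases τ <;> cases s <;> cases l <;> simp [Pass.corner]

theorem Pass.corner_true_ne (r : Pass) (l : Bool) :
    r.corner true l ≠ (r.crossing, !r.isPos, r.isPos) := by
  obtain ⟨c, τ, s⟩ := r
  cases τ <;> cases s <;> cases l <;> simp [Pass.corner]

theorem saddle_key {p q : Pass} (hpq : p.crossing ≠ q.crossing) (ho : q.isOver = p.isOver)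
    (hs : q.isPos = !p.isPos) {u u' : ℕ × Bool × Bool → ℤ} {t jp jm κ : ℤ}
    (f6 : fU u p.mate = bU u q.mate) (d1 : (fU u p).1 - (fU u p).2 = t)
    (d2 : (bU u q).1 - (bU u q).2 = t) (d3 : (fU u p.mate).1 - (fU u p.mate).2 = jp + jm - t)
    (hκ : κ = if (xor p.isOver p.isPos) then t - jp else jp - t)
    (hu' : u' = fun x => if x = (p.crossing, p.isPos, !p.isPos) ∨ x = (q.crossing, p.isPos, !p.isPos)
      then u x + κ else u x) :
    fU u p = bU u q ∧ fU u' p = bU u' q ∧ fU u' p.mate = bU u' q.mate ∧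
      (fU u' p).1 - (fU u' p).2 = jp ∧ (fU u' p.mate).1 - (fU u' p.mate).2 = jm := by
  obtain ⟨c, τ, s⟩ := p
  obtain ⟨d, τ', s'⟩ := q
  simp only at hpq ho hs
  subst ho hs hu'
  cases τ' <;> cases s <;>
    simp only [bU, fU, Pass.corner, Pass.mate, Prod.mk.injEq, if_true, if_false, Bool.not_true, Bool.not_false,
      Bool.xor_true, Bool.xor_false, Bool.true_xor, Bool.false_xor, Bool.false_eq_true, hpq, hpq.symm,
      true_and, false_and, and_true, and_false, true_or, or_true, or_false, false_or,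
      reduceCtorEq] at * <;>
    refine ⟨⟨?_, ?_⟩, ⟨?_, ?_⟩, ⟨?_, ?_⟩, ?_, ?_⟩ <;> omega

/-- the saddle -/
theorem planar_saddle {p q : Pass} {y z : List Pass} {b b₁ b₂ : ℕ} {R : Code}
    (hw : WF (passes ((p :: y ++ q :: z, b) :: R)))
    (hpq : p.crossing ≠ q.crossing) (ho : q.isOver = p.isOver) (hs : q.isPos = !p.isPos)
    (hy : Adj p.mate q.mate y) (hz : Adj p.mate q.mate z) (hR : ∀ C ∈ R, Adj p.mate q.mate C.1)
    (hex : p.mate ∈ y ∨ p.mate ∈ z ∨ ∃ C ∈ R, p.mate ∈ C.1)
    (h : Planar ((p :: y ++ q :: z, b) :: R)) : Planar ((p :: q :: z, b₁) :: (y, b₂) :: R) := by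
  intro back front h1 h2
  simp only [List.mem_cons, forall_eq_or_imp] at h1
  obtain ⟨⟨s₀, e1, e2, e3⟩, ⟨t, hyt⟩, h1⟩ := h1
  have e1' : p.mate ≠ p := by intro h; simpa [Pass.mate] using congrArg Pass.isOver h
  have e2' : q.mate ≠ q := by intro h; simpa [Pass.mate] using congrArg Pass.isOver h
  have e3' : p.mate ≠ q := fun h => hpq (congrArg Pass.crossing h : p.mate.crossing = q.crossing)
  have e4' : q.mate ≠ p := fun h =>
    hpq (congrArg Pass.crossing h : q.mate.crossing = p.crossing).symm
  have e5' : p ≠ q := fun h => hpq (congrArg Pass.crossing h)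
  have e6' : p.mate ≠ q.mate := fun h =>
    hpq (congrArg Pass.crossing h : p.mate.crossing = q.mate.crossing)
  have hn := hw.nodup
  simp only [passes_cons, List.cons_append, List.append_assoc] at hn
  have hp0 : p ∉ y ∧ p ∉ z ∧ ∀ C ∈ R, p ∉ C.1 := by
    have := (List.nodup_cons.1 hn).1
    simp only [List.mem_append, List.mem_cons, not_or, passes, List.mem_flatMap] at this
    refine ⟨this.1, this.2.2.1, fun C hC h => this.2.2.2 ⟨C, hC, h⟩⟩
  have hq0 : q ∉ y ∧ q ∉ z ∧ ∀ C ∈ R, q ∉ C.1 := by
    have h3 := (List.nodup_cons.1 hn).2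
    rw [List.nodup_append] at h3
    have h4 := (List.nodup_cons.1 h3.2.1).1
    simp only [List.mem_append, passes, List.mem_flatMap, not_or] at h4
    exact ⟨fun h => h3.2.2 q h q (by simp) rfl, h4.1, fun C hC h => h4.2 ⟨C, hC, h⟩⟩
  have hmem : ∀ r, r ∈ passes ((p :: y ++ q :: z, b) :: R) ↔
      r ∈ passes ((p :: q :: z, b₁) :: (y, b₂) :: R) := by
    intro r; simp only [passes_cons, List.mem_append, List.mem_cons, List.cons_append]; tauto
  -- adjacency
  have adj : ∀ {S : Type} {bk fr : Pass → S} {w : List Pass} {s s' : S}, Adj p.mate q.mate w →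
      p.mate ∈ w → Run bk fr s w s' → fr p.mate = bk q.mate := by
    intro S bk fr w s s' ha hm hr
    rcases ha with ha | ⟨w₁, w₂, rfl, -⟩
    · exact absurd hm ha.1
    · obtain ⟨m, -, h3⟩ := run_append.1 hr
      exact h3.2.1
  have j0 : front p.mate = back q.mate := by
    rcases hex with hex | hex | ⟨C, hC, hex⟩
    · exact adj hy hex hyt
    · exact adj hz hex e3
    · obtain ⟨s, hs⟩ := h1 C hC
      exact adj (hR C hC) hex hs
  have hcp := h2 p ((hmem p).1 (by simp))
  have hcq := h2 q ((hmem q).1 (by simp))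
  obtain ⟨back₀, hb₀⟩ : ∃ f : Pass → ℤ, f = fun r => if r = q then t else
    if r = q.mate then front p + front p.mate - t else back r := ⟨_, rfl⟩
  obtain ⟨front₀, hf₀⟩ : ∃ f : Pass → ℤ, f = fun r => if r = p then t else
    if r = p.mate then front p + front p.mate - t else front r := ⟨_, rfl⟩
  have he0 : front₀ p.mate = back₀ q.mate := by simp [hb₀, hf₀, e1', e2']
  obtain ⟨u, hu, hd⟩ := h back₀ front₀ (by
      simp only [List.mem_cons, forall_eq_or_imp]
      refine ⟨⟨back p, ?_, ?_⟩, fun C hC => ?_⟩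
      · simp [hb₀, e5', e4'.symm]
      · refine run_append.2 ⟨t, ?_, ?_, ?_⟩
        · have : front₀ p = t := by simp [hf₀]
          rw [this]
          refine run_modify e6' hy (fun r hr hrq => ?_) (fun r hr hrp => ?_) he0 hyt
          · have : r ≠ q := fun h => hq0.1 (h ▸ hr)
            simp [hb₀, hrq, this]
          · have : r ≠ p := fun h => hp0.1 (h ▸ hr)
            simp [hf₀, hrp, this]
        · simp [hb₀]
        · have : front₀ q = front q := by simp [hf₀, e5'.symm, e3'.symm]
          rw [this, ← e1]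
          refine run_modify e6' hz (fun r hr hrq => ?_) (fun r hr hrp => ?_) he0 e3
          · have : r ≠ q := fun h => hq0.2.1 (h ▸ hr)
            simp [hb₀, hrq, this]
          · have : r ≠ p := fun h => hp0.2.1 (h ▸ hr)
            simp [hf₀, hrp, this]
      · refine closed_modify e6' (hR C hC) (fun r hr hrq => ?_) (fun r hr hrp => ?_) he0 (h1 C hC)
        · have : r ≠ q := fun h => hq0.2.2 C hC (h ▸ hr)
          simp [hb₀, hrq, this]
        · have : r ≠ p := fun h => hp0.2.2 C hC (h ▸ hr)
          simp [hf₀, hrp, this])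
    (by
      intro r hr
      have h3 := h2 r ((hmem r).1 hr)
      by_cases c1 : r = p
      · subst c1; simp only [hb₀, hf₀, e1', e5', e4'.symm, e3', e6', if_true, if_false]; omega
      by_cases c2 : r = q
      · subst c2; simp only [hb₀, hf₀, e2', e5'.symm, e4', e3'.symm, e6'.symm, if_true, if_false]; omega
      by_cases c3 : r = p.mate
      · subst c3
        simp only [hb₀, hf₀, e1', e5', e4'.symm, e3', e6', if_true, if_false, mate_mate']; omega
      by_cases c4 : r = q.mate
      · subst c4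
        simp only [hb₀, hf₀, e2', e5'.symm, e4', e3'.symm, e6'.symm, if_true, if_false, mate_mate']; omega
      have c5 : r.mate ≠ p := by rintro rfl; simp at c3
      have c6 : r.mate ≠ q := by rintro rfl; simp at c4
      have c7 : r.mate ≠ p.mate := fun h => c1 (by simpa using congrArg Pass.mate h)
      have c8 : r.mate ≠ q.mate := fun h => c2 (by simpa using congrArg Pass.mate h)
      simp only [hb₀, hf₀, c1, c2, c3, c4, c5, c6, c7, c8, if_false]
      exact h3)
  replace hu : ∀ C ∈ ((p :: y ++ q :: z, b) :: R), Closed (bU u) (fU u) C.1 := hu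
  simp only [List.mem_cons, forall_eq_or_imp] at hu
  obtain ⟨⟨S, f1, f2⟩, hu⟩ := hu
  obtain ⟨S', f3, f4, f5⟩ := run_append.1 f2
  have f6 : fU u p.mate = bU u q.mate := by
    rcases hex with hex | hex | ⟨C, hC, hex⟩
    · exact adj hy hex f3
    · exact adj hz hex f5
    · obtain ⟨s, hs⟩ := hu C hC
      exact adj (hR C hC) hex hs
  have hdp := hd p (by simp)
  have hdq := hd q (by simp)
  have hdp' := hd p.mate (hw.1 p (by simp))
  have hdq' := hd q.mate (hw.1 q (by simp))
  simp only [hb₀, hf₀, e1', e2', e3', e4', e5', e6', e3'.symm, e4'.symm, e5'.symm, e6'.symm,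
    if_true, if_false] at hdp hdq hdp' hdq'
  obtain ⟨κ, hκ⟩ : ∃ κ : ℤ, κ = if (xor p.isOver p.isPos) then t - front p else front p - t := ⟨_, rfl⟩
  obtain ⟨u', hu'⟩ : ∃ u' : ℕ × Bool × Bool → ℤ, u' = fun x =>
    if x = (p.crossing, p.isPos, !p.isPos) ∨ x = (q.crossing, p.isPos, !p.isPos) then u x + κ
      else u x := ⟨_, rfl⟩
  obtain ⟨k1, k2, k3, k4, k5⟩ := saddle_key hpq ho hs f6 hdp.2 hdq.1 hdp'.2 hκ hu'
  have mate_of : ∀ r ∈ passes ((p :: y ++ q :: z, b) :: R), ∀ r' ∈ passes ((p :: y ++ q :: z, b) :: R),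
      r.crossing = r'.crossing → r = r' ∨ r = r'.mate := fun r hr r' hr' h =>
    WellFormed.eq_mate (wf_iff.2 hw) hr' hr h
  have ha : ∀ r ∈ passes ((p :: y ++ q :: z, b) :: R), r ≠ q → r ≠ q.mate → bU u r = bU u' r := by
    intro r hr n1 n2
    have n3 : r.crossing ≠ q.crossing := fun h => by
      rcases mate_of r hr q (by simp) h with h | h
      · exact n1 h
      · exact n2 h
    have n4 : ∀ l, r.corner false l ≠ (p.crossing, p.isPos, !p.isPos) := by
      intro l h
      have n5 : r.crossing = p.crossing := by rw [← Pass.corner_fst r false l, h]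
      have n6 : r.isPos = p.isPos := by
        rcases mate_of r hr p (by simp) n5 with rfl | rfl <;> rfl
      exact Pass.corner_false_ne r l (by rw [h, n5, n6])
    have n5 : ∀ l, r.corner false l ≠ (q.crossing, p.isPos, !p.isPos) := by
      intro l h
      exact n3 (by rw [← Pass.corner_fst r false l, h])
    simp only [bU, hu', n4, n5, or_self, if_false]
  have hb : ∀ r ∈ passes ((p :: y ++ q :: z, b) :: R), r ≠ p → r ≠ p.mate → fU u r = fU u' r := by
    intro r hr n1 n2
    have n3 : r.crossing ≠ p.crossing := fun h => by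
      rcases mate_of r hr p (by simp) h with h | h
      · exact n1 h
      · exact n2 h
    have n4 : ∀ l, r.corner true l ≠ (q.crossing, p.isPos, !p.isPos) := by
      intro l h
      have n5 : r.crossing = q.crossing := by rw [← Pass.corner_fst r true l, h]
      have n6 : r.isPos = !p.isPos := by
        rcases mate_of r hr q (by simp) n5 with rfl | rfl
        · exact hs
        · exact hs
      exact Pass.corner_true_ne r l (by rw [h, n5, n6, Bool.not_not])
    have n5 : ∀ l, r.corner true l ≠ (p.crossing, p.isPos, !p.isPos) := by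
      intro l h
      exact n3 (by rw [← Pass.corner_fst r true l, h])
    simp only [fU, hu', n4, n5, or_self, if_false]
  have hmy : ∀ r ∈ y, r ∈ passes ((p :: y ++ q :: z, b) :: R) := fun r hr => by simp [hr]
  have hmz : ∀ r ∈ z, r ∈ passes ((p :: y ++ q :: z, b) :: R) := fun r hr => by simp [hr]
  have hmR : ∀ C ∈ R, ∀ r ∈ C.1, r ∈ passes ((p :: y ++ q :: z, b) :: R) := fun C hC r hr => by
    rw [passes_cons]
    exact List.mem_append_right _ (List.mem_flatMap.2 ⟨C, hC, hr⟩)
  refine ⟨u', ?_, fun r hr => ?_⟩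
  · change ∀ C ∈ ((p :: q :: z, b₁) :: (y, b₂) :: R), Closed (bU u') (fU u') C.1
    simp only [List.mem_cons, forall_eq_or_imp]
    refine ⟨⟨S, ?_, k2, ?_⟩, ?_, fun C hC => ?_⟩
    · rw [f1]; exact ha p (by simp) e5' e4'.symm
    · rw [← hb q (by simp) e5'.symm e3'.symm]
      exact run_modify e6' hz (fun r hr hrq => ha r (hmz r hr) (fun h => hq0.2.1 (h ▸ hr)) hrq)
        (fun r hr hrp => hb r (hmz r hr) (fun h => hp0.2.1 (h ▸ hr)) hrp) k3 f5
    · refine ⟨S', ?_⟩
      have : fU u p = S' := by rw [f4, k1]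
      rw [this] at f3
      exact run_modify e6' hy (fun r hr hrq => ha r (hmy r hr) (fun h => hq0.1 (h ▸ hr)) hrq)
        (fun r hr hrp => hb r (hmy r hr) (fun h => hp0.1 (h ▸ hr)) hrp) k3 f3
    · exact closed_modify e6' (hR C hC)
        (fun r hr hrq => ha r (hmR C hC r hr) (fun h => hq0.2.2 C hC (h ▸ hr)) hrq)
        (fun r hr hrp => hb r (hmR C hC r hr) (fun h => hp0.2.2 C hC (h ▸ hr)) hrp) k3 (hu C hC)
  · change (bU u' r).1 - (bU u' r).2 = back r ∧ (fU u' r).1 - (fU u' r).2 = front r
    have hr' := (hmem r).2 hr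
    have h3 := hd r hr'
    change (bU u r).1 - (bU u r).2 = back₀ r ∧ (fU u r).1 - (fU u r).2 = front₀ r at h3
    constructor
    · by_cases c1 : r = q
      · subst c1; rw [← k2, k4, e2]
      by_cases c2 : r = q.mate
      · subst c2; rw [← k3, k5, j0]
      rw [← ha r hr' c1 c2, h3.1, hb₀]
      simp [c1, c2]
    · by_cases c1 : r = p
      · subst c1; exact k4
      by_cases c2 : r = p.mate
      · subst c2; exact k5
      rw [← hb r hr' c1 c2, h3.2, hf₀]
      simp [c1, c2]

end Pool.Agent.Y468.SR
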