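import Pool.Agent.Y468.SR.Defs
import Pool.Agent.Y468.SR.Conj

/-! Labels of crossings in groups, matchings of crossings. -/

namespace Pool.Agent.Y468.SR

/-- the passages in a word -/
def pl (l : List (Pass ⊕ ℕ)) : List Pass := l.filterMap Sum.getLeft?

@[simp] theorem pl_nil : pl [] = [] := rfl
@[simp] theorem pl_inl (p : Pass) (l) : pl (Sum.inl p :: l) = p :: pl l := rfl
@[simp] theorem pl_inr (b : ℕ) (l) : pl (Sum.inr b :: l) = pl l := rfl
@[simp] theorem pl_append (l l') : pl (l ++ l') = pl l ++ pl l' := by simp [pl]
@[simp] theorem pl_two (p q : Pass) : pl (two p q) = [p, q] := rfl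
@[simp] theorem pl_map (w : List Pass) : pl (w.map Sum.inl) = w := by
  induction w with
  | nil => rfl
  | cons p w ih => simp [ih]

@[simp] theorem enc_nil : enc [] = [] := rfl
@[simp] theorem enc_cons (C : List Pass × ℕ) (D : Code) :
    enc (C :: D) = C.1.map Sum.inl ++ Sum.inr C.2 :: enc D := by simp [enc]
@[simp] theorem enc_append (D D' : Code) : enc (D ++ D') = enc D ++ enc D' := by simp [enc]
@[simp] theorem passes_nil : passes [] = [] := rfl
@[simp] theorem passes_cons (C : List Pass × ℕ) (D : Code) : passes (C :: D) = C.1 ++ passes D := by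
  simp [passes]

theorem pl_enc (D : Code) : pl (enc D) = passes D := by
  induction D with
  | nil => rfl
  | cons C D ih => simp [ih]

section
variable {G : Type} [Group G]

/-- label of a passage -/
def val (o u : ℕ → G) (p : Pass) : G := if p.isOver then o p.crossing else u p.crossing

/-- label of a word -/
def wval (o u : ℕ → G) (w : List Pass) : G := (w.map (val o u)).prod

@[simp] theorem wval_nil (o u : ℕ → G) : wval o u [] = 1 := rfl
@[simp] theorem wval_cons (o u : ℕ → G) (p : Pass) (w) :
    wval o u (p :: w) = val o u p * wval o u w := by simp [wval]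
@[simp] theorem wval_append (o u : ℕ → G) (w w') :
    wval o u (w ++ w') = wval o u w * wval o u w' := by simp [wval]

/-- labels of the components read off from the encoding -/
def ev (o u : ℕ → G) : List (Pass ⊕ ℕ) → G → List (G × ℕ)
  | [], _ => []
  | Sum.inl p :: l, g => ev o u l (g * val o u p)
  | Sum.inr b :: l, g => (g, b) :: ev o u l 1

theorem ev_map_append (o u : ℕ → G) (w : List Pass) (l : List (Pass ⊕ ℕ)) (g : G) :
    ev o u (w.map Sum.inl ++ l) g = ev o u l (g * wval o u w) := by
  induction w generalizing g with
  | nil => simp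
  | cons p w ih => simp [ev, ih, mul_assoc]

theorem ev_enc (o u : ℕ → G) (D : Code) :
    ev o u (enc D) 1 = D.map fun C => (wval o u C.1, C.2) := by
  induction D with
  | nil => rfl
  | cons C D ih => simp [ev_map_append, ev, ih]

theorem ev_insert (o u : ℕ → G) (A B : List (Pass ⊕ ℕ)) (p q : Pass) (h : val o u p * val o u q = 1)
    (g : G) : ev o u (A ++ two p q ++ B) g = ev o u (A ++ B) g := by
  induction A generalizing g with
  | nil => simp [two, ev, mul_assoc, h]
  | cons a A ih =>
    rcases a with p | b
    · simpa [ev] using ih _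
    · simpa [ev] using ih 1

theorem ev_congr {o u o' u' : ℕ → G} (E : List (Pass ⊕ ℕ))
    (h : ∀ p ∈ pl E, val o u p = val o' u' p) (g : G) : ev o u E g = ev o' u' E g := by
  induction E generalizing g with
  | nil => rfl
  | cons a E ih =>
    rcases a with p | b
    · simp only [ev]
      rw [h p (by simp), ih (fun q hq => h q (by simp [hq]))]
    · simp only [ev]
      rw [ih (fun q hq => h q (by simpa using hq))]

end

section
variable {G : Type}

/-- The labels of the members with a given second component. -/
def bv (L : List (G × ℕ)) (b : ℕ) : List G := (L.filter fun x => x.2 = b).map Prod.fst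

@[simp] theorem bv_nil (b : ℕ) : bv ([] : List (G × ℕ)) b = [] := rfl
theorem bv_cons (x : G × ℕ) (L : List (G × ℕ)) (b : ℕ) :
    bv (x :: L) b = if x.2 = b then x.1 :: bv L b else bv L b := by
  unfold bv
  rw [List.filter_cons]
  split_ifs <;> simp_all

theorem bv_perm {L L' : List (G × ℕ)} (h : L.Perm L') (b : ℕ) : (bv L b).Perm (bv L' b) :=
  (h.filter _).map _

end

/-- A matching of crossings: an involution, matched different crossings having opposite signs. -/
def Matching (P : List Pass) (m : ℕ → ℕ) : Prop :=
  ∀ p ∈ P, ∃ q ∈ P, q.crossing = m p.crossing ∧ m q.crossing = p.crossing ∧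
    (q.crossing ≠ p.crossing → q.isPos = !p.isPos)

/-- Labels of the over- and underpassages compatible with a matching. -/
def Valid {G : Type} [Group G] (P : List Pass) (m : ℕ → ℕ) (o u : ℕ → G) : Prop :=
  ∀ p ∈ P, (m p.crossing = p.crossing → u p.crossing = (o p.crossing)⁻¹) ∧
    (m p.crossing ≠ p.crossing →
      o (m p.crossing) = (o p.crossing)⁻¹ ∧ u (m p.crossing) = (u p.crossing)⁻¹)

/-- the planarity condition for the surface and its double curves -/
def NullE (E : List (Pass ⊕ ℕ)) (m : ℕ → ℕ) : Prop :=
  ∀ (G : Type) [Group G] (o u : ℕ → G), Valid (pl E) m o u → ∀ b, CN (bv (ev o u E 1) b)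

/-- there is a matching with the planarity condition -/
def Inv (D : Code) : Prop := ∃ m, Matching (passes D) m ∧ NullE (enc D) m

theorem WellFormed.eq_of {D : Code} (h : WellFormed D) {p q : Pass} (hp : p ∈ passes D)
    (hq : q ∈ passes D) (hc : p.crossing = q.crossing) (ho : p.isOver = q.isOver) : p = q :=
  List.inj_on_of_nodup_map h.2 hp hq (by simp [hc, ho])

theorem WellFormed.eq_mate {D : Code} (h : WellFormed D) {p q : Pass} (hp : p ∈ passes D)
    (hq : q ∈ passes D) (hc : q.crossing = p.crossing) : q = p ∨ q = p.mate := by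
  by_cases ho : q.isOver = p.isOver
  · exact Or.inl (h.eq_of hq hp hc ho)
  · refine Or.inr (h.eq_of hq (h.1 p hp) (by simpa [Pass.mate] using hc) ?_)
    simp only [Pass.mate]
    cases h1 : q.isOver <;> cases h2 : p.isOver <;> simp_all

theorem WellFormed.sign_eq {D : Code} (h : WellFormed D) {p q : Pass} (hp : p ∈ passes D)
    (hq : q ∈ passes D) (hc : q.crossing = p.crossing) : q.isPos = p.isPos := by
  rcases h.eq_mate hp hq hc with rfl | rfl <;> rfl

end Pool.Agent.Y468.SR
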